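import Pool.Agent.Y913.Nb.Exc3

/-!
The counting theorem for products of powers of few integers, in terms of abc triples.
-/

set_option autoImplicit false

namespace Pool.Agent.Y913.Nb

open Finset Pool.Agent.Y913

/-- `m` is `d * w` with `d` made of `n` integers `≤ Z` and `w ≤ W` -/
def Def3 (n : ℕ) (Z W : ℝ) (m : ℕ) : Prop :=
  ∃ d w : ℕ, m = d * w ∧ NB n Z d ∧ (w : ℝ) ≤ W

/-- the exceptional abc triples -/
def AbcExc3 (n : ℕ) (δ η K Y : ℝ) (q : ℕ × ℕ) : Prop :=
  0 < q.1 ∧ 0 < q.2 ∧ Nat.Coprime q.1 q.2 ∧ Y ^ K ≤ ((q.1 + q.2 : ℕ) : ℝ) ∧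
    ((NB n Y q.2 ∧ NB n Y (q.1 + q.2) ∧ Def3 n (Y ^ η) (((q.1 + q.2 : ℕ) : ℝ) ^ (1 - δ)) q.1) ∨
     (NB n Y q.1 ∧ NB n Y (q.1 + q.2) ∧ Def3 n (Y ^ η) (((q.1 + q.2 : ℕ) : ℝ) ^ (1 - δ)) q.2) ∨
     (NB n Y q.1 ∧ NB n Y q.2 ∧
       Def3 n (Y ^ η) (((q.1 + q.2 : ℕ) : ℝ) ^ (1 - δ)) (q.1 + q.2)))

theorem abc3_count (n : ℕ) (δ ε : ℝ) (hδ : 0 < δ) (hε : 0 < ε) : ∃ K C η : ℝ, 0 < K ∧ 0 < C ∧
    0 < η ∧ ∀ Y : ℝ, 1 ≤ Y → ∀ Q : Finset (ℕ × ℕ), (∀ q ∈ Q, AbcExc3 n δ η K Y q) →
      (Q.card : ℝ) ≤ C * Y ^ ε := by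
  classical
  obtain ⟨K, C, η, hK, hC, hη, h⟩ := exc3_count n (δ / 2) ε (by positivity) hε
  refine ⟨K + 1 + 2 / δ, 4 * C + 1, η, by positivity, by positivity, hη, ?_⟩
  intro Y hY Q hQ
  have hYε : (1 : ℝ) ≤ Y ^ ε := Real.one_le_rpow hY hε.le
  rcases lt_or_ge Y 2 with hY2 | hY2
  · -- only `1 + 1 = 2`
    have hsub : Q ⊆ {((1 : ℕ), (1 : ℕ))} := by
      rintro ⟨a, b⟩ hq
      obtain ⟨h1, h2, h3, h4, h5⟩ := hQ _ hq
      simp only at h1 h2 h3 h4 h5
      rw [Finset.mem_singleton]
      rcases h5 with ⟨h6, h7, _⟩ | ⟨h6, h7, _⟩ | ⟨h6, h7, _⟩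
      · have e6 := nb_lt_two hY2 h6
        have e7 := nb_lt_two hY2 h7
        omega
      · have e6 := nb_lt_two hY2 h6
        have e7 := nb_lt_two hY2 h7
        omega
      · rw [nb_lt_two hY2 h6, nb_lt_two hY2 h7]
    have hc := Finset.card_le_card hsub
    rw [Finset.card_singleton] at hc
    have hc2 : (Q.card : ℝ) ≤ 1 := by exact_mod_cast hc
    nlinarith
  · have hY0 : 0 < Y := by linarith
    -- the three maps
    let f1 : ℕ × ℕ → ℕ × ℕ := fun q => (q.2, q.1 + q.2)
    let f2 : ℕ × ℕ → ℕ × ℕ := fun q => (q.1, q.1 + q.2)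
    let Q1 := Q.filter (fun q => Exc3 n (δ / 2) η K Y (f1 q))
    let Q2 := Q.filter (fun q => Exc3 n (δ / 2) η K Y (f2 q))
    let Q3 := Q.filter (fun q => Exc3 n (δ / 2) η K Y q)
    let Q4 := Q.filter (fun q => Exc3 n (δ / 2) η K Y q.swap)
    have hcov : Q ⊆ Q1 ∪ Q2 ∪ Q3 ∪ Q4 := by
      rintro ⟨a, b⟩ hq
      obtain ⟨h1, h2, h3, h4, h5⟩ := hQ _ hq
      simp only at h1 h2 h3 h4 h5
      have ha : (0 : ℝ) < a := by exact_mod_cast h1
      have hb : (0 : ℝ) < b := by exact_mod_cast h2
      have hc1 : (1 : ℝ) < ((a + b : ℕ) : ℝ) := by exact_mod_cast (by omega : 1 < a + b)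
      have hKc : Y ^ K ≤ ((a + b : ℕ) : ℝ) :=
        (Real.rpow_le_rpow_of_exponent_le hY (by
          have : 0 ≤ 2 / δ := by positivity
          linarith)).trans h4
      have hco1 : Nat.Coprime b (a + b) := by
        rw [Nat.coprime_add_self_right]
        exact h3.symm
      have hco2 : Nat.Coprime a (a + b) := by
        rw [Nat.coprime_self_add_right]
        exact h3
      have hw : ∀ w : ℕ, (w : ℝ) ≤ ((a + b : ℕ) : ℝ) ^ (1 - δ) →
          (w : ℝ) ≤ ((a + b : ℕ) : ℝ) ^ (1 - δ / 2) := fun w hw =>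
        hw.trans (Real.rpow_le_rpow_of_exponent_le hc1.le (by linarith))
      rcases h5 with ⟨h5, h5', d, w, h6, h7, h8⟩ | ⟨h5, h5', d, w, h6, h7, h8⟩ |
        ⟨h5, h5', d, w, h6, h7, h8⟩
      · simp only [Finset.mem_union]
        left; left; left
        rw [Finset.mem_filter]
        refine ⟨hq, h2, by show b < a + b; omega, hco1, h5, h5', hKc, d, w, Or.inl ?_, h7,
          hw w h8⟩
        show d * w = a + b - b
        omega
      · simp only [Finset.mem_union]
        left; left; right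
        rw [Finset.mem_filter]
        refine ⟨hq, h1, by show a < a + b; omega, hco2, h5, h5', hKc, d, w, Or.inl ?_, h7,
          hw w h8⟩
        show d * w = a + b - a
        omega
      · have hne : a ≠ b := by
          rintro rfl
          have h9 : a = 1 := by rwa [Nat.coprime_self] at h3
          subst h9
          have h10 : Y ^ (K + 1 + 2 / δ) ≤ 2 := by
            have := h4
            norm_num at this
            linarith
          have h11 : (2 : ℝ) < Y ^ (K + 1 + 2 / δ) := by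
            calc (2 : ℝ) = 2 ^ (1 : ℝ) := (Real.rpow_one 2).symm
              _ ≤ Y ^ (1 : ℝ) := Real.rpow_le_rpow (by norm_num) hY2 (by norm_num)
              _ < Y ^ (K + 1 + 2 / δ) := by
                  apply Real.rpow_lt_rpow_of_exponent_lt (by linarith)
                  have : 0 < 2 / δ := by positivity
                  linarith
          linarith
        have key : ∀ u v : ℕ, 0 < u → u < v → u + v = a + b → Nat.Coprime u v →
            NB n Y u → NB n Y v → Exc3 n (δ / 2) η K Y (u, v) := by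
          intro u v hu huv hs hcop hnu hnv
          have hv : (0 : ℝ) < v := by exact_mod_cast (by omega : 0 < v)
          have hcv : ((a + b : ℕ) : ℝ) ≤ 2 * v := by
            have : a + b ≤ 2 * v := by omega
            exact_mod_cast this
          have hbig : Y ^ (K + 2 / δ) ≤ (v : ℝ) := by
            have e1 : 2 * Y ^ (K + 2 / δ) ≤ Y ^ (K + 1 + 2 / δ) := by
              have : Y ^ (K + 1 + 2 / δ) = Y * Y ^ (K + 2 / δ) := by
                rw [show K + 1 + 2 / δ = 1 + (K + 2 / δ) by ring, Real.rpow_add hY0,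
                  Real.rpow_one]
              rw [this]
              gcongr
            linarith
          have hvK : Y ^ K ≤ (v : ℝ) :=
            (Real.rpow_le_rpow_of_exponent_le hY (by
              have : 0 ≤ 2 / δ := by positivity
              linarith)).trans hbig
          have hv2 : (2 : ℝ) ^ (2 / δ) ≤ v := by
            calc (2 : ℝ) ^ (2 / δ) ≤ Y ^ (2 / δ) :=
                  Real.rpow_le_rpow (by norm_num) hY2 (by positivity)
              _ ≤ Y ^ (K + 2 / δ) := Real.rpow_le_rpow_of_exponent_le hY (by linarith)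
              _ ≤ v := hbig
          have hv3 : (2 : ℝ) ≤ (v : ℝ) ^ (δ / 2) := by
            calc (2 : ℝ) = ((2 : ℝ) ^ (2 / δ)) ^ (δ / 2) := by
                  rw [← Real.rpow_mul (by norm_num)]
                  rw [show 2 / δ * (δ / 2) = 1 by field_simp, Real.rpow_one]
              _ ≤ (v : ℝ) ^ (δ / 2) := Real.rpow_le_rpow (by positivity) hv2 (by positivity)
          have hv1 : (1 : ℝ) ≤ v := by exact_mod_cast (by omega : 1 ≤ v)
          refine ⟨hu, huv, hcop, hnu, hnv, hvK, d, w, Or.inr ?_, h7, ?_⟩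
          · show d * w = v + u
            omega
          · show (w : ℝ) ≤ (v : ℝ) ^ (1 - δ / 2)
            rcases le_or_gt δ 1 with hδ1 | hδ1
            · calc (w : ℝ) ≤ ((a + b : ℕ) : ℝ) ^ (1 - δ) := h8
                _ ≤ (2 * v) ^ (1 - δ) := Real.rpow_le_rpow (by positivity) hcv (by linarith)
                _ = 2 ^ (1 - δ) * (v : ℝ) ^ (1 - δ) := Real.mul_rpow (by norm_num) hv.le
                _ ≤ 2 * (v : ℝ) ^ (1 - δ) := by
                    have : (2 : ℝ) ^ (1 - δ) ≤ 2 ^ (1 : ℝ) :=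
                      Real.rpow_le_rpow_of_exponent_le (by norm_num) (by linarith)
                    rw [Real.rpow_one] at this
                    gcongr
                _ ≤ (v : ℝ) ^ (δ / 2) * (v : ℝ) ^ (1 - δ) := by gcongr
                _ = (v : ℝ) ^ (1 - δ / 2) := by
                    rw [← Real.rpow_add hv]
                    congr 1
                    ring
            · -- `w < 1`, impossible
              exfalso
              have h9 : (w : ℝ) < 1 := by
                refine h8.trans_lt ?_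
                exact Real.rpow_lt_one_of_one_lt_of_neg hc1 (by linarith)
              have h10 : w = 0 := by
                have : w < 1 := by exact_mod_cast h9
                omega
              subst h10
              omega
        rcases lt_or_gt_of_ne hne with hlt | hgt
        · simp only [Finset.mem_union]
          left; right
          rw [Finset.mem_filter]
          exact ⟨hq, key a b h1 hlt rfl h3 h5 h5'⟩
        · simp only [Finset.mem_union]
          right
          rw [Finset.mem_filter]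
          exact ⟨hq, key b a h2 hgt (by omega) h3.symm h5' h5⟩
    have hc1 : (Q1.card : ℝ) ≤ C * Y ^ ε := by
      have hinj : Set.InjOn f1 (Q1 : Set (ℕ × ℕ)) := by
        rintro ⟨a, b⟩ _ ⟨c, d⟩ _ he
        simp only [f1, Prod.mk.injEq] at he
        ext <;> simp only <;> omega
      rw [← Finset.card_image_of_injOn hinj]
      apply h Y hY
      intro q hq
      obtain ⟨q', hq', rfl⟩ := Finset.mem_image.mp hq
      exact (Finset.mem_filter.mp hq').2
    have hc2 : (Q2.card : ℝ) ≤ C * Y ^ ε := by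
      have hinj : Set.InjOn f2 (Q2 : Set (ℕ × ℕ)) := by
        rintro ⟨a, b⟩ _ ⟨c, d⟩ _ he
        simp only [f2, Prod.mk.injEq] at he
        ext <;> simp only <;> omega
      rw [← Finset.card_image_of_injOn hinj]
      apply h Y hY
      intro q hq
      obtain ⟨q', hq', rfl⟩ := Finset.mem_image.mp hq
      exact (Finset.mem_filter.mp hq').2
    have hc3 : (Q3.card : ℝ) ≤ C * Y ^ ε := h Y hY Q3 fun q hq => (Finset.mem_filter.mp hq).2
    have hc4 : (Q4.card : ℝ) ≤ C * Y ^ ε := by
      have hinj : Set.InjOn (Prod.swap : ℕ × ℕ → ℕ × ℕ) (Q4 : Set (ℕ × ℕ)) :=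
        fun a _ b _ he => Prod.swap_injective he
      rw [← Finset.card_image_of_injOn hinj]
      apply h Y hY
      intro q hq
      obtain ⟨q', hq', rfl⟩ := Finset.mem_image.mp hq
      exact (Finset.mem_filter.mp hq').2
    have hcard : (Q.card : ℝ) ≤ Q1.card + Q2.card + Q3.card + Q4.card := by
      have h3 : Q.card ≤ Q1.card + Q2.card + Q3.card + Q4.card :=
        (Finset.card_le_card hcov).trans ((Finset.card_union_le _ _).trans
          (Nat.add_le_add_right ((Finset.card_union_le _ _).trans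
            (Nat.add_le_add_right (Finset.card_union_le _ _) _)) _))
      exact_mod_cast h3
    linarith

theorem abc3_finite (n : ℕ) (δ ε : ℝ) (hδ : 0 < δ) (hε : 0 < ε) : ∃ K C η : ℝ, 0 < K ∧ 0 < C ∧
    0 < η ∧ ∀ Y : ℝ, 1 ≤ Y → {q | AbcExc3 n δ η K Y q}.Finite ∧
      ({q | AbcExc3 n δ η K Y q}.ncard : ℝ) ≤ C * Y ^ ε := by
  obtain ⟨K, C, η, hK, hC, hη, h⟩ := abc3_count n δ ε hδ hε
  refine ⟨K, C, η, hK, hC, hη, fun Y hY => ?_⟩
  have hfin : {q | AbcExc3 n δ η K Y q}.Finite := by
    by_contra hinf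
    rw [← Set.Infinite] at hinf
    obtain ⟨Q, hQ1, hQ2⟩ := hinf.exists_subset_card_eq (⌊C * Y ^ ε⌋₊ + 1)
    have h3 := h Y hY Q (fun q hq => hQ1 hq)
    rw [hQ2] at h3
    push_cast at h3
    have := Nat.lt_floor_add_one (C * Y ^ ε)
    linarith
  refine ⟨hfin, ?_⟩
  rw [Set.ncard_eq_toFinset_card _ hfin]
  exact h Y hY _ (fun q hq => by simpa using hq)

end Pool.Agent.Y913.Nb
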