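import Pool.Agent.Y913.Nb.Core2
import Pool.Agent.Y913.Params

/-!
Choice of parameters.
-/

set_option autoImplicit false

namespace Pool.Agent.Y913.Nb

open Finset Pool.Agent.Y913

/-- **archimedean form, with parameters chosen** -/
theorem key_arch2 {ι τ : Type} [Fintype τ] [DecidableEq τ]
    (n : ℕ) (hn : n = Fintype.card τ + 1)
    (A Z w : ℕ) (hZ : 1 ≤ Z) (hw : 1 ≤ w) (hA2 : 2 ≤ A) (hZA : Z ≤ A ^ w)
    (η : ℝ) (hη0 : 0 ≤ η) (hη : η * (A : ℝ) ^ (KK n w) ≤ 1)
    (φ : Option τ → ℝ) (hφ0 : 1 ≤ |φ none|) (hφ : ∀ j, |φ j| ≤ |φ none|)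
    (I : Finset ι) (P Q : ι → Option τ → ℕ)
    (hP : ∀ t ∈ I, ∀ j, 1 ≤ P t j ∧ P t j ≤ Z) (hQ : ∀ t ∈ I, ∀ j, 1 ≤ Q t j ∧ Q t j ≤ Z)
    (hPQ : ∀ t ∈ I, ∀ j, |Real.log (P t (some j)) - Real.log (Q t (some j))| ≤
      1 / ((2 * n * DD n w * A : ℕ) : ℝ))
    (hrel : ∀ t ∈ I, |∑ j, φ j * (Real.log (P t j) - Real.log (Q t j))| ≤ 2 * w * η)
    (hind : ∀ t ∈ I, ∀ t' ∈ I, t ≠ t' → ∀ c : Option τ → ℤ, (∀ j, |c j| ≤ DD n w) →
      ∑ j, (c j : ℝ) * ((Real.log (P t' j) - Real.log (Q t' j)) -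
        (Real.log (P t j) - Real.log (Q t j))) = 0 → c = 0) :
    I.card < mm n w := by
  have hn1 : 1 ≤ n := by omega
  have hB := BB_pos hn1 w
  have hD := DD_pos hn1 w
  have hcardτ : Fintype.card τ = n - 1 := by omega
  have hDB : DD n w = 2 * BB n w ^ n := rfl
  have hKK : KK n w = BB n w * DD n w := rfl
  have hBD : BB n w ≤ DD n w := BB_le_DD hn1 w
  have hmm : mm n w = 2 ^ ((n + 1) * n) * DD n w ^ n + 1 := rfl
  have hBdef : BB n w = 14 * n + 2 * w * n ^ 2 := rfl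
  rw [hmm]
  clear hmm
  generalize DD n w = D at *
  generalize KK n w = K at *
  generalize BB n w = B at *
  obtain ⟨r, hr⟩ : ∃ r, r = K ^ (n - 1) := ⟨_, rfl⟩
  obtain ⟨L, hL⟩ : ∃ L, L = D ^ n := ⟨_, rfl⟩
  obtain ⟨Z', hZ'⟩ : ∃ Z', Z' = A ^ (w * n ^ 2 * D) := ⟨_, rfl⟩
  obtain ⟨e, he⟩ : ∃ e, e = 4 + 3 * n * D + w * n ^ 2 * D := ⟨_, rfl⟩
  obtain ⟨H, hH⟩ : ∃ H, H = A ^ e := ⟨_, rfl⟩
  obtain ⟨N, hN⟩ : ∃ N, N = 4 * r * Z' := ⟨_, rfl⟩
  obtain ⟨R, hR⟩ : ∃ R, R = 2 * n * D * A := ⟨_, rfl⟩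
  have hKpos : 1 ≤ K := by rw [hKK]; exact Nat.mul_pos (by omega) (by omega)
  have hrpos : 1 ≤ r := by rw [hr]; exact Nat.one_le_pow _ _ hKpos
  have hApos : 1 ≤ A := by omega
  have hZpos : 1 ≤ Z' := by rw [hZ']; exact Nat.one_le_pow _ _ hApos
  have hHpos : 1 ≤ H := by rw [hH]; exact Nat.one_le_pow _ _ hApos
  have hLpos : 1 ≤ L := by rw [hL]; exact Nat.one_le_pow _ _ (by omega)
  have hwD : w ≤ D := by
    refine le_trans ?_ hBD
    rw [hBdef]
    have : 1 ≤ n ^ 2 := Nat.one_le_pow _ _ hn1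
    have e1 := Nat.mul_le_mul_left w this
    have e2 : 2 * w * n ^ 2 = 2 * (w * n ^ 2) := by ring
    rw [e2]
    omega
  have hKn : K = 14 * n * D + 2 * w * n ^ 2 * D := by
    rw [hKK, hBdef]
    ring
  -- powers of two
  have hL2 : L ≤ 2 ^ (n * D) := by
    rw [hL, mul_comm n D, pow_mul]
    exact Nat.pow_le_pow_left Nat.lt_two_pow_self.le n
  have hLr : 2 * r ≤ L := by
    have e1 : r = B ^ (n - 1) * D ^ (n - 1) := by rw [hr, hKK, mul_pow]
    have e2 : L = D ^ (n - 1) * D := by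
      rw [hL, ← pow_succ]
      congr 1
      omega
    have e3 : B ^ (n - 1) ≤ B ^ n := Nat.pow_le_pow_right (by omega) (by omega)
    rw [e1, e2, hDB]
    calc 2 * (B ^ (n - 1) * (2 * B ^ n) ^ (n - 1)) = (2 * B ^ n) ^ (n - 1) * (2 * B ^ (n - 1)) := by
          ring
      _ ≤ _ := Nat.mul_le_mul_left _ (by omega)
  have hrL : r ≤ L := by omega
  have hpig : (2 * (D ^ (Fintype.card τ + 1) * H * N) + 1) ^ (K ^ Fintype.card τ) <
      (H + 1) ^ (D ^ (Fintype.card τ + 1)) := by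
    rw [← hn, hcardτ, ← hr, ← hL]
    have e1 : 2 * (L * H * N) + 1 ≤ A ^ (2 * e) := by
      have e2 : 2 * (L * H * N) + 1 ≤ 16 * (L * r) * (H * Z') := by
        rw [hN]
        have : 1 ≤ L * r * (H * Z') := Nat.mul_pos (Nat.mul_pos hLpos hrpos)
          (Nat.mul_pos hHpos hZpos)
        have e3 : L * H * (4 * r * Z') = 4 * (L * r * (H * Z')) := by ring
        have e5 : 16 * (L * r) * (H * Z') = 16 * (L * r * (H * Z')) := by ring
        rw [e3, e5]
        omega
      have e4 : 16 * (L * r) ≤ A ^ (4 + 2 * (n * D)) := by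
        calc 16 * (L * r) ≤ 2 ^ 4 * (2 ^ (n * D) * 2 ^ (n * D)) := by
              apply Nat.mul_le_mul (by norm_num)
              exact Nat.mul_le_mul hL2 (hrL.trans hL2)
          _ = 2 ^ (4 + 2 * (n * D)) := by ring
          _ ≤ _ := Nat.pow_le_pow_left hA2 _
      calc 2 * (L * H * N) + 1 ≤ 16 * (L * r) * (H * Z') := e2
        _ ≤ A ^ (4 + 2 * (n * D)) * (A ^ e * A ^ (w * n ^ 2 * D)) := by
            rw [← hH, ← hZ']
            exact Nat.mul_le_mul_right _ e4
        _ = A ^ (4 + 2 * (n * D) + (e + w * n ^ 2 * D)) := by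
            rw [pow_add A (4 + 2 * (n * D)), pow_add A e]
        _ ≤ A ^ (2 * e) := by
            apply Nat.pow_le_pow_right hApos
            have : 3 * n * D = 3 * (n * D) := by ring
            omega
    calc (2 * (L * H * N) + 1) ^ r ≤ (A ^ (2 * e)) ^ r := Nat.pow_le_pow_left e1 _
      _ = A ^ (e * (2 * r)) := by rw [← pow_mul]; congr 1; ring
      _ ≤ A ^ (e * L) := Nat.pow_le_pow_right hApos (Nat.mul_le_mul_left _ hLr)
      _ = H ^ L := by rw [pow_mul, hH]
      _ < (H + 1) ^ L := Nat.pow_lt_pow_left (by omega) (by omega)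
  have hAr : (0 : ℝ) < A := by exact_mod_cast hApos
  have hDr : (0 : ℝ) < D := by
    have : 0 < D := by omega
    exact_mod_cast this
  have hnr : (0 : ℝ) < n := by exact_mod_cast hn1
  have hn' : (Fintype.card τ : ℝ) + 1 = n := by rw [hn]; push_cast; ring
  have hη1 : η ≤ 1 / (A : ℝ) ^ K := by
    rw [le_div_iff₀ (by positivity)]
    exact hη
  have hAK : ∀ k : ℕ, k ≤ K → ∀ c : ℕ, c ≤ 2 ^ k → (c : ℝ) * η ≤ 1 / (A : ℝ) ^ (K - k) := by
    intro k hk c hc
    have h1 : (c : ℝ) ≤ (A : ℝ) ^ k := by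
      have : c ≤ A ^ k := hc.trans (Nat.pow_le_pow_left hA2 _)
      exact_mod_cast this
    calc (c : ℝ) * η ≤ (A : ℝ) ^ k * (1 / (A : ℝ) ^ K) :=
          mul_le_mul h1 hη1 hη0 (by positivity)
      _ = 1 / (A : ℝ) ^ (K - k) := by
          have : K = k + (K - k) := by omega
          conv_lhs => rw [this, pow_add]
          field_simp
  -- the condition on `η`
  have hη2 : 2 * (D : ℝ) * (((Fintype.card τ : ℝ) + 1) * (2 * w * η)) ≤ 1 := by
    rw [hn']
    have h1 := hAK (2 + D + n + w) (by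
      rw [hKn]
      have e9 : 14 * n * D = 14 * (n * D) := by ring
      have e11 : n ≤ n * D := Nat.le_mul_of_pos_right _ (by omega)
      have e12 : D ≤ n * D := Nat.le_mul_of_pos_left _ hn1
      rw [e9]
      omega) (4 * D * n * w) (by
      calc 4 * D * n * w ≤ 2 ^ 2 * 2 ^ D * 2 ^ n * 2 ^ w := by
            apply Nat.mul_le_mul _ Nat.lt_two_pow_self.le
            apply Nat.mul_le_mul _ Nat.lt_two_pow_self.le
            exact Nat.mul_le_mul (by norm_num) Nat.lt_two_pow_self.le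
        _ = _ := by ring)
    push_cast at h1
    have h2 : 1 / (A : ℝ) ^ (K - (2 + D + n + w)) ≤ 1 := by
      rw [div_le_one (by positivity)]
      exact one_le_pow₀ (by exact_mod_cast hApos)
    calc 2 * (D : ℝ) * ((n : ℝ) * (2 * w * η)) = 4 * D * n * w * η := by ring
      _ ≤ 1 := h1.trans h2
  have hsR : (((Fintype.card τ : ℝ) + 1) * (1 / (R : ℝ))) * (2 * D * A) ≤ 1 := by
    rw [hn', hR]
    push_cast
    have : (n : ℝ) * (1 / (2 * n * D * A)) * (2 * D * A) = 1 := by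
      field_simp
    exact this.le
  have hZsize : ((((Z : ℝ) ^ (Fintype.card τ + 1)) ^ (D - 1)) ^
      (Fintype.card τ + 1)) ≤ (Z' : ℝ) := by
    rw [← hn, hZ']
    have e3 : ((Z ^ n) ^ (D - 1)) ^ n ≤ A ^ (w * n ^ 2 * D) := by
      calc ((Z ^ n) ^ (D - 1)) ^ n ≤ (((A ^ w) ^ n) ^ (D - 1)) ^ n := by gcongr
        _ = A ^ (w * (n * ((D - 1) * n))) := by
            rw [← pow_mul, ← pow_mul, ← pow_mul]
        _ ≤ A ^ (w * n ^ 2 * D) := by
            apply Nat.pow_le_pow_right (by omega)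
            calc w * (n * ((D - 1) * n)) ≤ w * (n * (D * n)) :=
                  Nat.mul_le_mul_left _ (Nat.mul_le_mul_left _
                    (Nat.mul_le_mul_right _ (Nat.sub_le _ _)))
              _ = w * n ^ 2 * D := by ring
    exact_mod_cast e3
  have hm4 : (Fintype.card τ : ℝ) ≤ 2 ^ n := by
    have : Fintype.card τ ≤ 2 ^ n := by
      rw [hcardτ]
      exact (Nat.sub_le _ _).trans Nat.lt_two_pow_self.le
    exact_mod_cast this
  have h3m : 3 ^ Fintype.card τ ≤ 2 ^ (2 * n) := by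
    rw [hcardτ, pow_mul]
    exact (Nat.pow_le_pow_left (by norm_num) _).trans
      (Nat.pow_le_pow_right (by norm_num) (Nat.sub_le _ _))
  have hsize : ((D ^ (Fintype.card τ + 1) : ℕ) * (H * (3 ^ Fintype.card τ *
        (2 * D * ((Fintype.card τ + 1) * (2 * w * η)) +
          2 * Fintype.card τ * (1 / (A : ℝ)) ^ K))) +
      (K ^ Fintype.card τ : ℕ) * (1 / (N : ℝ))) *
      ((((Z : ℝ) ^ (Fintype.card τ + 1)) ^ (D - 1)) ^ (Fintype.card τ + 1)) < 1 := by
    have hpos : 0 ≤ ((D ^ (Fintype.card τ + 1) : ℕ) * (H * (3 ^ Fintype.card τ *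
        (2 * D * (((Fintype.card τ : ℝ) + 1) * (2 * w * η)) +
          2 * Fintype.card τ * (1 / (A : ℝ)) ^ K))) +
      (K ^ Fintype.card τ : ℕ) * (1 / (N : ℝ))) := by positivity
    refine lt_of_le_of_lt (mul_le_mul_of_nonneg_left hZsize hpos) ?_
    rw [hn', ← hn, hcardτ, ← hL, ← hr, ← hcardτ]
    -- three terms
    have hcAH : ∀ (c k : ℕ) (y : ℝ), c * L ≤ 2 ^ k → 0 ≤ y → y * (A : ℝ) ^ K ≤ 1 →
        k + e + w * n ^ 2 * D ≤ K → (c : ℝ) * L * H * y * Z' ≤ 1 := by
      intro c k y hc hy hyA hk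
      have h1 : ((c * L : ℕ) : ℝ) ≤ (A : ℝ) ^ k := by
        have : c * L ≤ A ^ k := hc.trans (Nat.pow_le_pow_left hA2 _)
        exact_mod_cast this
      push_cast at h1
      calc (c : ℝ) * L * H * y * Z' ≤ (A : ℝ) ^ k * H * y * Z' := by gcongr
        _ = y * (A : ℝ) ^ (k + e + w * n ^ 2 * D) := by
            rw [hH, hZ']
            push_cast
            rw [pow_add, pow_add]
            ring
        _ ≤ y * (A : ℝ) ^ K := by
            apply mul_le_mul_of_nonneg_left _ hy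
            exact pow_le_pow_right₀ (by exact_mod_cast hApos) hk
        _ ≤ 1 := hyA
    have t1 := hcAH (16 * 3 ^ Fintype.card τ * D * n * w) (4 + 2 * n + D + n + w + n * D) η (by
      calc 16 * 3 ^ Fintype.card τ * D * n * w * L
          ≤ 2 ^ 4 * 2 ^ (2 * n) * 2 ^ D * 2 ^ n * 2 ^ w * 2 ^ (n * D) := by
            apply Nat.mul_le_mul _ hL2
            apply Nat.mul_le_mul _ Nat.lt_two_pow_self.le
            apply Nat.mul_le_mul _ Nat.lt_two_pow_self.le
            apply Nat.mul_le_mul _ Nat.lt_two_pow_self.le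
            exact Nat.mul_le_mul (by norm_num) h3m
        _ = _ := by ring) hη0 hη (by
      rw [hKn, he]
      have e8 : 3 * n * D = 3 * (n * D) := by ring
      have e9 : 14 * n * D = 14 * (n * D) := by ring
      have e10 : 2 * w * n ^ 2 * D = 2 * (w * n ^ 2 * D) := by ring
      have e11 : n ≤ n * D := Nat.le_mul_of_pos_right _ (by omega)
      have e12 : D ≤ n * D := Nat.le_mul_of_pos_left _ hn1
      rw [e8, e9, e10]
      omega)
    have t2 := hcAH (8 * 3 ^ Fintype.card τ * Fintype.card τ) (3 + 2 * n + n + n * D)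
      ((1 / (A : ℝ)) ^ K) (by
      have hcn : Fintype.card τ ≤ 2 ^ n := by
        rw [hcardτ]
        exact (Nat.sub_le _ _).trans Nat.lt_two_pow_self.le
      calc 8 * 3 ^ Fintype.card τ * Fintype.card τ * L
          ≤ 2 ^ 3 * 2 ^ (2 * n) * 2 ^ n * 2 ^ (n * D) := by
            apply Nat.mul_le_mul _ hL2
            apply Nat.mul_le_mul _ hcn
            exact Nat.mul_le_mul (by norm_num) h3m
        _ = _ := by ring) (by positivity) (by
      rw [one_div, inv_pow, inv_mul_cancel₀ (by positivity)]) (by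
      rw [hKn, he]
      have e8 : 3 * n * D = 3 * (n * D) := by ring
      have e9 : 14 * n * D = 14 * (n * D) := by ring
      have e10 : 2 * w * n ^ 2 * D = 2 * (w * n ^ 2 * D) := by ring
      have e11 : n ≤ n * D := Nat.le_mul_of_pos_right _ (by omega)
      have e12 : D ≤ n * D := Nat.le_mul_of_pos_left _ hn1
      rw [e8, e9, e10]
      omega)
    have t3 : (r : ℝ) * (1 / (N : ℝ)) * Z' = 1 / 4 := by
      have hr0 : (0 : ℝ) < r := by exact_mod_cast hrpos
      have hZ0 : (0 : ℝ) < Z' := by exact_mod_cast hZpos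
      rw [hN]
      push_cast
      field_simp
    push_cast at t1 t2 ⊢
    have hfin : ((L : ℝ) * (H * (3 ^ Fintype.card τ *
        (2 * D * (n * (2 * w * η)) + 2 * Fintype.card τ * (1 / (A : ℝ)) ^ K))) +
        r * (1 / (N : ℝ))) * Z' =
        1 / 4 * (16 * 3 ^ Fintype.card τ * D * n * w * L * H * η * Z') +
        1 / 4 * (8 * 3 ^ Fintype.card τ * Fintype.card τ * L * H * (1 / (A : ℝ)) ^ K * Z') +
        r * (1 / (N : ℝ)) * Z' := by ring
    rw [hfin, t3]
    linarith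
  have hφr : (0 : ℝ) < |φ none| := by linarith
  have hφne : φ none ≠ 0 := abs_pos.mp hφr
  have key := card_le_arch2 (ι := ι) (τ := τ) K D H N Z hKpos (by omega)
    (by rw [hN]; exact Nat.mul_pos (Nat.mul_pos (by norm_num) hrpos) hZpos) hZ
    hpig (A : ℝ) (1 / (R : ℝ)) (2 * w * η) (by exact_mod_cast hApos) (by positivity) (by positivity)
    hη2 hsR hsize (fun j => -(φ (some j)) / (φ none)) (by
      intro j
      rw [abs_div, abs_neg, div_le_one hφr]
      exact hφ (some j)) I P Q hP hQ (by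
      intro t ht j
      have := hPQ t ht j
      rw [hR]
      exact this) (by
      intro t ht
      have h8 := hrel t ht
      rw [Fintype.sum_option] at h8
      have h10 : (Real.log (P t none) - Real.log (Q t none)) -
          ∑ j, (-(φ (some j)) / (φ none)) *
            (Real.log (P t (some j)) - Real.log (Q t (some j))) =
          (φ none * (Real.log (P t none) - Real.log (Q t none)) +
          ∑ j, φ (some j) *
            (Real.log (P t (some j)) - Real.log (Q t (some j)))) / (φ none) := by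
        rw [add_div, mul_div_cancel_left₀ _ hφne, Finset.sum_div, sub_eq_add_neg,
          ← Finset.sum_neg_distrib]
        congr 1
        apply Finset.sum_congr rfl
        intro j _
        ring
      rw [h10, abs_div, div_le_iff₀ hφr]
      refine h8.trans ?_
      have h11 : 0 ≤ 2 * (w : ℝ) * η := by positivity
      nlinarith) hind
  rw [← hn] at key
  omega


/-- **`p`-adic form, with parameters chosen** -/
theorem key_padic2 {ι τ : Type} [Fintype τ] [DecidableEq τ]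
    (n : ℕ) (hn : n = Fintype.card τ + 1)
    (p h Z w M ν : ℕ) (hp : p.Prime) (hh : 1 ≤ h) (h2 : p = 2 → 2 ≤ h)
    (hZ : 1 ≤ Z) (hw : 1 ≤ w) (hYp : Z ≤ (p ^ h) ^ w) (hmM : ν + h * KK n w ≤ M)
    (φ : Option τ → ℤ)
    (hφ : ∀ j, (p : ℤ) ^ ν ∣ φ j) (hφ0 : ¬ (p : ℤ) ^ (ν + 1) ∣ φ none)
    (I : Finset ι) (P Q : ι → Option τ → ℕ)
    (hP : ∀ t ∈ I, ∀ j, 1 ≤ P t j ∧ P t j ≤ Z) (hQ : ∀ t ∈ I, ∀ j, 1 ≤ Q t j ∧ Q t j ≤ Z)
    (hPp : ∀ t ∈ I, ∀ j, (P t j).Coprime p) (hQp : ∀ t ∈ I, ∀ j, (Q t j).Coprime p)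
    (hPQ : ∀ t ∈ I, ∀ j, ((P t j : ℕ) : ZMod (p ^ h)) = ((Q t j : ℕ) : ZMod (p ^ h)))
    (hrel : ∀ t ∈ I, ∏ j, (ud (p ^ M) (P t j) * (ud (p ^ M) (Q t j))⁻¹) ^ φ j = 1)
    (hind : ∀ t ∈ I, ∀ t' ∈ I, t ≠ t' → ∀ c : Option τ → ℤ, (∀ j, |c j| ≤ DD n w) →
      ∑ j, (c j : ℝ) * ((Real.log (P t' j) - Real.log (Q t' j)) -
        (Real.log (P t j) - Real.log (Q t j))) = 0 → c = 0) :
    I.card < mm n w := by
  have hn1 : 1 ≤ n := by omega
  have hB := BB_pos hn1 w
  have hD := DD_pos hn1 w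
  have hp2 : 2 ≤ p := hp.two_le
  have hA2 : 2 ≤ p ^ h := hp2.trans (Nat.le_self_pow (by omega) p)
  have hcardτ : Fintype.card τ = n - 1 := by omega
  have hDB : DD n w = 2 * BB n w ^ n := rfl
  have hKK : KK n w = BB n w * DD n w := rfl
  have hpig : (p ^ (h * KK n w)) ^ (KK n w ^ Fintype.card τ) <
      ((p ^ h) ^ (BB n w ^ n) + 1) ^ (DD n w ^ (Fintype.card τ + 1)) := by
    have e1 : (p ^ (h * KK n w)) ^ (KK n w ^ Fintype.card τ) = (p ^ h) ^ (KK n w ^ n) := by
      rw [pow_mul, ← pow_mul, ← pow_mul, ← pow_mul, hn, pow_succ (KK _ w)]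
      congr 1
      ring
    have e2 : KK n w ^ n = BB n w ^ n * DD n w ^ (Fintype.card τ + 1) := by
      rw [hKK, mul_pow, hn]
    rw [e1, e2, pow_mul]
    apply Nat.pow_lt_pow_left (by omega)
    positivity
  have hsize : DD n w ^ (Fintype.card τ + 1) *
      ((p ^ h) ^ (BB n w ^ n) * ((Z ^ (Fintype.card τ + 1)) ^ (DD n w - 1)) ^
        (Fintype.card τ + 1)) < p ^ (h * KK n w) := by
    rw [← hn]
    have e1 : DD n w ^ n < (2 ^ DD n w) ^ n := Nat.pow_lt_pow_left Nat.lt_two_pow_self (by omega)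
    have e2 : (2 ^ DD n w) ^ n ≤ (p ^ h) ^ (DD n w * n) := by
      rw [← pow_mul]
      exact Nat.pow_le_pow_left hA2 _
    have e3 : ((Z ^ n) ^ (DD n w - 1)) ^ n ≤ (p ^ h) ^ (w * n * (DD n w) * n) := by
      calc ((Z ^ n) ^ (DD n w - 1)) ^ n ≤ ((((p ^ h) ^ w) ^ n) ^ (DD n w - 1)) ^ n := by gcongr
        _ = (p ^ h) ^ (w * (n * ((DD n w - 1) * n))) := by
            rw [← pow_mul, ← pow_mul, ← pow_mul]
        _ ≤ (p ^ h) ^ (w * n * (DD n w) * n) := by
            apply Nat.pow_le_pow_right (by omega)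
            calc w * (n * ((DD n w - 1) * n)) ≤ w * (n * (DD n w * n)) :=
                  Nat.mul_le_mul_left _ (Nat.mul_le_mul_left _
                    (Nat.mul_le_mul_right _ (Nat.sub_le _ _)))
              _ = w * n * DD n w * n := by ring
    calc DD n w ^ n * ((p ^ h) ^ (BB n w ^ n) * ((Z ^ n) ^ (DD n w - 1)) ^ n)
        < (p ^ h) ^ (DD n w * n) * ((p ^ h) ^ (BB n w ^ n) * (p ^ h) ^ (w * n * (DD n w) * n)) := by
          have h1 : DD n w ^ n < (p ^ h) ^ (DD n w * n) := lt_of_lt_of_le e1 e2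
          calc DD n w ^ n * ((p ^ h) ^ (BB n w ^ n) * ((Z ^ n) ^ (DD n w - 1)) ^ n)
              ≤ DD n w ^ n * ((p ^ h) ^ (BB n w ^ n) * (p ^ h) ^ (w * n * (DD n w) * n)) := by
                gcongr
            _ < _ := by
                apply Nat.mul_lt_mul_of_pos_right h1
                positivity
      _ = (p ^ h) ^ (DD n w * n + (BB n w ^ n + w * n * (DD n w) * n)) := by
          rw [pow_add, pow_add]
      _ ≤ (p ^ h) ^ (KK n w) := by
          apply Nat.pow_le_pow_right (by omega)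
          rw [hKK]
          have e4 : BB n w ^ n ≤ DD n w := by rw [hDB]; omega
          have e5 : BB n w * DD n w = 14 * n * DD n w + 2 * w * n ^ 2 * DD n w := by
            unfold BB
            ring
          rw [e5]
          have e6 : w * n * DD n w * n = w * n ^ 2 * DD n w := by ring
          rw [e6]
          have e7 : DD n w ≤ n * DD n w := Nat.le_mul_of_pos_left _ hn1
          have e8 : 14 * n * DD n w = 14 * (n * DD n w) := by ring
          have e9 : 2 * w * n ^ 2 * DD n w = 2 * (w * n ^ 2 * DD n w) := by ring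
          have e10 : DD n w * n = n * DD n w := mul_comm _ _
          rw [e8, e9, e10]
          omega
      _ = p ^ (h * KK n w) := by rw [pow_mul]
  have hKpos : 1 ≤ KK n w := by rw [hKK]; exact Nat.mul_pos (by omega) (by omega)
  obtain ⟨d0, hd0⟩ : ∃ d0, d0 = KK n w := ⟨_, rfl⟩
  rw [← hd0] at hmM hpig hsize hKpos
  have : NeZero (p ^ (h * d0)) := ⟨pow_ne_zero _ hp.ne_zero⟩
  have hhm : h ≤ h * d0 := Nat.le_mul_of_pos_right _ hKpos
  obtain ⟨ψ, hψ⟩ := exists_psi hp hh h2 hhm hmM φ hφ hφ0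
  have hmM' : h * d0 ≤ M := le_trans (Nat.le_add_left (h * d0) ν) hmM
  have key := card_le_padic2 (ι := ι) (τ := τ) (p ^ (h * d0)) (p ^ h) d0 (DD n w)
    ((p ^ h) ^ (BB n w ^ n)) Z (by omega) hZ (by rw [← pow_mul]) hpig hsize ψ I P Q hP hQ
    (fun t ht j => by
      rw [ZMod.isUnit_iff_coprime]
      exact Nat.Coprime.pow_right _ (hQp t ht j))
    (fun t ht j => (ZMod.natCast_eq_natCast_iff _ _ _).mp (hPQ t ht (some j)))
    (by
      intro t ht
      set z : Option τ → (ZMod (p ^ M))ˣ := fun j =>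
        ud (p ^ M) (P t j) * (ud (p ^ M) (Q t j))⁻¹ with hz
      have h6 := hψ z (by
        intro j
        simp only [hz]
        rw [map_mul, map_inv, red_ud _ (hPp t ht j), red_ud _ (hQp t ht j),
          mul_inv_eq_one, ← Units.val_inj,
          ud_coe (Nat.Coprime.pow_right _ (hPp t ht j)),
          ud_coe (Nat.Coprime.pow_right _ (hQp t ht j))]
        exact hPQ t ht j) (hrel t ht)
      have h7 : ∀ j, red p hmM' (z j) =
          ud (p ^ (h * d0)) (P t j) * (ud (p ^ (h * d0)) (Q t j))⁻¹ := by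
        intro j
        simp only [hz]
        rw [map_mul, map_inv, red_ud _ (hPp t ht j), red_ud _ (hQp t ht j)]
      have h8 : ud (p ^ (h * d0)) (P t none) *
          ∏ j, (ud (p ^ (h * d0)) (Q t (some j))) ^ ψ j =
          ud (p ^ (h * d0)) (Q t none) *
          ∏ j, (ud (p ^ (h * d0)) (P t (some j))) ^ ψ j := by
        have h9 : red p hmM' (z none) = ∏ j, (red p hmM' (z (some j))) ^ ψ j := h6
        simp_rw [h7, mul_pow, inv_pow] at h9
        rw [Finset.prod_mul_distrib, Finset.prod_inv_distrib, mul_inv_eq_iff_eq_mul] at h9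
        rw [h9, mul_right_comm, inv_mul_cancel_right]
        exact mul_comm _ _
      have h10 := congrArg (fun u : (ZMod (p ^ (h * d0)))ˣ => (u : ZMod (p ^ (h * d0)))) h8
      simp only [Units.val_mul, Units.coe_prod, Units.val_pow_eq_pow_val] at h10
      rw [ud_coe (Nat.Coprime.pow_right _ (hPp t ht _)),
        ud_coe (Nat.Coprime.pow_right _ (hQp t ht _))] at h10
      have h11 : ∀ V : Option τ → ℕ, (∀ j, (V j).Coprime p) →
          ∏ j : τ, ((ud (p ^ (h * d0)) (V (some j)) :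
          (ZMod (p ^ (h * d0)))ˣ) : ZMod (p ^ (h * d0))) ^ ψ j =
          ∏ j : τ, ((V (some j) : ℕ) : ZMod (p ^ (h * d0))) ^ ψ j := by
        intro V hV
        apply Finset.prod_congr rfl
        intro j _
        rw [ud_coe (Nat.Coprime.pow_right _ (hV _))]
      rw [h11 _ (hPp t ht), h11 _ (hQp t ht)] at h10
      exact h10)
    hind
  rw [← hn] at key
  have hmm : mm n w = 2 ^ ((n + 1) * n) * DD n w ^ n + 1 := rfl
  omega

end Pool.Agent.Y913.Nb
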