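import Pool.Agent.Y913.Nb.Coset
import Pool.Agent.Y913.Nb.Par2
import Pool.Agent.Y913.Count

/-!
Counting integer vectors with different values of a monomial which agree modulo a power of a prime.
-/

set_option autoImplicit false

namespace Pool.Agent.Y913.Nb

open Finset Pool.Agent.Y913

/-- a multiplicative relation between integers gives one between units -/
lemma ud_of_log {σ : Type} [Fintype σ] (N : ℕ) (a b : σ → ℕ) (ha : ∀ j, 1 ≤ a j)
    (hb : ∀ j, 1 ≤ b j) (haN : ∀ j, (a j).Coprime N) (hbN : ∀ j, (b j).Coprime N) (c : σ → ℤ)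
    (h : ∑ j, (c j : ℝ) * (Real.log (a j) - Real.log (b j)) = 0) :
    ∏ j, (ud N (a j) * (ud N (b j))⁻¹) ^ c j = 1 := by
  have ha' : ∀ j, (a j : ℝ) ≠ 0 := fun j => by
    have := ha j
    positivity
  have hb' : ∀ j, (b j : ℝ) ≠ 0 := fun j => by
    have := hb j
    positivity
  have hE : (∏ j, (a j) ^ (c j).toNat) * ∏ j, (b j) ^ (-(c j)).toNat =
      (∏ j, (a j) ^ (-(c j)).toNat) * ∏ j, (b j) ^ (c j).toNat := by
    have h1 : ∀ (s t : σ → ℕ), Real.log ((∏ j, (a j : ℝ) ^ s j) * ∏ j, (b j : ℝ) ^ t j) =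
        ∑ j, (s j : ℝ) * Real.log (a j) + ∑ j, (t j : ℝ) * Real.log (b j) := by
      intro s t
      rw [Real.log_mul (Finset.prod_ne_zero_iff.mpr (fun j _ => pow_ne_zero _ (ha' j)))
        (Finset.prod_ne_zero_iff.mpr (fun j _ => pow_ne_zero _ (hb' j))),
        Real.log_prod (fun j _ => pow_ne_zero _ (ha' j)),
        Real.log_prod (fun j _ => pow_ne_zero _ (hb' j))]
      simp only [Real.log_pow]
    have hc : ∀ j, ((c j).toNat : ℝ) - ((-(c j)).toNat : ℝ) = (c j : ℝ) := by
      intro j
      have : ((c j).toNat : ℤ) - ((-(c j)).toNat : ℤ) = c j := by omega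
      exact_mod_cast this
    have h2 : Real.log ((∏ j, (a j : ℝ) ^ (c j).toNat) * ∏ j, (b j : ℝ) ^ (-(c j)).toNat) =
        Real.log ((∏ j, (a j : ℝ) ^ (-(c j)).toNat) * ∏ j, (b j : ℝ) ^ (c j).toNat) := by
      rw [h1, h1, ← sub_eq_zero, ← h, ← Finset.sum_add_distrib, ← Finset.sum_add_distrib,
        ← Finset.sum_sub_distrib]
      apply Finset.sum_congr rfl
      intro j _
      rw [← hc j]
      ring
    have h3 := Real.log_injOn_pos (by
      show (0 : ℝ) < _
      apply mul_pos
      · exact Finset.prod_pos (fun j _ => pow_pos (by have := ha j; positivity) _)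
      · exact Finset.prod_pos (fun j _ => pow_pos (by have := hb j; positivity) _)) (by
      show (0 : ℝ) < _
      apply mul_pos
      · exact Finset.prod_pos (fun j _ => pow_pos (by have := ha j; positivity) _)
      · exact Finset.prod_pos (fun j _ => pow_pos (by have := hb j; positivity) _)) h2
    exact_mod_cast h3
  have hU : (∏ j, (ud N (a j)) ^ (c j).toNat) * ∏ j, (ud N (b j)) ^ (-(c j)).toNat =
      (∏ j, (ud N (a j)) ^ (-(c j)).toNat) * ∏ j, (ud N (b j)) ^ (c j).toNat := by
    rw [← Units.val_inj]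
    simp only [Units.val_mul, Units.coe_prod, Units.val_pow_eq_pow_val]
    have h1 : ∀ j, ((ud N (a j) : (ZMod N)ˣ) : ZMod N) = (a j : ZMod N) := fun j => ud_coe (haN j)
    have h2 : ∀ j, ((ud N (b j) : (ZMod N)ˣ) : ZMod N) = (b j : ZMod N) := fun j => ud_coe (hbN j)
    simp only [h1, h2]
    exact_mod_cast congrArg (fun m : ℕ => (m : ZMod N)) hE
  have hz : ∀ j, (ud N (a j) * (ud N (b j))⁻¹) ^ c j =
      ((ud N (a j)) ^ (c j).toNat * (ud N (b j)) ^ (-(c j)).toNat) *
      ((ud N (a j)) ^ (-(c j)).toNat * (ud N (b j)) ^ (c j).toNat)⁻¹ := by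
    intro j
    have hc : c j = ((c j).toNat : ℤ) - ((-(c j)).toNat : ℤ) := by omega
    conv_lhs => rw [hc]
    rw [mul_zpow, inv_zpow, zpow_sub, zpow_sub, zpow_natCast, zpow_natCast, zpow_natCast,
      zpow_natCast, mul_inv, mul_inv, inv_inv]
    simp only [mul_assoc, mul_comm, mul_left_comm]
  rw [Finset.prod_congr rfl (fun j _ => hz j), Finset.prod_mul_distrib, Finset.prod_inv_distrib,
    Finset.prod_mul_distrib, Finset.prod_mul_distrib, hU, mul_inv_cancel]

/-- **counting theorem, finite place** -/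
theorem count_padic_val (σ : Type) [Fintype σ] [DecidableEq σ] (w : ℕ) (hw : 1 ≤ w) :
    ∃ M0 C1 : ℕ, ∀ (ι : Type) (p h Z M Φ : ℕ) (φ : σ → ℤ) (I0 : Finset ι) (x : ι → σ → ℕ)
      (κ : (ZMod (p ^ M))ˣ), p.Prime → 1 ≤ h → (p = 2 → 2 ≤ h) →
      1 ≤ Z → Z ≤ (p ^ h) ^ w → (∑ j, |φ j| ≤ Φ) →
      M0 * Φ * p ^ (h * KK (Fintype.card σ) w) ≤ p ^ M →
      (∀ i ∈ I0, ∀ j, 1 ≤ x i j ∧ x i j ≤ Z ∧ (x i j).Coprime p) →
      (∀ i ∈ I0, ∏ j, (ud (p ^ M) (x i j)) ^ φ j = κ) →
      (∀ i ∈ I0, ∀ i' ∈ I0, ∑ j, (φ j : ℝ) * Real.log (x i j) =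
        ∑ j, (φ j : ℝ) * Real.log (x i' j) → i = i') →
      I0.card ≤ (C1 * (p ^ h) ^ Fintype.card σ) ^ Fintype.card σ := by
  classical
  obtain ⟨n, hn⟩ : ∃ n, n = Fintype.card σ := ⟨_, rfl⟩
  obtain ⟨D, hD⟩ : ∃ D, D = DD n w := ⟨_, rfl⟩
  obtain ⟨M0, hM0⟩ := exists_data σ D
  refine ⟨M0, mm n w * ((2 * D + 1) ^ n + 1), ?_⟩
  intro ι p h Z M Φ φ I0 x κ hp hh h2 hZ hZA hΦ hM hx hrel hinj
  rw [← hn] at hM ⊢
  have : Fact p.Prime := ⟨hp⟩
  have : NeZero (p ^ h) := ⟨pow_ne_zero _ hp.ne_zero⟩
  have hval0 : ∀ (φ : σ → ℤ) (i i' : ι), ∑ j, (φ j : ℝ) * (Real.log (x i j) - Real.log (x i' j)) =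
      ∑ j, (φ j : ℝ) * Real.log (x i j) - ∑ j, (φ j : ℝ) * Real.log (x i' j) := by
    intro φ i i'
    rw [← Finset.sum_sub_distrib]
    apply Finset.sum_congr rfl
    intro j _
    ring
  have hmain := coset_induction (ι := ι) (σ := σ) D M0 (mm n w) ((p ^ h) ^ n)
    (by unfold mm; omega) (Nat.pow_pos (Nat.pow_pos hp.pos)) hM0 (fun i j => Real.log (x i j)) φ I0
    (fun i (j : σ) => ((x i j : ℕ) : ZMod (p ^ h))) Finset.univ
    (by rw [Finset.card_univ, Fintype.card_fun, ZMod.card, hn]) (fun _ _ => Finset.mem_univ _)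
    (by
      intro J m φ' F hFI hm1 hmM hφJ hφ0 hφb hlab hrel' hind
      rcases F.eq_empty_or_nonempty with rfl | ⟨i0, hi0⟩
      · rw [Finset.card_empty]
        unfold mm
        omega
      have hJ : (J.filter (fun j => φ' j ≠ 0)).Nonempty := by
        by_contra hJ
        rw [Finset.not_nonempty_iff_eq_empty] at hJ
        apply hφ0
        funext j
        by_cases hj : j ∈ J
        · by_contra h0
          have : j ∈ J.filter (fun j => φ' j ≠ 0) := Finset.mem_filter.mpr ⟨hj, h0⟩
          rw [hJ] at this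
          exact absurd this (Finset.notMem_empty j)
        · exact hφJ j hj
      obtain ⟨j0, hj0', hmin⟩ := Finset.exists_min_image (J.filter (fun j => φ' j ≠ 0))
        (fun j => padicValInt p (φ' j)) hJ
      obtain ⟨hj0, hj00⟩ := Finset.mem_filter.mp hj0'
      let a0 : {j // j ∈ J} := ⟨j0, hj0⟩
      let e : Option {b : {j // j ∈ J} // b ≠ a0} ≃ {j // j ∈ J} := Equiv.optionSubtypeNe a0
      have hcardJ : Fintype.card {b : {j // j ∈ J} // b ≠ a0} + 1 = J.card := by
        rw [← Fintype.card_option, Fintype.card_congr e, Fintype.card_coe]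
      have hnone : e none = a0 := by simp [e]
      have hJn : J.card ≤ n := by rw [hn]; exact Finset.card_le_univ J
      have hJ1 : 1 ≤ J.card := by omega
      have hDJ : DD J.card w ≤ D := by rw [hD]; exact DD_mono hJ1 hJn w
      set ν := padicValInt p (φ' j0) with hν
      have hdvd : ∀ j, (p : ℤ) ^ ν ∣ φ' j := by
        intro j
        rw [padicValInt_dvd_iff]
        by_cases h0 : φ' j = 0
        · exact Or.inl h0
        · right
          apply hmin
          rw [Finset.mem_filter]
          refine ⟨?_, h0⟩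
          by_contra hj
          exact h0 (hφJ j hj)
      have hν1 : p ^ ν ≤ M0 * Φ := by
        have h3 : p ^ ν ∣ (φ' j0).natAbs := by
          rw [← Int.natCast_dvd_natCast]
          push_cast
          rw [dvd_abs]
          exact hdvd j0
        have h4 := Nat.le_of_dvd (Int.natAbs_pos.mpr hj00) h3
        have h5 : (((φ' j0).natAbs : ℕ) : ℤ) ≤ ((M0 * Φ : ℕ) : ℤ) := by
          rw [Int.natCast_natAbs]
          push_cast
          refine (hφb j0).trans ?_
          exact mul_le_mul_of_nonneg_left hΦ (Nat.cast_nonneg _)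
        exact h4.trans (by exact_mod_cast h5)
      have hνM : ν + h * KK J.card w ≤ M := by
        have h1 : p ^ (ν + h * KK J.card w) ≤ p ^ M := by
          calc p ^ (ν + h * KK J.card w) = p ^ ν * p ^ (h * KK J.card w) := pow_add _ _ _
            _ ≤ M0 * Φ * p ^ (h * KK n w) := by
                apply Nat.mul_le_mul hν1
                exact Nat.pow_le_pow_right hp.pos (Nat.mul_le_mul_left _ (KK_mono hJ1 hJn w))
            _ ≤ p ^ M := hM
        exact (Nat.pow_le_pow_iff_right hp.one_lt).mp h1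
      have hsumJ : ∀ (c : σ → ℤ) (d : σ → ℝ), (∀ j ∉ J, c j = 0) →
          ∑ j, (c (e j).1 : ℝ) * d (e j).1 = ∑ j, (c j : ℝ) * d j := by
        intro c d hc
        rw [Fintype.sum_equiv e (fun j => (c (e j).1 : ℝ) * d (e j).1)
          (fun j : {j // j ∈ J} => (c j.1 : ℝ) * d j.1) (fun _ => rfl),
          Finset.sum_coe_sort J (fun j => (c j : ℝ) * d j)]
        apply Finset.sum_subset (Finset.subset_univ J)
        intro j _ hj
        rw [hc j hj, Int.cast_zero, zero_mul]
      have hlt := key_padic2 (ι := ι) (τ := {b : {j // j ∈ J} // b ≠ a0}) J.card hcardJ.symm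
        p h Z w M ν hp hh h2 hZ hw hZA hνM (fun j => φ' (e j).1) (fun j => hdvd _)
        (by
          rw [hnone]
          rw [padicValInt_dvd_iff]
          rintro (h3 | h3)
          · exact hj00 h3
          · change padicValInt p (φ' j0) + 1 ≤ padicValInt p (φ' j0) at h3
            omega)
        F (fun i j => x i (e j).1) (fun _ j => x i0 (e j).1)
        (fun i hi j => ⟨(hx i (hFI hi) _).1, (hx i (hFI hi) _).2.1⟩)
        (fun i hi j => ⟨(hx i0 (hFI hi0) _).1, (hx i0 (hFI hi0) _).2.1⟩)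
        (fun i hi j => (hx i (hFI hi) _).2.2) (fun i hi j => (hx i0 (hFI hi0) _).2.2)
        (fun i hi j => congrFun (hlab i hi i0 hi0) (e j).1)
        (by
          intro i hi
          have h3 : ∏ j, (ud (p ^ M) (x i (e j).1) * (ud (p ^ M) (x i0 (e j).1))⁻¹) ^
              φ' (e j).1 = ∏ j, (ud (p ^ M) (x i j) * (ud (p ^ M) (x i0 j))⁻¹) ^ φ' j := by
            rw [Fintype.prod_equiv e (fun j => (ud (p ^ M) (x i (e j).1) *
              (ud (p ^ M) (x i0 (e j).1))⁻¹) ^ φ' (e j).1)
              (fun j : {j // j ∈ J} => (ud (p ^ M) (x i j.1) *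
              (ud (p ^ M) (x i0 j.1))⁻¹) ^ φ' j.1) (fun _ => rfl),
              Finset.prod_coe_sort J (fun j => (ud (p ^ M) (x i j) *
              (ud (p ^ M) (x i0 j))⁻¹) ^ φ' j)]
            apply Finset.prod_subset (Finset.subset_univ J)
            intro j _ hj
            rw [hφJ j hj, zpow_zero]
          rw [h3]
          have h4 := ud_of_log (p ^ M) (x i) (x i0) (fun j => (hx i (hFI hi) j).1)
            (fun j => (hx i0 (hFI hi0) j).1)
            (fun j => Nat.Coprime.pow_right _ (hx i (hFI hi) j).2.2)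
            (fun j => Nat.Coprime.pow_right _ (hx i0 (hFI hi0) j).2.2)
            (fun j => m * φ j - φ' j) (hrel' i hi i0 hi0)
          have h5 : ∏ j, (ud (p ^ M) (x i j) * (ud (p ^ M) (x i0 j))⁻¹) ^ φ j = 1 := by
            simp_rw [mul_zpow, inv_zpow]
            rw [Finset.prod_mul_distrib, Finset.prod_inv_distrib, hrel i (hFI hi),
              hrel i0 (hFI hi0), mul_inv_cancel]
          have h6 : ∏ j, (ud (p ^ M) (x i j) * (ud (p ^ M) (x i0 j))⁻¹) ^ φ' j =
              (∏ j, (ud (p ^ M) (x i j) * (ud (p ^ M) (x i0 j))⁻¹) ^ φ j) ^ (m : ℤ) *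
              (∏ j, (ud (p ^ M) (x i j) * (ud (p ^ M) (x i0 j))⁻¹) ^
                ((m : ℤ) * φ j - φ' j))⁻¹ := by
            rw [← Finset.prod_zpow, ← Finset.prod_inv_distrib, ← Finset.prod_mul_distrib]
            apply Finset.prod_congr rfl
            intro j _
            rw [← zpow_mul, ← zpow_neg, ← zpow_add]
            congr 1
            ring
          rw [h6, h5, h4, one_zpow, inv_one, mul_one])
        (by
          intro i hi i' hi' hne c hcD hsum
          let c' : σ → ℤ := fun j => if h : j ∈ J then c (e.symm ⟨j, h⟩) else 0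
          have hc'e : ∀ j, c' (e j).1 = c j := by
            intro j
            have h1 : (e j).1 ∈ J := (e j).2
            simp only [c', dif_pos h1]
            congr 1
            exact e.symm_apply_apply j
          have hc'J : ∀ j ∉ J, c' j = 0 := fun j hj => by simp only [c', dif_neg hj]
          have h1 := hind i' hi' i hi (Ne.symm hne) c' (by
            intro j
            by_cases hj : j ∈ J
            · simp only [c', dif_pos hj]
              exact (hcD _).trans (by exact_mod_cast hDJ)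
            · rw [hc'J j hj, abs_zero]
              exact Nat.cast_nonneg _) hc'J (by
            rw [← hsumJ c' (fun j => Real.log (x i' j) - Real.log (x i j)) hc'J, ← hsum]
            apply Finset.sum_congr rfl
            intro j _
            rw [hc'e]
            ring)
          funext j
          rw [← hc'e j, h1]
          rfl)
      exact lt_of_lt_of_le hlt (mm_mono hJ1 hJn w))
    (by
      intro i hi i' hi' h
      apply hinj i hi i' hi'
      rw [hval0] at h
      linarith)
  rw [← hn] at hmain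
  refine hmain.trans (Nat.pow_le_pow_left (le_of_eq ?_) n)
  ring

end Pool.Agent.Y913.Nb
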