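import Pool.Agent.Y913.Nb.WBdep
import Pool.Agent.Y913.KeyP
import Pool.Agent.Y913.Height

/-!
Products of powers of boundedly many integers; height bounds.
-/

set_option autoImplicit false

namespace Pool.Agent.Y913.Nb

open Finset Pool.Agent.Y913

/-- `m` is a product of powers of `n` positive integers `≤ Y` -/
def NB (n : ℕ) (Y : ℝ) (m : ℕ) : Prop :=
  ∃ x a : Fin n → ℕ, (∀ i, 0 < x i ∧ (x i : ℝ) ≤ Y) ∧ m = ∏ i, x i ^ a i

lemma NB.normal {n : ℕ} {Y : ℝ} {m : ℕ} (h : NB n Y m) (hm : 0 < m) (hY : 1 ≤ Y) :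
    ∃ x a : Fin n → ℕ, (∀ i, 1 ≤ x i ∧ (x i : ℝ) ≤ Y) ∧ m = ∏ i, x i ^ a i ∧
      (∀ i, 2 ^ a i ≤ m) ∧ ∀ i, x i ∣ m := by
  classical
  obtain ⟨x, a, hx, hm'⟩ := h
  let x' : Fin n → ℕ := fun i => if x i = 1 ∨ a i = 0 then 1 else x i
  let a' : Fin n → ℕ := fun i => if x i = 1 ∨ a i = 0 then 0 else a i
  have hxa : ∀ i, x' i ^ a' i = x i ^ a i := by
    intro i
    simp only [x', a']
    split_ifs with h
    · rcases h with h | h
      · rw [h]; simp
      · rw [h]; simp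
    · rfl
  have hm2 : m = ∏ i, x' i ^ a' i := by
    rw [hm']
    exact Finset.prod_congr rfl (fun i _ => (hxa i).symm)
  have hdvd : ∀ i, x' i ^ a' i ∣ m := fun i => by
    rw [hm2]
    exact Finset.dvd_prod_of_mem (fun i => x' i ^ a' i) (Finset.mem_univ i)
  refine ⟨x', a', ?_, hm2, ?_, ?_⟩
  · intro i
    simp only [x']
    split_ifs
    · exact ⟨le_rfl, by push_cast; exact hY⟩
    · exact ⟨(hx i).1, (hx i).2⟩
  · intro i
    by_cases h : x i = 1 ∨ a i = 0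
    · have : a' i = 0 := by simp only [a', if_pos h]
      rw [this, pow_zero]
      exact hm
    · have h1 : x' i = x i := by simp only [x', if_neg h]
      have h2 : 2 ≤ x' i := by
        rw [h1]
        rw [not_or] at h
        have := (hx i).1
        omega
      exact (Nat.pow_le_pow_left h2 _).trans (Nat.le_of_dvd hm (hdvd i))
  · intro i
    by_cases h : x i = 1 ∨ a i = 0
    · have : x' i = 1 := by simp only [x', if_pos h]
      rw [this]
      exact one_dvd _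
    · have h1 : a' i = a i := by simp only [a', if_neg h]
      refine dvd_trans (dvd_pow_self _ ?_) (hdvd i)
      rw [h1]
      rw [not_or] at h
      exact h.2

/-- representation of a pair -/
lemma exists_rep {n : ℕ} {Y : ℝ} (hY : 1 ≤ Y) {q : ℕ × ℕ} (h0 : 0 < q.1) (h1 : q.1 < q.2)
    (hu : NB n Y q.1) (hv : NB n Y q.2) :
    ∃ (X : Fin n ⊕ Fin n → ℕ) (b : Fin n ⊕ Fin n → ℤ), (∀ j, 1 ≤ X j ∧ (X j : ℝ) ≤ Y) ∧
      (∀ j, 2 ^ (b j).natAbs ≤ q.2) ∧
      (∑ j, (b j : ℝ) * Real.log (X j) = Real.log q.2 - Real.log q.1) ∧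
      ∀ N : ℕ, q.1.Coprime N → q.2.Coprime N → (∀ j, (X j).Coprime N) ∧
        ∏ j, (ud N (X j)) ^ b j = ud N q.2 * (ud N q.1)⁻¹ := by
  classical
  obtain ⟨x, a, hx, hxm, hxa, hxd⟩ := hu.normal h0 hY
  obtain ⟨y, c, hy, hym, hyc, hyd⟩ := hv.normal (h0.trans h1) hY
  have hlog : ∀ (x a : Fin n → ℕ), (∀ i, 1 ≤ x i) → Real.log ((∏ i, x i ^ a i : ℕ) : ℝ) =
      ∑ i, (a i : ℝ) * Real.log (x i) := by
    intro x a hx
    push_cast
    rw [Real.log_prod (fun i _ => pow_ne_zero _ (by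
      have := hx i
      positivity))]
    simp only [Real.log_pow]
  refine ⟨Sum.elim x y, Sum.elim (fun i => -(a i : ℤ)) (fun i => (c i : ℤ)), ?_, ?_, ?_, ?_⟩
  · rintro (i | i)
    · exact hx i
    · exact hy i
  · rintro (i | i)
    · show 2 ^ (-(a i : ℤ)).natAbs ≤ q.2
      rw [Int.natAbs_neg, Int.natAbs_natCast]
      exact (hxa i).trans h1.le
    · show 2 ^ ((c i : ℤ)).natAbs ≤ q.2
      rw [Int.natAbs_natCast]
      exact hyc i
  · rw [Fintype.sum_sum_type]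
    simp only [Sum.elim_inl, Sum.elim_inr]
    have e1 := hlog x a (fun i => (hx i).1)
    have e2 := hlog y c (fun i => (hy i).1)
    rw [← hxm] at e1
    rw [← hym] at e2
    rw [e1, e2]
    push_cast
    simp only [neg_mul]
    rw [Finset.sum_neg_distrib]
    ring
  · intro N hN1 hN2
    have hcx : ∀ i, (x i).Coprime N := fun i => Nat.Coprime.coprime_dvd_left (hxd i) hN1
    have hcy : ∀ i, (y i).Coprime N := fun i => Nat.Coprime.coprime_dvd_left (hyd i) hN2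
    refine ⟨?_, ?_⟩
    · rintro (i | i)
      · exact hcx i
      · exact hcy i
    · rw [Fintype.prod_sum_type]
      simp only [Sum.elim_inl, Sum.elim_inr]
      have hpr : ∀ (x a : Fin n → ℕ), (∀ i, (x i).Coprime N) →
          ud N (∏ i, x i ^ a i) = ∏ i, (ud N (x i)) ^ a i := by
        intro x a hx
        rw [ud_prod _ _ (fun i _ => Nat.Coprime.pow_left _ (hx i))]
        apply Finset.prod_congr rfl
        intro i _
        rw [← Units.val_inj, ud_coe (Nat.Coprime.pow_left _ (hx i)), Units.val_pow_eq_pow_val,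
          ud_coe (hx i)]
        push_cast
        rfl
      have e1 := hpr x a hcx
      have e2 := hpr y c hcy
      rw [← hxm] at e1
      rw [← hym] at e2
      rw [e1, e2, mul_comm, ← Finset.prod_inv_distrib]
      congr 1
      · apply Finset.prod_congr rfl
        intro i _
        rw [zpow_neg, zpow_natCast]

lemma WB_dep' (σ : Type) [Fintype σ] : ∃ κ g0 : ℕ, ∀ g, g0 ≤ g → ∀ (x : σ → ℕ) (b : σ → ℤ),
    (∀ j, 1 ≤ x j ∧ x j ≤ 2 ^ g) → (∀ j, |b j| ≤ 2 ^ g) →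
    ∑ j, (b j : ℝ) * Real.log (x j) ≠ 0 →
    (1 / 2 : ℝ) ^ (g ^ κ) ≤ |∑ j, (b j : ℝ) * Real.log (x j)| := by
  obtain ⟨κ, g0, h⟩ := WB_dep (Fintype.card σ)
  refine ⟨κ, g0, fun g hg x b hx hb hne => ?_⟩
  let e : Fin (Fintype.card σ) ≃ σ := (Fintype.equivFin σ).symm
  have e1 : ∑ j, ((b (e j)) : ℝ) * Real.log (x (e j)) = ∑ j, (b j : ℝ) * Real.log (x j) :=
    Fintype.sum_equiv e _ _ (fun _ => rfl)
  have := h g hg (x ∘ e) (b ∘ e) (fun j => hx _) (fun j => hb _) (by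
    simp only [Function.comp]
    rwa [e1])
  simp only [Function.comp] at this
  rwa [e1] at this

/-- **height bound, infinite place** -/
theorem arch_height2 (n : ℕ) (δ : ℝ) (hδ : 0 < δ) : ∃ C : ℝ, ∃ κ : ℕ, 0 < C ∧
    ∀ Y : ℝ, 1 ≤ Y → ∀ q : ℕ × ℕ, 0 < q.1 → q.1 < q.2 → NB n Y q.1 → NB n Y q.2 →
      ((q.2 - q.1 : ℕ) : ℝ) ≤ (q.2 : ℝ) ^ (1 - δ) →
      Real.log q.2 ≤ C * (1 + Real.log Y) ^ κ := by
  obtain ⟨κ, g0, hWB⟩ := WB_dep' (Fin n ⊕ Fin n)
  obtain ⟨c1, hc1⟩ : ∃ c1 : ℝ, c1 = (g0 : ℝ) + 8 := ⟨_, rfl⟩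
  have hc1pos : 0 < c1 := by rw [hc1]; positivity
  obtain ⟨C, hC, hsolve⟩ := solve_height κ (δ / (2 * c1 ^ κ)) (by positivity)
  refine ⟨C + 2 / δ * 2, κ, by positivity, ?_⟩
  intro Y hY q h0 h1 hu hv hnear
  obtain ⟨X, b, hX, hb, hΛ, _⟩ := exists_rep hY h0 h1 hu hv
  have hq2 : (1 : ℝ) < q.2 := by exact_mod_cast (by omega : 1 < q.2)
  have hq20 : (0 : ℝ) < q.2 := by linarith
  obtain ⟨G, hG⟩ : ∃ G : ℝ, G = Real.log q.2 := ⟨_, rfl⟩
  have hG0 : 0 < G := by rw [hG]; exact Real.log_pos hq2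
  have hlY : 0 ≤ Real.log Y := Real.log_nonneg hY
  have hTk : 1 ≤ (1 + Real.log Y) ^ κ := one_le_pow₀ (by linarith)
  rw [← hG]
  by_cases hsmall : G ≤ 2 / δ * 2
  · have : 0 ≤ C * (1 + Real.log Y) ^ κ := by positivity
    have h3 : 0 < 2 / δ * 2 := by positivity
    nlinarith
  rw [not_le] at hsmall
  have hx : Real.exp (-(δ * G)) ≤ 1 / 2 := by
    have h2 : 2 * 2 < δ * G := by
      have := mul_lt_mul_of_pos_left hsmall hδ
      have e : δ * (2 / δ * 2) = 2 * 2 := by field_simp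
      linarith
    have h3 : Real.exp (-(δ * G)) ≤ Real.exp (-1) := Real.exp_le_exp.mpr (by linarith)
    have h4 : Real.exp (-1) ≤ 1 / 2 := by
      rw [Real.exp_neg, one_div]
      apply inv_anti₀ (by norm_num)
      have := Real.add_one_le_exp (1 : ℝ)
      linarith
    linarith
  have hrp : (q.2 : ℝ) ^ (1 - δ) = Real.exp (-(δ * G)) * q.2 := by
    have : (1 - δ) = -δ + 1 := by ring
    rw [this, Real.rpow_add hq20, Real.rpow_one, Real.rpow_def_of_pos hq20, ← hG]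
    congr 2
    ring
  have hlog := log_diff h0 h1 hx (by
    rw [← hrp]
    rwa [Nat.cast_sub h1.le] at hnear)
  obtain ⟨g1, hg1, hg1'⟩ := log_two_mul_clog Y hY
  obtain ⟨g2, hg2, hg2'⟩ := log_two_mul_clog (1 + G) (by linarith)
  obtain ⟨g, hg⟩ : ∃ g, g = g0 + g1 + g2 + 2 := ⟨_, rfl⟩
  have h2g : ∀ a : ℕ, a ≤ g → (2 : ℝ) ^ a ≤ 2 ^ g := fun a ha =>
    pow_le_pow_right₀ (by norm_num) ha
  have hmain := hWB g (by omega) X b
    (by
      intro j
      refine ⟨(hX j).1, ?_⟩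
      have h3 := (hX j).2.trans (hg1.trans (h2g g1 (by omega)))
      exact_mod_cast h3)
    (by
      intro j
      have h3 : ((b j).natAbs : ℝ) * Real.log 2 ≤ G := by
        rw [hG, ← Real.log_pow]
        apply Real.log_le_log (by positivity)
        exact_mod_cast hb j
      have hl2 : 0.6931471803 < Real.log 2 := Real.log_two_gt_d9
      have h4 : ((b j).natAbs : ℝ) ≤ 2 ^ g := by
        calc ((b j).natAbs : ℝ) ≤ 2 * (1 + G) := by
              have : (0 : ℝ) ≤ ((b j).natAbs : ℝ) := Nat.cast_nonneg _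
              nlinarith
          _ ≤ 2 ^ 1 * 2 ^ g2 := by rw [pow_one]; linarith
          _ = 2 ^ (1 + g2) := by rw [← pow_add]
          _ ≤ 2 ^ g := h2g _ (by omega)
      have h5 : (b j).natAbs ≤ 2 ^ g := by exact_mod_cast h4
      rw [← Int.natCast_natAbs]
      exact_mod_cast h5)
    (by
      rw [hΛ]
      have h3 : Real.log q.1 < Real.log q.2 :=
        Real.log_lt_log (by exact_mod_cast h0) (by exact_mod_cast h1)
      linarith)
  rw [hΛ] at hmain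
  have h3 : (1 / 2 : ℝ) ^ (g ^ κ) ≤ 2 * Real.exp (-(δ * G)) := hmain.trans hlog
  have h4 : δ * G ≤ (g : ℝ) ^ κ + 1 := by
    have h5 := Real.log_le_log (by positivity) h3
    rw [Real.log_pow, Real.log_mul (by norm_num) (Real.exp_pos _).ne', Real.log_exp,
      one_div, Real.log_inv] at h5
    push_cast at h5
    have hl2 : Real.log 2 ≤ 1 := by
      have := Real.log_two_lt_d9
      linarith
    have hl2' : 0 ≤ Real.log 2 := Real.log_nonneg (by norm_num)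
    have h6 : (0 : ℝ) ≤ (g : ℝ) ^ κ := by positivity
    nlinarith
  have h5 : δ / 2 * G ≤ (g : ℝ) ^ κ := by
    have h6 : 1 ≤ δ / 2 * G := by
      have := mul_lt_mul_of_pos_left hsmall (by positivity : 0 < δ / 2)
      have e : δ / 2 * (2 / δ * 2) = 2 := by field_simp
      linarith
    linarith
  have h6 : (g : ℝ) ≤ c1 * ((1 + Real.log Y) + Real.log (1 + G)) := by
    have hlG : 0 ≤ Real.log (1 + G) := Real.log_nonneg (by linarith)
    rw [hg, hc1]
    push_cast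
    have hg0 : (0 : ℝ) ≤ g0 := Nat.cast_nonneg _
    nlinarith [mul_nonneg hg0 hlY, mul_nonneg hg0 hlG]
  have h7 : δ / (2 * c1 ^ κ) * G ≤ ((1 + Real.log Y) + Real.log (1 + G)) ^ κ := by
    have h8 : (g : ℝ) ^ κ ≤ c1 ^ κ * ((1 + Real.log Y) + Real.log (1 + G)) ^ κ := by
      rw [← mul_pow]
      exact pow_le_pow_left₀ (Nat.cast_nonneg _) h6 _
    have h9 : δ / (2 * c1 ^ κ) * G = (δ / 2 * G) / c1 ^ κ := by
      field_simp
    rw [h9, div_le_iff₀ (by positivity)]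
    linarith
  have h8 := hsolve (1 + Real.log Y) G (by linarith) hG0.le h7
  have h9 : 0 ≤ 2 / δ * 2 * (1 + Real.log Y) ^ κ := by positivity
  linarith

/-- coprimality to a modulus dividing `v ± u` -/
lemma coprime_of_dvd {p k : ℕ} (hp : p.Prime) (hk : k ≠ 0) {s : ℤ} (hs2 : s * s = 1) {q : ℕ × ℕ}
    (hcop : Nat.Coprime q.1 q.2) (hdvd : ((p ^ k : ℕ) : ℤ) ∣ (q.2 : ℤ) - s * q.1) :
    q.1.Coprime p ∧ q.2.Coprime p := by
  have hpd : (p : ℤ) ∣ (q.2 : ℤ) - s * q.1 := by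
    refine dvd_trans ?_ hdvd
    push_cast
    exact dvd_pow_self _ hk
  have hp1 : ¬ p ∣ q.1 := by
    intro h
    have h2 : (p : ℤ) ∣ (q.2 : ℤ) := by
      have h3 : (p : ℤ) ∣ s * q.1 := Dvd.dvd.mul_left (Int.natCast_dvd_natCast.mpr h) s
      have := dvd_add hpd h3
      rwa [sub_add_cancel] at this
    have h3 : p ∣ q.2 := Int.natCast_dvd_natCast.mp h2
    have := Nat.dvd_gcd h h3
    rw [hcop] at this
    exact hp.one_lt.ne' (Nat.dvd_one.mp this)
  have hp2 : ¬ p ∣ q.2 := by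
    intro h
    have h2 : (p : ℤ) ∣ s * q.1 := by
      have := dvd_sub (Int.natCast_dvd_natCast.mpr h : (p : ℤ) ∣ (q.2 : ℤ)) hpd
      rwa [sub_sub_cancel] at this
    have h3 : (p : ℤ) ∣ (q.1 : ℤ) := by
      have h4 := Dvd.dvd.mul_left h2 s
      rwa [← mul_assoc, hs2, one_mul] at h4
    exact hp1 (Int.natCast_dvd_natCast.mp h3)
  exact ⟨Nat.coprime_comm.mp ((hp.coprime_iff_not_dvd).mpr hp1),
    Nat.coprime_comm.mp ((hp.coprime_iff_not_dvd).mpr hp2)⟩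

/-- the doubled relation modulo a power of `p` -/
lemma doubled_rel {n p M k : ℕ} (hMk : M ≤ k) {s : ℤ} (hs2 : s * s = 1) {q : ℕ × ℕ}
    (hc1 : q.1.Coprime p) (hc2 : q.2.Coprime p)
    (hdvd : ((p ^ k : ℕ) : ℤ) ∣ (q.2 : ℤ) - s * q.1) (X : Fin n ⊕ Fin n → ℕ)
    (b : Fin n ⊕ Fin n → ℤ)
    (hrep : ∀ N : ℕ, q.1.Coprime N → q.2.Coprime N → (∀ j, (X j).Coprime N) ∧
        ∏ j, (ud N (X j)) ^ b j = ud N q.2 * (ud N q.1)⁻¹) :
    ∏ j, (ud (p ^ M) (X j)) ^ (2 * b j) = 1 := by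
  have hd1 : q.1.Coprime (p ^ M) := Nat.Coprime.pow_right _ hc1
  have hd2 : q.2.Coprime (p ^ M) := Nat.Coprime.pow_right _ hc2
  obtain ⟨_, h2⟩ := hrep (p ^ M) hd1 hd2
  have h3 : ∏ j, (ud (p ^ M) (X j)) ^ (2 * b j) = (∏ j, (ud (p ^ M) (X j)) ^ (b j)) ^ 2 := by
    rw [← Finset.prod_pow]
    apply Finset.prod_congr rfl
    intro j _
    rw [mul_comm, zpow_mul, zpow_ofNat]
  rw [h3, h2, mul_pow, inv_pow, mul_inv_eq_one, ← Units.val_inj,
    Units.val_pow_eq_pow_val, Units.val_pow_eq_pow_val, ud_coe hd1, ud_coe hd2]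
  have h4 : ((q.2 : ℤ) : ZMod (p ^ M)) = ((s * q.1 : ℤ) : ZMod (p ^ M)) := by
    rw [← sub_eq_zero, ← Int.cast_sub, ZMod.intCast_zmod_eq_zero_iff_dvd]
    refine dvd_trans ?_ hdvd
    push_cast
    exact pow_dvd_pow _ hMk
  push_cast at h4
  rw [h4, mul_pow]
  have h5 : ((s : ZMod (p ^ M)) ^ 2) = 1 := by
    rw [pow_two]
    exact_mod_cast congrArg (fun z : ℤ => (z : ZMod (p ^ M))) hs2
  rw [h5, one_mul]

/-- **height bound, finite place** -/
theorem padic_height2 (n : ℕ) (δ : ℝ) (hδ : 0 < δ) : ∃ C : ℝ, ∃ κ : ℕ, 0 < C ∧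
    ∀ Y : ℝ, 1 ≤ Y → ∀ p k : ℕ, p.Prime → ∀ s : ℤ, (s = 1 ∨ s = -1) →
      ∀ q : ℕ × ℕ, 0 < q.1 → q.1 < q.2 → Nat.Coprime q.1 q.2 → NB n Y q.1 → NB n Y q.2 →
      ((p ^ k : ℕ) : ℤ) ∣ (q.2 : ℤ) - s * q.1 →
      (q.2 : ℝ) ^ δ ≤ (p : ℝ) ^ k → Real.log q.2 ≤ C * (p + (1 + Real.log Y)) ^ κ := by
  obtain ⟨C0, κ0, hWB⟩ := Pool.Agent.TH888.W2.weakBaker_all (n + n)
  obtain ⟨B, hB⟩ : ∃ B : ℝ, B = ((C0 : ℝ) + 1) * 8 ^ (κ0 + 1) := ⟨_, rfl⟩
  have hBpos : 0 < B := by rw [hB]; positivity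
  obtain ⟨C, hC, hsolve⟩ := solve_height (κ0 + 1) (δ / B) (by positivity)
  refine ⟨C, κ0 + 1, hC, ?_⟩
  intro Y hY p k hp s hs q h0 h1 hcop hu hv hdvd hpk
  obtain ⟨X, b, hX, hb, hΛ, hrep⟩ := exists_rep hY h0 h1 hu hv
  have hq2 : (1 : ℝ) < q.2 := by exact_mod_cast (by omega : 1 < q.2)
  have hq20 : (0 : ℝ) < q.2 := by linarith
  obtain ⟨G, hG⟩ : ∃ G : ℝ, G = Real.log q.2 := ⟨_, rfl⟩
  have hG0 : 0 < G := by rw [hG]; exact Real.log_pos hq2
  have hlY : 0 ≤ Real.log Y := Real.log_nonneg hY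
  rw [← hG]
  have hk : k ≠ 0 := by
    rintro rfl
    rw [pow_zero] at hpk
    have := Real.one_lt_rpow hq2 hδ
    linarith
  have : Fact p.Prime := ⟨hp⟩
  have hs2 : s * s = 1 := by rcases hs with rfl | rfl <;> norm_num
  obtain ⟨hc1, hc2⟩ := coprime_of_dvd hp hk hs2 hcop hdvd
  have hdbl := doubled_rel (le_refl k) hs2 hc1 hc2 hdvd X b hrep
  have hcX := (hrep (p ^ k) (Nat.Coprime.pow_right _ hc1) (Nat.Coprime.pow_right _ hc2)).1
  let e : Fin (n + n) ≃ Fin n ⊕ Fin n := finSumFinEquiv.symm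
  obtain ⟨g1, hg1, hg1'⟩ := log_two_mul_clog Y hY
  obtain ⟨g2, hg2, hg2'⟩ := log_two_mul_clog (1 + G) (by linarith)
  obtain ⟨S, hS⟩ : ∃ S, S = p + g1 + g2 + 3 := ⟨_, rfl⟩
  have h2g : ∀ a : ℕ, a ≤ S → (2 : ℝ) ^ a ≤ 2 ^ S := fun a ha =>
    pow_le_pow_right₀ (by norm_num) ha
  have hkS := hWB p S (by omega) (fun j => X (e j)) (fun j => 2 * b (e j)) k
    (fun j => ud (p ^ k) (X (e j))) (fun j => ud_coe (hcX _)) (fun j => (hX _).1)
    (by
      intro j
      have h3 := (hX (e j)).2.trans (hg1.trans (h2g g1 (by omega)))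
      exact_mod_cast h3)
    (by
      intro j
      have h3 : ((b (e j)).natAbs : ℝ) * Real.log 2 ≤ G := by
        rw [hG, ← Real.log_pow]
        apply Real.log_le_log (by positivity)
        exact_mod_cast hb (e j)
      have hl2 : 0.6931471803 < Real.log 2 := Real.log_two_gt_d9
      have h4 : (2 * (b (e j)).natAbs : ℝ) ≤ 2 ^ S := by
        calc (2 * (b (e j)).natAbs : ℝ) ≤ 2 * (2 * (1 + G)) := by
              have : (0 : ℝ) ≤ ((b (e j)).natAbs : ℝ) := Nat.cast_nonneg _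
              nlinarith
          _ ≤ 2 ^ 2 * 2 ^ g2 := by linarith
          _ = 2 ^ (2 + g2) := by rw [← pow_add]
          _ ≤ 2 ^ S := h2g _ (by omega)
      have h5 : 2 * (b (e j)).natAbs ≤ 2 ^ S := by exact_mod_cast h4
      rw [abs_mul, ← Int.natCast_natAbs (b (e j))]
      have : |(2 : ℤ)| = 2 := rfl
      rw [this]
      exact_mod_cast h5)
    (by
      intro h
      have h3 := congrArg (fun z : ℚ => Real.log (z : ℝ)) h
      rw [Rat.cast_one, Real.log_one] at h3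
      push_cast at h3
      rw [Real.log_prod (fun j _ => zpow_ne_zero _ (by
        have := (hX (e j)).1
        positivity))] at h3
      have h4 : ∑ j, Real.log ((X (e j) : ℝ) ^ (2 * b (e j))) =
          2 * ∑ j, (b j : ℝ) * Real.log (X j) := by
        rw [Finset.mul_sum]
        rw [← Fintype.sum_equiv e (fun j => 2 * ((b (e j) : ℝ) * Real.log (X (e j))))
          (fun j => 2 * ((b j : ℝ) * Real.log (X j))) (fun _ => rfl)]
        apply Finset.sum_congr rfl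
        intro j _
        rw [Real.log_zpow]
        push_cast
        ring
      rw [h4, hΛ] at h3
      have h5 : Real.log q.1 < Real.log q.2 :=
        Real.log_lt_log (by exact_mod_cast h0) (by exact_mod_cast h1)
      linarith)
    (by
      rw [← hdbl]
      exact Fintype.prod_equiv e _ _ (fun _ => rfl))
  have hS1 : (p : ℝ) ≤ S := by exact_mod_cast (by omega : p ≤ S)
  have hp0 : (1 : ℝ) ≤ p := by exact_mod_cast hp.one_lt.le
  have h4 : δ * G ≤ ((C0 : ℝ) + 1) * (S : ℝ) ^ (κ0 + 1) := by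
    have h5 := Real.log_le_log (by positivity) hpk
    rw [Real.log_rpow hq20, Real.log_pow, ← hG] at h5
    have h6 : Real.log p ≤ S := by
      have := Real.log_le_sub_one_of_pos (by linarith : (0 : ℝ) < p)
      linarith
    have h7 : (k : ℝ) ≤ C0 * (S : ℝ) ^ κ0 := by exact_mod_cast hkS
    have h8 : 0 ≤ Real.log p := Real.log_nonneg hp0
    have h9 : (0 : ℝ) ≤ (S : ℝ) := by linarith
    calc δ * G ≤ k * Real.log p := h5
      _ ≤ (C0 * (S : ℝ) ^ κ0) * S := mul_le_mul h7 h6 h8 (by positivity)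
      _ = C0 * (S : ℝ) ^ (κ0 + 1) := by rw [pow_succ]; ring
      _ ≤ _ := by
          have : 0 ≤ (S : ℝ) ^ (κ0 + 1) := by positivity
          linarith
  have hlG : 0 ≤ Real.log (1 + G) := Real.log_nonneg (by linarith)
  have h6 : (S : ℝ) ≤ 8 * ((p + (1 + Real.log Y)) + Real.log (1 + G)) := by
    rw [hS]
    push_cast
    linarith
  have h7 : δ / B * G ≤ ((p + (1 + Real.log Y)) + Real.log (1 + G)) ^ (κ0 + 1) := by
    have h8 : (S : ℝ) ^ (κ0 + 1) ≤
        8 ^ (κ0 + 1) * ((p + (1 + Real.log Y)) + Real.log (1 + G)) ^ (κ0 + 1) := by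
      rw [← mul_pow]
      exact pow_le_pow_left₀ (Nat.cast_nonneg _) h6 _
    have h9 : δ / B * G = (δ * G) / B := by ring
    rw [h9, div_le_iff₀ hBpos, hB]
    have h10 : (0 : ℝ) ≤ (C0 : ℝ) + 1 := by positivity
    calc δ * G ≤ ((C0 : ℝ) + 1) * (S : ℝ) ^ (κ0 + 1) := h4
      _ ≤ ((C0 : ℝ) + 1) * (8 ^ (κ0 + 1) *
          ((p + (1 + Real.log Y)) + Real.log (1 + G)) ^ (κ0 + 1)) := by gcongr
      _ = _ := by ring
  exact hsolve (p + (1 + Real.log Y)) G (by linarith) hG0.le h7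

end Pool.Agent.Y913.Nb
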