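import Pool.Agent.Y913.Nb.CountA
import Pool.Agent.Y913.Nb.CountP
import Pool.Agent.Y913.Nb.Rep

/-!
Pairs of products of powers of few integers which are close at the infinite place or at a small
prime, all heights.
-/

set_option autoImplicit false

namespace Pool.Agent.Y913.Nb

open Finset Pool.Agent.Y913

lemma eq_of_log_ratio {q q' : ℕ × ℕ} (h1 : 0 < q.1) (h2 : 0 < q.2) (hc : Nat.Coprime q.1 q.2)
    (h1' : 0 < q'.1) (h2' : 0 < q'.2) (hc' : Nat.Coprime q'.1 q'.2)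
    (h : Real.log q.2 - Real.log q.1 = Real.log q'.2 - Real.log q'.1) : q = q' := by
  have a1 : (0 : ℝ) < q.1 := by exact_mod_cast h1
  have a2 : (0 : ℝ) < q.2 := by exact_mod_cast h2
  have a1' : (0 : ℝ) < q'.1 := by exact_mod_cast h1'
  have a2' : (0 : ℝ) < q'.2 := by exact_mod_cast h2'
  have h3 : Real.log ((q.2 : ℝ) * q'.1) = Real.log ((q'.2 : ℝ) * q.1) := by
    rw [Real.log_mul a2.ne' a1'.ne', Real.log_mul a2'.ne' a1.ne']
    linarith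
  have h4 := Real.log_injOn_pos (by show (0 : ℝ) < _; positivity)
    (by show (0 : ℝ) < _; positivity) h3
  have h5 : q.2 * q'.1 = q'.2 * q.1 := by exact_mod_cast h4
  have e1 : q.1 ∣ q'.1 := by
    have : q.1 ∣ q.2 * q'.1 := by rw [h5]; exact Dvd.intro_left _ rfl
    exact hc.dvd_of_dvd_mul_left this
  have e2 : q'.1 ∣ q.1 := by
    have : q'.1 ∣ q'.2 * q.1 := by rw [← h5]; exact Dvd.intro_left _ rfl
    exact hc'.dvd_of_dvd_mul_left this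
  have e3 : q.1 = q'.1 := Nat.dvd_antisymm e1 e2
  have e4 : q.2 = q'.2 := by
    rw [← e3] at h5
    exact Nat.eq_of_mul_eq_mul_right h1 h5
  exact Prod.ext e3 e4

lemma nb_lt_two {n : ℕ} {Y : ℝ} (hY : Y < 2) {m : ℕ} (h : NB n Y m) : m = 1 := by
  obtain ⟨x, a, hx, hm⟩ := h
  have h1 : ∀ i, x i = 1 := by
    intro i
    have h2 : ((x i : ℕ) : ℝ) < 2 := (hx i).2.trans_lt hY
    have h3 : x i < 2 := by exact_mod_cast h2
    have := (hx i).1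
    omega
  rw [hm]
  apply Finset.prod_eq_one
  intro i _
  rw [h1 i, one_pow]

/-- the exponents of a representation are in a box -/
lemma mem_box_of_height {σ : Type} [Fintype σ] [DecidableEq σ] {b : σ → ℤ} {v : ℕ} (hv : 0 < v)
    (hb : ∀ j, 2 ^ (b j).natAbs ≤ v) {H : ℝ} (hH : Real.log v ≤ H) :
    b ∈ boxI σ ⌊H / Real.log 2⌋₊ := by
  rw [mem_boxI]
  intro j
  have hl2 : 0 < Real.log 2 := Real.log_pos (by norm_num)
  have h3 : ((b j).natAbs : ℝ) * Real.log 2 ≤ H := by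
    rw [← Real.log_pow]
    refine le_trans (Real.log_le_log (by positivity) ?_) hH
    exact_mod_cast hb j
  have h4 : (b j).natAbs ≤ ⌊H / Real.log 2⌋₊ := by
    apply Nat.le_floor
    rwa [le_div_iff₀ hl2]
  rw [← Int.natCast_natAbs]
  exact_mod_cast h4

/-- close at the infinite place, not necessarily coprime -/
def Near3 (n : ℕ) (δ K Y : ℝ) (q : ℕ × ℕ) : Prop :=
  0 < q.1 ∧ q.1 < q.2 ∧ NB n Y q.1 ∧ NB n Y q.2 ∧
    Y ^ K ≤ (q.2 : ℝ) ∧ ((q.2 - q.1 : ℕ) : ℝ) ≤ (q.2 : ℝ) ^ (1 - δ)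

/-- **few ratios are close to one at the infinite place** -/
theorem near_all3 (n : ℕ) (δ ε : ℝ) (hδ : 0 < δ) (hε : 0 < ε) : ∃ K C : ℝ, 0 < K ∧ 0 < C ∧
    ∀ Y : ℝ, 1 ≤ Y → ∀ Q : Finset (ℕ × ℕ), (∀ q ∈ Q, Near3 n δ K Y q) →
      (∀ q ∈ Q, ∀ q' ∈ Q, Real.log q.2 - Real.log q.1 = Real.log q'.2 - Real.log q'.1 → q = q') →
      (Q.card : ℝ) ≤ C * Y ^ ε := by
  classical
  obtain ⟨N, hN⟩ : ∃ N, N = Fintype.card (Fin n ⊕ Fin n) := ⟨_, rfl⟩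
  obtain ⟨w, hw⟩ : ∃ w : ℕ, w = ⌈4 * (N : ℝ) ^ 2 / ε⌉₊ + 1 := ⟨_, rfl⟩
  have hw1 : 1 ≤ w := by omega
  have hwr : (0 : ℝ) < w := by exact_mod_cast hw1
  have hwε : 2 * (N : ℝ) ^ 2 / w ≤ ε / 2 := by
    have h1 : 4 * (N : ℝ) ^ 2 / ε ≤ w := by
      rw [hw]
      push_cast
      have := Nat.le_ceil (4 * (N : ℝ) ^ 2 / ε)
      linarith
    rw [div_le_iff₀ hε] at h1
    rw [div_le_div_iff₀ hwr (by norm_num)]
    linarith
  obtain ⟨M0, C1, hcount⟩ := count_arch_val (Fin n ⊕ Fin n) w hw1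
  rw [← hN] at hcount
  obtain ⟨Ch, κ, hCh, hh⟩ := arch_height2 n δ hδ
  obtain ⟨D, hD, hlog⟩ := log_pow_le_rpow (κ * N) (ε / 2) (by positivity)
  obtain ⟨kk, hkk⟩ : ∃ kk, kk = KK N w := ⟨_, rfl⟩
  obtain ⟨B, hB⟩ : ∃ B : ℝ, B = 2 * ((M0 : ℝ) + 1) * 3 ^ kk := ⟨_, rfl⟩
  have hB2 : 2 ≤ B := by
    rw [hB]
    have h1 : (1 : ℝ) ≤ 3 ^ kk := one_le_pow₀ (by norm_num)
    have h2 : (0 : ℝ) ≤ M0 := Nat.cast_nonneg _
    nlinarith
  have hl2 : 0 < Real.log 2 := Real.log_pos (by norm_num)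
  have hlB : 0 ≤ Real.log B := Real.log_nonneg (by linarith)
  obtain ⟨K, hKdef⟩ : ∃ K : ℝ, K = (kk + Real.log B / Real.log 2) / δ := ⟨_, rfl⟩
  have hKδ : K * δ = kk + Real.log B / Real.log 2 := by
    rw [hKdef]
    field_simp
  have hlBpos : 0 < Real.log B := Real.log_pos (by linarith)
  have hK : 0 < K := by rw [hKdef]; positivity
  refine ⟨K, ((C1 : ℝ) + 1) ^ N * 3 ^ (2 * N * N) * ((4 * (Ch + 1)) ^ N * D), hK, by positivity, ?_⟩
  intro Y hY Q hQ hinj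
  have hY0 : 0 < Y := by linarith
  rcases lt_or_ge Y 2 with hY2 | hY2
  · have hQe : Q = ∅ := by
      rw [Finset.eq_empty_iff_forall_notMem]
      intro q hq
      obtain ⟨h1, h2, h4, h5, h6, h7⟩ := hQ q hq
      have := nb_lt_two hY2 h5
      omega
    rw [hQe, Finset.card_empty]
    push_cast
    positivity
  -- the scale
  obtain ⟨A, hA⟩ : ∃ A : ℕ, A = ⌈Y ^ (1 / (w : ℝ))⌉₊ + 1 := ⟨_, rfl⟩
  have hYw1 : 1 ≤ Y ^ (1 / (w : ℝ)) := Real.one_le_rpow hY (by positivity)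
  have hAlow : Y ^ (1 / (w : ℝ)) ≤ A := by
    rw [hA]
    push_cast
    have := Nat.le_ceil (Y ^ (1 / (w : ℝ)))
    linarith
  have hAup : (A : ℝ) ≤ 3 * Y ^ (1 / (w : ℝ)) := by
    rw [hA]
    push_cast
    have := Nat.ceil_lt_add_one (by positivity : 0 ≤ Y ^ (1 / (w : ℝ)))
    linarith
  have hA2 : 2 ≤ A := by
    have h1 : (1 : ℝ) ≤ ⌈Y ^ (1 / (w : ℝ))⌉₊ := hYw1.trans (Nat.le_ceil _)
    have h2 : 1 ≤ ⌈Y ^ (1 / (w : ℝ))⌉₊ := by exact_mod_cast h1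
    omega
  obtain ⟨Z, hZ⟩ : ∃ Z : ℕ, Z = ⌊Y⌋₊ := ⟨_, rfl⟩
  have hZ1 : 1 ≤ Z := by rw [hZ]; exact Nat.le_floor (by push_cast; linarith)
  have hZY : (Z : ℝ) ≤ Y := by rw [hZ]; exact Nat.floor_le hY0.le
  have hZA : Z ≤ A ^ w := by
    have h1 : Y ≤ (A : ℝ) ^ w := by
      calc Y = (Y ^ (1 / (w : ℝ))) ^ w := by
            rw [← Real.rpow_natCast, ← Real.rpow_mul hY0.le]
            rw [one_div, inv_mul_cancel₀ hwr.ne', Real.rpow_one]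
        _ ≤ (A : ℝ) ^ w := pow_le_pow_left₀ (by positivity) hAlow _
    have h2 : (Z : ℝ) ≤ (A : ℝ) ^ w := hZY.trans h1
    exact_mod_cast h2
  obtain ⟨x0, hx0⟩ : ∃ x0 : ℝ, x0 = Y ^ (-(K * δ)) := ⟨_, rfl⟩
  have hx0pos : 0 < x0 := by rw [hx0]; positivity
  have hBY : B ≤ Y ^ (Real.log B / Real.log 2) := by
    calc B = Real.exp (Real.log B) := (Real.exp_log (by linarith)).symm
      _ = (2 : ℝ) ^ (Real.log B / Real.log 2) := by
          rw [Real.rpow_def_of_pos (by norm_num)]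
          congr 1
          field_simp
      _ ≤ Y ^ (Real.log B / Real.log 2) :=
          Real.rpow_le_rpow (by norm_num) hY2 (by positivity)
  have hx0B : x0 * (B * Y ^ kk) ≤ 1 := by
    calc x0 * (B * Y ^ kk) ≤ x0 * (Y ^ (Real.log B / Real.log 2) * Y ^ kk) := by gcongr
      _ = 1 := by
          rw [hx0, hKδ, ← Real.rpow_natCast, ← Real.rpow_add hY0, ← Real.rpow_add hY0]
          rw [show -(↑kk + Real.log B / Real.log 2) + (Real.log B / Real.log 2 + (kk : ℝ)) = 0 by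
            ring, Real.rpow_zero]
  have hYkk : 1 ≤ Y ^ kk := one_le_pow₀ hY
  have hx02 : x0 ≤ 1 / 2 := by
    have h1 : x0 * 2 ≤ x0 * (B * Y ^ kk) := by
      apply mul_le_mul_of_nonneg_left _ hx0pos.le
      nlinarith
    linarith
  have hη : (M0 : ℝ) * (2 * x0) * (A : ℝ) ^ kk ≤ 1 := by
    have h1 : (A : ℝ) ^ kk ≤ 3 ^ kk * Y ^ kk := by
      rw [← mul_pow]
      apply pow_le_pow_left₀ (Nat.cast_nonneg _)
      refine hAup.trans ?_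
      have h2 : Y ^ (1 / (w : ℝ)) ≤ Y := by
        calc Y ^ (1 / (w : ℝ)) ≤ Y ^ (1 : ℝ) := by
              apply Real.rpow_le_rpow_of_exponent_le hY
              rw [div_le_one hwr]
              exact_mod_cast hw1
          _ = Y := Real.rpow_one Y
      linarith
    calc (M0 : ℝ) * (2 * x0) * (A : ℝ) ^ kk ≤ ((M0 : ℝ) + 1) * (2 * x0) * (3 ^ kk * Y ^ kk) := by
          gcongr
          linarith
      _ = x0 * (B * Y ^ kk) := by rw [hB]; ring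
      _ ≤ 1 := hx0B
  -- representations
  have hex : ∀ q : ℕ × ℕ, ∃ (X : Fin n ⊕ Fin n → ℕ) (b : Fin n ⊕ Fin n → ℤ), q ∈ Q →
      (∀ j, 1 ≤ X j ∧ (X j : ℝ) ≤ Y) ∧ (∀ j, 2 ^ (b j).natAbs ≤ q.2) ∧
      (∑ j, (b j : ℝ) * Real.log (X j) = Real.log q.2 - Real.log q.1) := by
    intro q
    by_cases hq : q ∈ Q
    · obtain ⟨h1, h2, h4, h5, h6, h7⟩ := hQ q hq
      obtain ⟨X, b, e1, e2, e3, _⟩ := exists_rep hY h1 h2 h4 h5
      exact ⟨X, b, fun _ => ⟨e1, e2, e3⟩⟩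
    · exact ⟨fun _ => 0, fun _ => 0, fun h => absurd h hq⟩
  choose X b hXb using hex
  obtain ⟨H, hH⟩ : ∃ H : ℝ, H = (Ch + 1) * (1 + Real.log Y) ^ κ := ⟨_, rfl⟩
  have hlY : 0 ≤ Real.log Y := Real.log_nonneg hY
  have hTk : 1 ≤ (1 + Real.log Y) ^ κ := one_le_pow₀ (by linarith)
  have hH1 : 1 ≤ H := by rw [hH]; nlinarith
  have hheight : ∀ q ∈ Q, Real.log q.2 ≤ H := by
    intro q hq
    obtain ⟨h1, h2, h4, h5, h6, h7⟩ := hQ q hq
    have h8 := hh Y hY q h1 h2 h4 h5 h7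
    rw [hH]
    linarith
  have hfibers := Finset.card_le_mul_card_image_of_maps_to (s := Q)
    (t := boxI (Fin n ⊕ Fin n) ⌊H / Real.log 2⌋₊) (f := b) (fun q hq => by
      obtain ⟨h1, h2, _⟩ := hQ q hq
      exact mem_box_of_height (h1.trans h2) (hXb q hq).2.1 (hheight q hq))
    ((C1 * A ^ (2 * N)) ^ N) (by
      intro b0 _
      apply hcount (ℕ × ℕ) A Z (2 * x0) b0 (Q.filter (fun q => b q = b0)) X 0 hA2 hZ1 hZA
        (by positivity) (by rw [← hkk]; exact hη)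
      · intro q hq j
        have h1 := (hXb q (Finset.mem_filter.mp hq).1).1 j
        exact ⟨h1.1, by rw [hZ]; exact Nat.le_floor h1.2⟩
      · intro q hq
        obtain ⟨hqQ, hqb⟩ := Finset.mem_filter.mp hq
        obtain ⟨h1, h2, h4, h5, h6, h7⟩ := hQ q hqQ
        rw [← hqb, (hXb q hqQ).2.2, sub_zero]
        apply log_diff h1 h2 hx02
        have hq2 : (0 : ℝ) < q.2 := by exact_mod_cast h1.trans h2
        rw [Nat.cast_sub h2.le] at h7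
        refine h7.trans ?_
        have h8 : (q.2 : ℝ) ^ (1 - δ) = (q.2 : ℝ) ^ (-δ) * q.2 := by
          rw [show (1 - δ) = -δ + 1 by ring, Real.rpow_add hq2, Real.rpow_one]
        rw [h8]
        apply mul_le_mul_of_nonneg_right _ hq2.le
        calc (q.2 : ℝ) ^ (-δ) ≤ (Y ^ K) ^ (-δ) :=
              Real.rpow_le_rpow_of_nonpos (by positivity) h6 (by linarith)
          _ = x0 := by
              rw [hx0, ← Real.rpow_mul hY0.le]
              congr 1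
              ring
      · intro q hq q' hq' heq
        obtain ⟨hqQ, hqb⟩ := Finset.mem_filter.mp hq
        obtain ⟨hqQ', hqb'⟩ := Finset.mem_filter.mp hq'
        apply hinj q hqQ q' hqQ'
        rw [← (hXb q hqQ).2.2, ← (hXb q' hqQ').2.2, hqb, hqb']
        exact heq)
  rw [card_boxI, ← hN] at hfibers
  have hE4 : ((2 * ⌊H / Real.log 2⌋₊ + 1 : ℕ) : ℝ) ≤ 4 * H := two_E_le hH1
  have hQr : (Q.card : ℝ) ≤ ((C1 * A ^ (2 * N)) ^ N : ℕ) *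
      ((2 * ⌊H / Real.log 2⌋₊ + 1) ^ N : ℕ) := by exact_mod_cast hfibers
  refine hQr.trans ?_
  have e1 : (((C1 * A ^ (2 * N)) ^ N : ℕ) : ℝ) ≤
      ((C1 : ℝ) + 1) ^ N * 3 ^ (2 * N * N) * Y ^ (ε / 2) := by
    push_cast
    calc ((C1 : ℝ) * (A : ℝ) ^ (2 * N)) ^ N
        ≤ (((C1 : ℝ) + 1) * (3 * Y ^ (1 / (w : ℝ))) ^ (2 * N)) ^ N := by
          gcongr
          linarith
      _ = ((C1 : ℝ) + 1) ^ N * 3 ^ (2 * N * N) * (Y ^ (1 / (w : ℝ))) ^ (2 * N * N) := by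
          rw [mul_pow, mul_pow 3, mul_pow, ← pow_mul, ← pow_mul]
          ring
      _ ≤ ((C1 : ℝ) + 1) ^ N * 3 ^ (2 * N * N) * Y ^ (ε / 2) := by
          apply mul_le_mul_of_nonneg_left _ (by positivity)
          rw [← Real.rpow_natCast, ← Real.rpow_mul hY0.le]
          apply Real.rpow_le_rpow_of_exponent_le hY
          refine le_trans (le_of_eq ?_) hwε
          push_cast
          ring
  have e2 : (((2 * ⌊H / Real.log 2⌋₊ + 1) ^ N : ℕ) : ℝ) ≤ (4 * (Ch + 1)) ^ N * (D * Y ^ (ε / 2)) := by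
    push_cast at hE4 ⊢
    calc (2 * (⌊H / Real.log 2⌋₊ : ℝ) + 1) ^ N ≤ (4 * H) ^ N := by gcongr
      _ = (4 * (Ch + 1)) ^ N * (1 + Real.log Y) ^ (κ * N) := by
          rw [hH, ← mul_assoc, mul_pow, ← pow_mul]
      _ ≤ _ := by
          apply mul_le_mul_of_nonneg_left (hlog Y hY) (by positivity)
  calc (((C1 * A ^ (2 * N)) ^ N : ℕ) : ℝ) * (((2 * ⌊H / Real.log 2⌋₊ + 1) ^ N : ℕ) : ℝ)
      ≤ (((C1 : ℝ) + 1) ^ N * 3 ^ (2 * N * N) * Y ^ (ε / 2)) *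
        ((4 * (Ch + 1)) ^ N * (D * Y ^ (ε / 2))) := by gcongr
    _ = ((C1 : ℝ) + 1) ^ N * 3 ^ (2 * N * N) * ((4 * (Ch + 1)) ^ N * D) *
        (Y ^ (ε / 2) * Y ^ (ε / 2)) := by ring
    _ = ((C1 : ℝ) + 1) ^ N * 3 ^ (2 * N * N) * ((4 * (Ch + 1)) ^ N * D) * Y ^ ε := by
        rw [← Real.rpow_add hY0]
        congr 2
        ring

/-- close at the infinite place -/
def Near2 (n : ℕ) (δ K Y : ℝ) (q : ℕ × ℕ) : Prop :=
  0 < q.1 ∧ q.1 < q.2 ∧ Nat.Coprime q.1 q.2 ∧ NB n Y q.1 ∧ NB n Y q.2 ∧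
    Y ^ K ≤ (q.2 : ℝ) ∧ ((q.2 - q.1 : ℕ) : ℝ) ≤ (q.2 : ℝ) ^ (1 - δ)

/-- **few pairs are close at the infinite place** -/
theorem near_all2 (n : ℕ) (δ ε : ℝ) (hδ : 0 < δ) (hε : 0 < ε) : ∃ K C : ℝ, 0 < K ∧ 0 < C ∧
    ∀ Y : ℝ, 1 ≤ Y → ∀ Q : Finset (ℕ × ℕ), (∀ q ∈ Q, Near2 n δ K Y q) →
      (Q.card : ℝ) ≤ C * Y ^ ε := by
  obtain ⟨K, C, hK, hC, h⟩ := near_all3 n δ ε hδ hε
  refine ⟨K, C, hK, hC, fun Y hY Q hQ => h Y hY Q (fun q hq => ?_) (fun q hq q' hq' heq => ?_)⟩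
  · obtain ⟨h1, h2, h3, h4, h5, h6, h7⟩ := hQ q hq
    exact ⟨h1, h2, h4, h5, h6, h7⟩
  · obtain ⟨h1, h2, h3, _⟩ := hQ q hq
    obtain ⟨h1', h2', h3', _⟩ := hQ q' hq'
    exact eq_of_log_ratio h1 (h1.trans h2) h3 h1' (h1'.trans h2') h3' heq

end Pool.Agent.Y913.Nb
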