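import Pool.Agent.Y913.Nb.Zero2
import Pool.Agent.Y913.Core
import Pool.Agent.Y913.Arch
import Pool.Agent.Y913.Padic

/-!
Core bounds for families of rational points no two of which have a quotient satisfying a small
multiplicative relation.
-/

set_option autoImplicit false

namespace Pool.Agent.Y913.Nb

open Finset Pool.Agent.Y913

/-- **core bound from an auxiliary polynomial** -/
theorem card_le_core2 {ι σ : Type} [Fintype σ] [DecidableEq σ] [Nonempty σ] {D : ℕ} (hD : 1 ≤ D)
    (G : (σ → Fin D) → ℤ) (hG : G ≠ 0) (I : Finset ι) (P Q : ι → σ → ℕ)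
    (hP : ∀ t ∈ I, ∀ j, P t j ≠ 0) (hQ : ∀ t ∈ I, ∀ j, Q t j ≠ 0)
    (hind : ∀ t ∈ I, ∀ t' ∈ I, t ≠ t' → ∀ c : σ → ℤ, (∀ j, |c j| ≤ D) →
      ∑ j, (c j : ℝ) * ((Real.log (P t' j) - Real.log (Q t' j)) -
        (Real.log (P t j) - Real.log (Q t j))) = 0 → c = 0)
    (hvan : ∀ ts : List ι, ts.length ≤ Fintype.card σ → (∀ t ∈ ts, t ∈ I) →
      ∑ u : σ → Fin D, G u * ∏ j, (((ts.map (fun t => (P t j : ℤ))).prod) ^ (u j : ℕ) *
        ((ts.map (fun t => (Q t j : ℤ))).prod) ^ (D - 1 - (u j : ℕ))) = 0) :
    I.card ≤ 2 ^ ((Fintype.card σ + 1) * Fintype.card σ) * D ^ Fintype.card σ := by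
  classical
  have hreal : ∀ t, ∀ j, pt P Q t j = (((P t j : ℝ) / (Q t j : ℝ) : ℝ) : ℂ) := by
    intro t j
    unfold pt
    push_cast
    rfl
  have hpos : ∀ t ∈ I, ∀ j, (0 : ℝ) < (P t j : ℝ) / (Q t j : ℝ) := by
    intro t ht j
    have h1 : (0 : ℝ) < P t j := by exact_mod_cast Nat.pos_of_ne_zero (hP t ht j)
    have h2 : (0 : ℝ) < Q t j := by exact_mod_cast Nat.pos_of_ne_zero (hQ t ht j)
    positivity
  have hquot : ∀ t ∈ I, ∀ t' ∈ I, t ≠ t' → ∀ u u' : σ → ℕ, (∀ j, u j ≤ D) → (∀ j, u' j ≤ D) →
      ∏ j, (pt P Q t' j / pt P Q t j) ^ u j = ∏ j, (pt P Q t' j / pt P Q t j) ^ u' j → u = u' := by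
    intro t ht t' ht' htt u u' hu hu' h
    have h1 : ∏ j, (((P t' j : ℝ) / (Q t' j : ℝ)) / ((P t j : ℝ) / (Q t j : ℝ))) ^ u j =
        ∏ j, (((P t' j : ℝ) / (Q t' j : ℝ)) / ((P t j : ℝ) / (Q t j : ℝ))) ^ u' j := by
      simp only [hreal] at h
      exact_mod_cast h
    have hlog : ∀ w : σ → ℕ, Real.log (∏ j, (((P t' j : ℝ) / (Q t' j : ℝ)) /
        ((P t j : ℝ) / (Q t j : ℝ))) ^ w j) = ∑ j, (w j : ℝ) *
        ((Real.log (P t' j) - Real.log (Q t' j)) - (Real.log (P t j) - Real.log (Q t j))) := by
      intro w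
      rw [Real.log_prod]
      · apply Finset.sum_congr rfl
        intro j _
        have a1 : (P t j : ℝ) ≠ 0 := by exact_mod_cast hP t ht j
        have a2 : (Q t j : ℝ) ≠ 0 := by exact_mod_cast hQ t ht j
        have a3 : (P t' j : ℝ) ≠ 0 := by exact_mod_cast hP t' ht' j
        have a4 : (Q t' j : ℝ) ≠ 0 := by exact_mod_cast hQ t' ht' j
        rw [Real.log_pow, Real.log_div (div_ne_zero a3 a4) (div_ne_zero a1 a2),
          Real.log_div a3 a4, Real.log_div a1 a2]
      · intro j _
        exact pow_ne_zero _ (div_ne_zero (hpos t' ht' j).ne' (hpos t ht j).ne')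
    have h2 := congrArg Real.log h1
    rw [hlog, hlog] at h2
    have h3 := hind t ht t' ht' htt (fun j => (u j : ℤ) - (u' j : ℤ)) (by
      intro j
      have e1 := hu j
      have e2 := hu' j
      rw [abs_le]
      constructor <;> omega) (by
      rw [← sub_eq_zero, ← Finset.sum_sub_distrib] at h2
      rw [← h2]
      apply Finset.sum_congr rfl
      intro j _
      push_cast
      ring)
    funext j
    have h4 := congrFun h3 j
    simp only [Pi.zero_apply] at h4
    omega
  have hinj : Set.InjOn (pt P Q) (I : Set ι) := by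
    intro t ht t' ht' h
    by_contra htt
    have hone : ∀ j, pt P Q t' j / pt P Q t j = 1 := by
      intro j
      rw [h]
      apply div_self
      unfold pt
      exact div_ne_zero (by exact_mod_cast hP t' ht' j) (by exact_mod_cast hQ t' ht' j)
    have := hquot t ht t' ht' htt (fun _ => 0) (fun _ => 1) (fun _ => Nat.zero_le _) (fun _ => hD)
      (by simp [hone])
    have h2 := congrFun this (Classical.arbitrary σ)
    simp at h2
  rw [← Finset.card_image_of_injOn hinj]
  apply card_le_of_vanish2 hD G hG
  · intro g hg j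
    rw [Finset.mem_image] at hg
    obtain ⟨t, ht, rfl⟩ := hg
    exact div_ne_zero (by exact_mod_cast hP t ht j) (by exact_mod_cast hQ t ht j)
  · intro g hg g' hg' hne
    rw [Finset.mem_image] at hg hg'
    obtain ⟨t, ht, rfl⟩ := hg
    obtain ⟨t', ht', rfl⟩ := hg'
    exact hquot t ht t' ht' (fun h => hne (by rw [h]))
  · intro gs hlen hmem
    -- lift the list
    have hlift : ∃ ts : List ι, ts.map (pt P Q) = gs ∧ ∀ t ∈ ts, t ∈ I := by
      clear hlen
      induction gs with
      | nil => exact ⟨[], rfl, by simp⟩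
      | cons g gs ih =>
        obtain ⟨ts, hts, hts'⟩ := ih (fun g' hg' => hmem g' (List.mem_cons_of_mem _ hg'))
        obtain ⟨t, ht, htg⟩ := Finset.mem_image.mp (hmem g List.mem_cons_self)
        refine ⟨t :: ts, by rw [List.map_cons, htg, hts], ?_⟩
        intro s hs
        rcases List.mem_cons.mp hs with rfl | hs
        · exact ht
        · exact hts' s hs
    obtain ⟨ts, rfl, hts⟩ := hlift
    rw [List.length_map] at hlen
    have h1 := hvan ts hlen hts
    have hprod : ∀ j, ((ts.map (pt P Q)).map (fun g => g j)).prod =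
        (((ts.map (fun t => (P t j : ℤ))).prod : ℤ) : ℂ) /
        (((ts.map (fun t => (Q t j : ℤ))).prod : ℤ) : ℂ) := by
      intro j
      clear h1 hlen hts hmem
      induction ts with
      | nil => simp
      | cons t ts ih =>
        rw [List.map_cons, List.map_cons, List.prod_cons, ih]
        simp only [List.map_cons, List.prod_cons, pt]
        push_cast
        rw [div_mul_div_comm]
    have hQne : ∀ j, ((((ts.map (fun t => (Q t j : ℤ))).prod : ℤ)) : ℂ) ≠ 0 := by
      intro j
      rw [Int.cast_ne_zero]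
      apply List.prod_ne_zero
      intro h
      rw [List.mem_map] at h
      obtain ⟨t, ht, ht'⟩ := h
      exact hQ t (hts t ht) j (by exact_mod_cast ht')
    have h2 : (∏ j, ((((ts.map (fun t => (Q t j : ℤ))).prod : ℤ)) : ℂ) ^ (D - 1)) *
        ∑ u : σ → Fin D, (G u : ℂ) *
          ∏ j, (((ts.map (pt P Q)).map (fun g => g j)).prod) ^ (u j : ℕ) = 0 := by
      have h3 := congrArg (fun z : ℤ => (z : ℂ)) h1
      push_cast at h3
      rw [Finset.mul_sum, ← h3]
      apply Finset.sum_congr rfl
      intro u _
      rw [mul_left_comm, ← Finset.prod_mul_distrib]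
      congr 1
      apply Finset.prod_congr rfl
      intro j _
      rw [hprod j, div_pow]
      have h4 := hQne j
      push_cast at h4 ⊢
      have h5 : (D - 1) = (D - 1 - (u j : ℕ)) + (u j : ℕ) := by
        have := (u j).isLt
        omega
      conv_lhs => rw [h5, pow_add]
      field_simp
    rcases mul_eq_zero.mp h2 with h3 | h3
    · exfalso
      rw [Finset.prod_eq_zero_iff] at h3
      obtain ⟨j, _, hj⟩ := h3
      exact pow_ne_zero _ (hQne j) hj
    · exact h3


/-- **archimedean core bound** -/
theorem card_le_arch2 {ι τ : Type} [Fintype τ] [DecidableEq τ] (d0 D H N Z : ℕ)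
    (hd0 : 1 ≤ d0) (hD : 1 ≤ D) (hN : 1 ≤ N) (hZ : 1 ≤ Z)
    (hpig : (2 * (D ^ (Fintype.card τ + 1) * H * N) + 1) ^ (d0 ^ Fintype.card τ) <
      (H + 1) ^ (D ^ (Fintype.card τ + 1)))
    (A s δ1 : ℝ) (hA : 1 ≤ A) (hδ0 : 0 ≤ δ1) (hs0 : 0 ≤ s)
    (hδ : 2 * D * ((Fintype.card τ + 1) * δ1) ≤ 1)
    (hs : ((Fintype.card τ + 1) * s) * (2 * D * A) ≤ 1)
    (hsize : ((D ^ (Fintype.card τ + 1) : ℕ) * (H * (3 ^ Fintype.card τ *
        (2 * D * ((Fintype.card τ + 1) * δ1) + 2 * Fintype.card τ * (1 / A) ^ d0))) +
      (d0 ^ Fintype.card τ : ℕ) * (1 / N)) *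
      ((((Z : ℝ) ^ (Fintype.card τ + 1)) ^ (D - 1)) ^ (Fintype.card τ + 1)) < 1)
    (ψ : τ → ℝ) (hψ : ∀ j, |ψ j| ≤ 1) (I : Finset ι) (P Q : ι → Option τ → ℕ)
    (hP : ∀ t ∈ I, ∀ j, 1 ≤ P t j ∧ P t j ≤ Z) (hQ : ∀ t ∈ I, ∀ j, 1 ≤ Q t j ∧ Q t j ≤ Z)
    (hPQ : ∀ t ∈ I, ∀ j, |Real.log (P t (some j)) - Real.log (Q t (some j))| ≤ s)
    (hrel : ∀ t ∈ I, |(Real.log (P t none) - Real.log (Q t none)) -
      ∑ j, ψ j * (Real.log (P t (some j)) - Real.log (Q t (some j)))| ≤ δ1)
    (hind : ∀ t ∈ I, ∀ t' ∈ I, t ≠ t' → ∀ c : Option τ → ℤ, (∀ j, |c j| ≤ D) →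
      ∑ j, (c j : ℝ) * ((Real.log (P t' j) - Real.log (Q t' j)) -
        (Real.log (P t j) - Real.log (Q t j))) = 0 → c = 0) :
    I.card ≤ 2 ^ ((Fintype.card τ + 1 + 1) * (Fintype.card τ + 1)) *
      D ^ (Fintype.card τ + 1) := by
  classical
  obtain ⟨G, hG0, hGH, hG⟩ := exists_aux_arch d0 D H N hD hN hpig ψ hψ
  have hcard : Fintype.card (Option τ) = Fintype.card τ + 1 := Fintype.card_option
  have key := card_le_core2 (σ := Option τ) hD G hG0 I P Q
    (fun t ht j => by have := (hP t ht j).1; omega)
    (fun t ht j => by have := (hQ t ht j).1; omega) hind (by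
      intro ts hlen hts
      rw [hcard] at hlen
      set P' : Option τ → ℤ := fun j => (ts.map (fun t => (P t j : ℤ))).prod with hP'
      set Q' : Option τ → ℤ := fun j => (ts.map (fun t => (Q t j : ℤ))).prod with hQ'
      have hP'b : ∀ j, 1 ≤ P' j ∧ P' j ≤ (Z : ℤ) ^ (Fintype.card τ + 1) := fun j =>
        list_prod_bound _ (Z : ℤ) (by exact_mod_cast hZ) _
          (by rw [List.length_map]; exact hlen) (by
            intro x hx
            rw [List.mem_map] at hx
            obtain ⟨t, ht, rfl⟩ := hx
            have := hP t (hts t ht) j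
            exact ⟨by exact_mod_cast this.1, by exact_mod_cast this.2⟩)
      have hQ'b : ∀ j, 1 ≤ Q' j ∧ Q' j ≤ (Z : ℤ) ^ (Fintype.card τ + 1) := fun j =>
        list_prod_bound _ (Z : ℤ) (by exact_mod_cast hZ) _
          (by rw [List.length_map]; exact hlen) (by
            intro x hx
            rw [List.mem_map] at hx
            obtain ⟨t, ht, rfl⟩ := hx
            have := hQ t (hts t ht) j
            exact ⟨by exact_mod_cast this.1, by exact_mod_cast this.2⟩)
      -- the logarithms
      set θ : Option τ → ℝ := fun j => (ts.map (fun t =>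
        (Real.log (P t j) - Real.log (Q t j)))).sum with hθ
      have hlog : ∀ j, Real.log ((P' j : ℤ) : ℝ) - Real.log ((Q' j : ℤ) : ℝ) = θ j := by
        intro j
        simp only [hP', hQ', hθ]
        clear hlen hP'b hQ'b hP' hQ' hθ P' Q' θ
        induction ts with
        | nil => simp
        | cons t ts ih =>
          have h1 : ∀ R : ι → Option τ → ℕ, (∀ s ∈ t :: ts, R s j ≠ 0) →
              Real.log ((((t :: ts).map (fun t => (R t j : ℤ))).prod : ℤ) : ℝ) =
              Real.log (R t j) + Real.log (((ts.map (fun t => (R t j : ℤ))).prod : ℤ) : ℝ) := by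
            intro R hR
            rw [List.map_cons, List.prod_cons, Int.cast_mul, Real.log_mul, Int.cast_natCast]
            · have := hR t List.mem_cons_self
              exact_mod_cast this
            · rw [Int.cast_ne_zero]
              apply List.prod_ne_zero
              intro h
              rw [List.mem_map] at h
              obtain ⟨s, hs, hs'⟩ := h
              exact hR s (List.mem_cons_of_mem _ hs) (by exact_mod_cast hs')
          rw [h1 P (fun s hs => by have := (hP s (hts s hs) j).1; omega),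
            h1 Q (fun s hs => by have := (hQ s (hts s hs) j).1; omega), List.map_cons,
            List.sum_cons, ← ih (fun s hs => hts s (List.mem_cons_of_mem _ hs))]
          ring
      have hlenr : ((ts.length : ℕ) : ℝ) ≤ (Fintype.card τ : ℝ) + 1 := by exact_mod_cast hlen
      have hθb : ∀ j, |θ (some j)| ≤ (Fintype.card τ + 1) * s := by
        intro j
        have h1 : |θ (some j)| ≤ ts.length * s := by
          simp only [hθ]
          clear hlen hlenr hP'b hQ'b hP' hQ' hlog hθ P' Q' θ
          induction ts with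
          | nil => simp
          | cons t ts ih =>
            rw [List.map_cons, List.sum_cons, List.length_cons]
            have h2 := ih (fun s hs => hts s (List.mem_cons_of_mem _ hs))
            have h3 := hPQ t (hts t List.mem_cons_self) j
            refine (abs_add_le _ _).trans ?_
            push_cast
            linarith
        exact h1.trans (mul_le_mul_of_nonneg_right hlenr hs0)
      have hθrel : |θ none - ∑ j, ψ j * θ (some j)| ≤ (Fintype.card τ + 1) * δ1 := by
        have h1 : |θ none - ∑ j, ψ j * θ (some j)| ≤ ts.length * δ1 := by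
          simp only [hθ]
          clear hlen hlenr hP'b hQ'b hP' hQ' hlog hθb hθ P' Q' θ
          induction ts with
          | nil => simp
          | cons t ts ih =>
            simp only [List.map_cons, List.sum_cons, List.length_cons]
            have h2 := ih (fun s hs => hts s (List.mem_cons_of_mem _ hs))
            have h3 := hrel t (hts t List.mem_cons_self)
            have h4 : ∀ (a b : ℝ) (f g : τ → ℝ), (a + b) - ∑ j, ψ j * (f j + g j) =
                (a - ∑ j, ψ j * f j) + (b - ∑ j, ψ j * g j) := by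
              intro a b f g
              have : ∑ j, ψ j * (f j + g j) = ∑ j, ψ j * f j + ∑ j, ψ j * g j := by
                rw [← Finset.sum_add_distrib]
                apply Finset.sum_congr rfl
                intro j _
                ring
              rw [this]
              ring
            rw [h4]
            refine (abs_add_le _ _).trans ?_
            push_cast
            linarith
        exact h1.trans (mul_le_mul_of_nonneg_right hlenr hδ0)
      have hsm := aux_small hd0 hD hN ψ hψ A ((Fintype.card τ + 1) * δ1) hA hδ G hGH hG θ (by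
        intro j
        refine le_trans ?_ hs
        exact mul_le_mul_of_nonneg_right (hθb j) (by positivity)) hθrel
      -- the value is an integer of absolute value less than one
      set v : ℤ := ∑ u : Option τ → Fin D, G u *
          ∏ j, (P' j ^ (u j : ℕ) * Q' j ^ (D - 1 - (u j : ℕ))) with hv
      have hPpos : ∀ j, (0 : ℝ) < ((P' j : ℤ) : ℝ) := fun j => by
        have := (hP'b j).1
        exact_mod_cast (by omega : 0 < P' j)
      have hQpos : ∀ j, (0 : ℝ) < ((Q' j : ℤ) : ℝ) := fun j => by
        have := (hQ'b j).1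
        exact_mod_cast (by omega : 0 < Q' j)
      have hval : (v : ℝ) = (∏ j, ((Q' j : ℤ) : ℝ) ^ (D - 1)) *
          ∑ u : Option τ → Fin D, (G u : ℝ) * Real.exp (∑ j, ((u j : ℕ) : ℝ) * θ j) := by
        rw [hv]
        push_cast
        rw [Finset.mul_sum]
        apply Finset.sum_congr rfl
        intro u _
        rw [mul_left_comm, Real.exp_sum, ← Finset.prod_mul_distrib]
        congr 1
        apply Finset.prod_congr rfl
        intro j _
        rw [← hlog j, ← Real.log_div (hPpos j).ne' (hQpos j).ne', mul_comm ((u j : ℕ) : ℝ),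
          ← Real.rpow_def_of_pos (div_pos (hPpos j) (hQpos j)), Real.rpow_natCast, div_pow]
        have h5 : (D - 1) = (D - 1 - (u j : ℕ)) + (u j : ℕ) := by
          have := (u j).isLt
          omega
        have h6 := (hQpos j).ne'
        conv_rhs => rw [h5, pow_add]
        field_simp
      have hQprod : |∏ j, ((Q' j : ℤ) : ℝ) ^ (D - 1)| ≤
          (((Z : ℝ) ^ (Fintype.card τ + 1)) ^ (D - 1)) ^ (Fintype.card τ + 1) := by
        rw [Finset.abs_prod]
        calc ∏ j, |((Q' j : ℤ) : ℝ) ^ (D - 1)|
            ≤ ∏ _j : Option τ, ((Z : ℝ) ^ (Fintype.card τ + 1)) ^ (D - 1) := by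
              apply Finset.prod_le_prod
              · intro j _; exact abs_nonneg _
              · intro j _
                rw [abs_pow, abs_of_pos (hQpos j)]
                apply pow_le_pow_left₀ (hQpos j).le
                exact_mod_cast (hQ'b j).2
          _ = _ := by rw [Finset.prod_const, Finset.card_univ, hcard]
      have hvabs : |(v : ℝ)| < 1 := by
        rw [hval, abs_mul]
        refine lt_of_le_of_lt ?_ hsize
        rw [mul_comm]
        exact mul_le_mul hsm hQprod (abs_nonneg _) ((abs_nonneg _).trans hsm)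
      have hv0 : |v| < 1 := by
        rw [← Int.cast_abs] at hvabs
        exact_mod_cast hvabs
      exact Int.abs_lt_one_iff.mp hv0)
  rw [hcard] at key
  exact key


/-- **`p`-adic core bound** -/
theorem card_le_padic2 {ι τ : Type} [Fintype τ] [DecidableEq τ] (q π d0 D H Z : ℕ) [NeZero q]
    (hD : 1 ≤ D) (hZ : 1 ≤ Z) (hπ : q ∣ π ^ d0)
    (hpig : q ^ (d0 ^ Fintype.card τ) < (H + 1) ^ (D ^ (Fintype.card τ + 1)))
    (hsize : D ^ (Fintype.card τ + 1) *
      (H * ((Z ^ (Fintype.card τ + 1)) ^ (D - 1)) ^ (Fintype.card τ + 1)) < q)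
    (ψ : τ → ℕ) (I : Finset ι) (P Q : ι → Option τ → ℕ)
    (hP : ∀ t ∈ I, ∀ j, 1 ≤ P t j ∧ P t j ≤ Z) (hQ : ∀ t ∈ I, ∀ j, 1 ≤ Q t j ∧ Q t j ≤ Z)
    (hQu : ∀ t ∈ I, ∀ j, IsUnit ((Q t j : ℕ) : ZMod q))
    (hPQ : ∀ t ∈ I, ∀ j, (P t (some j)) ≡ (Q t (some j)) [MOD π])
    (hrel : ∀ t ∈ I, ((P t none : ℕ) : ZMod q) * ∏ j, ((Q t (some j) : ℕ) : ZMod q) ^ ψ j =
          ((Q t none : ℕ) : ZMod q) * ∏ j, ((P t (some j) : ℕ) : ZMod q) ^ ψ j)
    (hind : ∀ t ∈ I, ∀ t' ∈ I, t ≠ t' → ∀ c : Option τ → ℤ, (∀ j, |c j| ≤ D) →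
      ∑ j, (c j : ℝ) * ((Real.log (P t' j) - Real.log (Q t' j)) -
        (Real.log (P t j) - Real.log (Q t j))) = 0 → c = 0) :
    I.card ≤ 2 ^ ((Fintype.card τ + 1 + 1) * (Fintype.card τ + 1)) *
      D ^ (Fintype.card τ + 1) := by
  classical
  obtain ⟨G, hG0, hGH, hG⟩ := exists_aux q π d0 D H hπ hpig ψ
  have hcard : Fintype.card (Option τ) = Fintype.card τ + 1 := Fintype.card_option
  have key := card_le_core2 (σ := Option τ) hD G hG0 I P Q
    (fun t ht j => by have := (hP t ht j).1; omega)
    (fun t ht j => by have := (hQ t ht j).1; omega) hind (by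
      intro ts hlen hts
      rw [hcard] at hlen
      set P' : Option τ → ℤ := fun j => (ts.map (fun t => (P t j : ℤ))).prod with hP'
      set Q' : Option τ → ℤ := fun j => (ts.map (fun t => (Q t j : ℤ))).prod with hQ'
      have hcast : ∀ (R : ι → Option τ → ℕ) (j : Option τ),
          (((ts.map (fun t => (R t j : ℤ))).prod : ℤ) : ZMod q) =
          (ts.map (fun t => ((R t j : ℕ) : ZMod q))).prod := by
        intro R j
        clear hlen hts hP' hQ' P' Q'
        induction ts with
        | nil => simp
        | cons t ts ih =>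
          rw [List.map_cons, List.prod_cons, List.map_cons, List.prod_cons, Int.cast_mul, ih]
          simp
      have hdvd := hG P' Q' (by
        intro j
        rw [hQ']
        simp only
        rw [hcast Q j]
        clear hlen hcast hP' hQ' P' Q'
        induction ts with
        | nil => simp
        | cons t ts ih =>
          rw [List.map_cons, List.prod_cons]
          exact (hQu t (hts t List.mem_cons_self) j).mul
            (ih (fun s hs => hts s (List.mem_cons_of_mem _ hs)))) (by
        intro j
        rw [hP', hQ']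
        simp only
        clear hlen hcast hP' hQ' P' Q'
        induction ts with
        | nil => simp
        | cons t ts ih =>
          rw [List.map_cons, List.prod_cons, List.map_cons, List.prod_cons]
          have h1 := ih (fun s hs => hts s (List.mem_cons_of_mem _ hs))
          have h2 : (π : ℤ) ∣ (P t (some j) : ℤ) - (Q t (some j) : ℤ) :=
            (Nat.modEq_iff_dvd.mp (hPQ t (hts t List.mem_cons_self) j).symm)
          obtain ⟨x, hx⟩ := h1
          obtain ⟨y, hy⟩ := h2
          refine ⟨y * (ts.map (fun t => (P t (some j) : ℤ))).prod + Q t (some j) * x, ?_⟩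
          linear_combination (ts.map (fun t => (P t (some j) : ℤ))).prod * hy +
            (Q t (some j) : ℤ) * hx) (by
        rw [hP', hQ']
        simp only
        simp_rw [hcast]
        clear hlen hcast hP' hQ' P' Q'
        induction ts with
        | nil => simp
        | cons t ts ih =>
          simp_rw [List.map_cons, List.prod_cons, mul_pow, Finset.prod_mul_distrib]
          have h1 := ih (fun s hs => hts s (List.mem_cons_of_mem _ hs))
          have h2 := hrel t (hts t List.mem_cons_self)
          calc _ = (((P t none : ℕ) : ZMod q) * ∏ j, ((Q t (some j) : ℕ) : ZMod q) ^ ψ j) *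
              ((ts.map (fun t => ((P t none : ℕ) : ZMod q))).prod *
                ∏ j, (ts.map (fun t => ((Q t (some j) : ℕ) : ZMod q))).prod ^ ψ j) := by ring
            _ = _ := by rw [h1, h2]; ring)
      have hbd := abs_form_le G hGH P' Q' ((Z : ℤ) ^ (Fintype.card τ + 1))
        (one_le_pow₀ (by exact_mod_cast hZ))
        (fun j => list_prod_bound _ (Z : ℤ) (by exact_mod_cast hZ) _
          (by rw [List.length_map]; exact hlen) (by
            intro x hx
            rw [List.mem_map] at hx
            obtain ⟨t, ht, rfl⟩ := hx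
            have := hP t (hts t ht) j
            exact ⟨by exact_mod_cast this.1, by exact_mod_cast this.2⟩))
        (fun j => list_prod_bound _ (Z : ℤ) (by exact_mod_cast hZ) _
          (by rw [List.length_map]; exact hlen) (by
            intro x hx
            rw [List.mem_map] at hx
            obtain ⟨t, ht, rfl⟩ := hx
            have := hQ t (hts t ht) j
            exact ⟨by exact_mod_cast this.1, by exact_mod_cast this.2⟩))
      apply Int.eq_zero_of_abs_lt_dvd hdvd
      refine lt_of_le_of_lt hbd ?_
      rw [hcard]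
      exact_mod_cast hsize)
  rw [hcard] at key
  exact key


end Pool.Agent.Y913.Nb
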