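import Pool.Agent.Y913.Bk.LinAlg

/-!
Induction over cosets: from sets without small multiplicative relations to sets on which a given
linear form takes different values.
-/

set_option autoImplicit false

namespace Pool.Agent.Y913.Nb

open Finset Pool.Agent.Y913.Bk

/-- coordinates complementary to a subspace -/
theorem exists_compl {σ : Type} [Fintype σ] [DecidableEq σ] (V : Submodule ℚ (σ → ℚ)) :
    ∃ (J : Finset σ) (r : σ → σ → ℚ), (∀ i, ∀ j ∉ J, r i j = 0) ∧
      (∀ i, Pi.single i 1 - r i ∈ V) ∧ ∀ v ∈ V, (∀ j ∉ J, v j = 0) → v = 0 := by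
  classical
  obtain ⟨I, hI, hV⟩ := exists_coords V
  let ρ : V →ₗ[ℚ] ({j // j ∈ I} → ℚ) :=
    LinearMap.pi (fun k => (LinearMap.proj k.1 : (σ → ℚ) →ₗ[ℚ] ℚ).comp V.subtype)
  have hinj : Function.Injective ρ := by
    rw [← LinearMap.ker_eq_bot, LinearMap.ker_eq_bot']
    intro v hv
    apply Subtype.ext
    apply hV v.1 v.2
    intro j hj
    exact congrFun hv ⟨j, hj⟩
  have hsurj : Function.Surjective ρ := by
    have hdim : Module.finrank ℚ V = Module.finrank ℚ ({j // j ∈ I} → ℚ) := by
      rw [Module.finrank_fintype_fun_eq_card, Fintype.card_coe, hI]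
    exact (LinearMap.injective_iff_surjective_of_finrank_eq_finrank hdim).mp hinj
  have hex : ∀ i : σ, ∃ v : V, ∀ k ∈ I, v.1 k = (Pi.single i 1 : σ → ℚ) k := by
    intro i
    obtain ⟨v, hv⟩ := hsurj (fun k => (Pi.single i 1 : σ → ℚ) k.1)
    exact ⟨v, fun k hk => congrFun hv ⟨k, hk⟩⟩
  choose v hv using hex
  refine ⟨Finset.univ \ I, fun i => Pi.single i 1 - (v i).1, ?_, ?_, ?_⟩
  · intro i j hj
    have hjI : j ∈ I := by
      by_contra h
      exact hj (Finset.mem_sdiff.mpr ⟨Finset.mem_univ _, h⟩)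
    show (Pi.single i 1 : σ → ℚ) j - (v i).1 j = 0
    rw [hv i j hjI, sub_self]
  · intro i
    show Pi.single i 1 - (Pi.single i 1 - (v i).1) ∈ V
    rw [sub_sub_cancel]
    exact (v i).2
  · intro w hw h
    apply hV w hw
    intro j hj
    apply h
    intro h'
    exact (Finset.mem_sdiff.mp h').2 hj

/-- integral form -/
theorem exists_compl_int {σ : Type} [Fintype σ] [DecidableEq σ] (V : Submodule ℚ (σ → ℚ)) :
    ∃ (J : Finset σ) (m : ℕ) (r : σ → σ → ℤ), 1 ≤ m ∧ (∀ i, ∀ j ∉ J, r i j = 0) ∧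
      (∀ i, qc ((m : ℤ) • Pi.single i 1 - r i) ∈ V) ∧ ∀ v ∈ V, (∀ j ∉ J, v j = 0) → v = 0 := by
  classical
  obtain ⟨J, r, h1, h2, h3⟩ := exists_compl V
  let m : ℕ := ∏ p : σ × σ, (r p.1 p.2).den
  have hm : 1 ≤ m := Finset.prod_pos (fun (p : σ × σ) _ => (r p.1 p.2).den_pos)
  have hmr : ∀ i j, ∃ z : ℤ, (z : ℚ) = m * r i j := by
    intro i j
    have hd : (r i j).den ∣ m := Finset.dvd_prod_of_mem (fun p : σ × σ => (r p.1 p.2).den)
      (Finset.mem_univ (i, j))
    obtain ⟨k, hk⟩ := hd
    refine ⟨k * (r i j).num, ?_⟩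
    rw [hk]
    push_cast
    have h4 : ((r i j).den : ℚ) * r i j = (r i j).num := by
      rw [mul_comm]
      exact Rat.mul_den_eq_num _
    rw [mul_comm ((r i j).den : ℚ), mul_assoc, h4]
  choose z hz using hmr
  refine ⟨J, m, z, hm, ?_, ?_, h3⟩
  · intro i j hj
    have h4 := hz i j
    rw [h1 i j hj, mul_zero] at h4
    exact_mod_cast h4
  · intro i
    have h4 : qc ((m : ℤ) • Pi.single i 1 - z i) = (m : ℚ) • (Pi.single i 1 - r i) := by
      funext j
      simp only [qc, Pi.sub_apply, Pi.smul_apply, smul_eq_mul]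
      push_cast
      rw [hz i j, mul_sub]
      congr 1
      rcases eq_or_ne j i with rfl | hne
      · simp
      · simp [Pi.single_eq_of_ne hne]
    rw [h4]
    exact V.smul_mem _ (h2 i)

/-- the box -/
noncomputable def boxI (σ : Type) [Fintype σ] [DecidableEq σ] (D : ℕ) : Finset (σ → ℤ) :=
  Fintype.piFinset (fun _ => Finset.Icc (-(D : ℤ)) D)

lemma mem_boxI {σ : Type} [Fintype σ] [DecidableEq σ] {D : ℕ} {c : σ → ℤ} :
    c ∈ boxI σ D ↔ ∀ j, |c j| ≤ D := by
  unfold boxI
  rw [Fintype.mem_piFinset]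
  simp only [Finset.mem_Icc, abs_le]

lemma card_boxI {σ : Type} [Fintype σ] [DecidableEq σ] {D : ℕ} :
    (boxI σ D).card = (2 * D + 1) ^ Fintype.card σ := by
  unfold boxI
  rw [Fintype.card_piFinset, Finset.prod_const, Finset.card_univ, Int.card_Icc]
  congr 1
  omega

/-- uniform bound for the finitely many subspaces spanned by small vectors -/
theorem exists_data (σ : Type) [Fintype σ] [DecidableEq σ] (D : ℕ) :
    ∃ M0 : ℕ, ∀ S ⊆ boxI σ D, ∃ (J : Finset σ) (m : ℕ) (r : σ → σ → ℤ), 1 ≤ m ∧ m ≤ M0 ∧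
      (∀ i j, |r i j| ≤ M0) ∧ (∀ i, ∀ j ∉ J, r i j = 0) ∧
      (∀ i, qc ((m : ℤ) • Pi.single i 1 - r i) ∈
        Submodule.span ℚ (qc '' (S : Set (σ → ℤ)))) ∧
      ∀ v ∈ Submodule.span ℚ (qc '' (S : Set (σ → ℤ))), (∀ j ∉ J, v j = 0) → v = 0 := by
  classical
  choose J m r h1 h2 h3 h4 using fun S : Finset (σ → ℤ) =>
    exists_compl_int (Submodule.span ℚ (qc '' (S : Set (σ → ℤ))))
  refine ⟨∑ S ∈ (boxI σ D).powerset, (m S + ∑ i, ∑ j, (r S i j).natAbs), fun S hS =>
    ⟨J S, m S, r S, h1 S, ?_, ?_, h2 S, h3 S, h4 S⟩⟩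
  · refine le_trans (Nat.le_add_right _ _) (Finset.single_le_sum
      (f := fun S => m S + ∑ i, ∑ j, (r S i j).natAbs) (fun _ _ => Nat.zero_le _)
      (Finset.mem_powerset.mpr hS))
  · intro i j
    have e1 : (r S i j).natAbs ≤ ∑ j, (r S i j).natAbs :=
      Finset.single_le_sum (f := fun j => (r S i j).natAbs) (fun _ _ => Nat.zero_le _)
        (Finset.mem_univ j)
    have e2 : ∑ j, (r S i j).natAbs ≤ ∑ i, ∑ j, (r S i j).natAbs :=
      Finset.single_le_sum (f := fun i => ∑ j, (r S i j).natAbs) (fun _ _ => Nat.zero_le _)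
        (Finset.mem_univ i)
    have e3 : m S + ∑ i, ∑ j, (r S i j).natAbs ≤
        ∑ S ∈ (boxI σ D).powerset, (m S + ∑ i, ∑ j, (r S i j).natAbs) :=
      Finset.single_le_sum (f := fun S => m S + ∑ i, ∑ j, (r S i j).natAbs)
        (fun _ _ => Nat.zero_le _) (Finset.mem_powerset.mpr hS)
    have e4 : (r S i j).natAbs ≤
        ∑ S ∈ (boxI σ D).powerset, (m S + ∑ i, ∑ j, (r S i j).natAbs) := by omega
    rw [← Int.natCast_natAbs]
    exact_mod_cast e4

/-- a large subset on which all functions of a family with small fibres are injective -/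
theorem exists_good_subset {ι κ : Type} [DecidableEq ι] (F : Finset ι) (𝒞 : Finset κ)
    (χ : κ → ι → ℝ) (N : ℕ)
    (hfib : ∀ c ∈ 𝒞, ∀ i ∈ F, (F.filter (fun i' => χ c i' = χ c i)).card ≤ N) :
    ∀ m : ℕ, m * (𝒞.card * N + 1) ≤ F.card → ∃ F' ⊆ F, F'.card = m ∧
      ∀ c ∈ 𝒞, ∀ i ∈ F', ∀ i' ∈ F', χ c i = χ c i' → i = i' := by
  classical
  intro m
  induction m with
  | zero => intro _; exact ⟨∅, Finset.empty_subset _, rfl, by simp⟩
  | succ m ih =>
    intro hm
    obtain ⟨F', hF', hcard, hinj⟩ := ih (le_trans (Nat.mul_le_mul_right _ (Nat.le_succ m)) hm)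
    let bad : Finset ι := F' ∪ (F' ×ˢ 𝒞).biUnion (fun p => F.filter (fun i' => χ p.2 i' = χ p.2 p.1))
    have hbad : bad.card ≤ m * (𝒞.card * N + 1) := by
      calc bad.card ≤ F'.card + ((F' ×ˢ 𝒞).biUnion
            (fun p => F.filter (fun i' => χ p.2 i' = χ p.2 p.1))).card :=
            Finset.card_union_le _ _
        _ ≤ m + (F' ×ˢ 𝒞).card * N := by
            rw [hcard]
            apply Nat.add_le_add_left
            exact Finset.card_biUnion_le_card_mul _ _ _ (fun p hp =>
              hfib p.2 (Finset.mem_product.mp hp).2 p.1 (hF' (Finset.mem_product.mp hp).1))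
        _ = m * (𝒞.card * N + 1) := by
            rw [Finset.card_product, hcard]
            ring
    have hlt : bad.card < F.card := by
      have : m * (𝒞.card * N + 1) < (m + 1) * (𝒞.card * N + 1) := by
        have : (m + 1) * (𝒞.card * N + 1) = m * (𝒞.card * N + 1) + (𝒞.card * N + 1) := by ring
        omega
      omega
    obtain ⟨i0, hi0, hi0b⟩ := Finset.exists_mem_notMem_of_card_lt_card hlt
    have hi0F' : i0 ∉ F' := fun h => hi0b (Finset.mem_union_left _ h)
    have hne : ∀ c ∈ 𝒞, ∀ i ∈ F', χ c i0 ≠ χ c i := by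
      intro c hc i hi h
      apply hi0b
      apply Finset.mem_union_right
      rw [Finset.mem_biUnion]
      exact ⟨(i, c), Finset.mem_product.mpr ⟨hi, hc⟩, Finset.mem_filter.mpr ⟨hi0, h⟩⟩
    refine ⟨insert i0 F', Finset.insert_subset hi0 hF', by
      rw [Finset.card_insert_of_notMem hi0F', hcard], ?_⟩
    intro c hc i hi i' hi' h
    rw [Finset.mem_insert] at hi hi'
    rcases hi with rfl | hi
    · rcases hi' with rfl | hi'
      · rfl
      · exact absurd h (hne c hc i' hi')
    · rcases hi' with rfl | hi'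
      · exact absurd h.symm (hne c hc i hi)
      · exact hinj c hc i hi i' hi' h

/-- a linear form in the span of vanishing linear forms vanishes -/
lemma sum_eq_zero_of_span {σ : Type} [Fintype σ] (S : Set (σ → ℤ)) (d : σ → ℝ)
    (h : ∀ c ∈ S, ∑ j, (c j : ℝ) * d j = 0) (v : σ → ℚ)
    (hv : v ∈ Submodule.span ℚ (qc '' S)) : ∑ j, (v j : ℝ) * d j = 0 := by
  refine Submodule.span_induction (p := fun v _ => ∑ j, (v j : ℝ) * d j = 0) ?_ ?_ ?_ ?_ hv
  · rintro _ ⟨c, hc, rfl⟩
    have := h c hc
    simpa [qc] using this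
  · simp
  · intro v v' _ _ h1 h2
    have : ∑ j, (((v + v') j : ℚ) : ℝ) * d j = ∑ j, (v j : ℝ) * d j + ∑ j, (v' j : ℝ) * d j := by
      rw [← Finset.sum_add_distrib]
      apply Finset.sum_congr rfl
      intro j _
      rw [Pi.add_apply]
      push_cast
      ring
    rw [this, h1, h2, add_zero]
  · intro a v _ h1
    have : ∑ j, (((a • v) j : ℚ) : ℝ) * d j = a * ∑ j, (v j : ℝ) * d j := by
      rw [Finset.mul_sum]
      apply Finset.sum_congr rfl
      intro j _
      rw [Pi.smul_apply, smul_eq_mul]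
      push_cast
      ring
    rw [this, h1, mul_zero]

/-- **induction over cosets** -/
theorem coset_induction {ι σ Λ : Type} [Fintype σ] [DecidableEq σ] (D M0 m1 Bx : ℕ)
    (hm1 : 1 ≤ m1) (hBx : 1 ≤ Bx)
    (hdata : ∀ S ⊆ boxI σ D, ∃ (J : Finset σ) (m : ℕ) (r : σ → σ → ℤ), 1 ≤ m ∧ m ≤ M0 ∧
      (∀ i j, |r i j| ≤ M0) ∧ (∀ i, ∀ j ∉ J, r i j = 0) ∧
      (∀ i, qc ((m : ℤ) • Pi.single i 1 - r i) ∈
        Submodule.span ℚ (qc '' (S : Set (σ → ℤ)))) ∧
      ∀ v ∈ Submodule.span ℚ (qc '' (S : Set (σ → ℤ))), (∀ j ∉ J, v j = 0) → v = 0)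
    (l : ι → σ → ℝ) (φ : σ → ℤ) (I0 : Finset ι) (f : ι → Λ) (T : Finset Λ) (hT : T.card ≤ Bx)
    (hf : ∀ i ∈ I0, f i ∈ T)
    (hkey : ∀ (J : Finset σ) (m : ℕ) (φ' : σ → ℤ) (F : Finset ι), F ⊆ I0 → 1 ≤ m → m ≤ M0 →
      (∀ j ∉ J, φ' j = 0) → φ' ≠ 0 → (∀ j, |φ' j| ≤ M0 * ∑ i, |φ i|) →
      (∀ i ∈ F, ∀ i' ∈ F, f i = f i') →
      (∀ i ∈ F, ∀ i' ∈ F, ∑ j, ((m * φ j - φ' j : ℤ) : ℝ) * (l i j - l i' j) = 0) →
      (∀ i ∈ F, ∀ i' ∈ F, i ≠ i' → ∀ c : σ → ℤ, (∀ j, |c j| ≤ D) → (∀ j ∉ J, c j = 0) →
        ∑ j, (c j : ℝ) * (l i j - l i' j) = 0 → c = 0) → F.card < m1)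
    (hval : ∀ i ∈ I0, ∀ i' ∈ I0, ∑ j, (φ j : ℝ) * (l i j - l i' j) = 0 → i = i') :
    I0.card ≤ (Bx * (m1 * ((2 * D + 1) ^ Fintype.card σ + 1))) ^ Fintype.card σ := by
  classical
  obtain ⟨N, hN⟩ : ∃ N, N = Bx * (m1 * ((2 * D + 1) ^ Fintype.card σ + 1)) := ⟨_, rfl⟩
  have hN1 : 1 ≤ N := by
    rw [hN]
    exact Nat.mul_pos hBx (Nat.mul_pos hm1 (Nat.succ_pos _))
  rw [← hN]
  have claim : ∀ k : ℕ, ∀ S ⊆ boxI σ D,
      Fintype.card σ ≤ Module.finrank ℚ (Submodule.span ℚ (qc '' (S : Set (σ → ℤ)))) + k →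
      ∀ I ⊆ I0, (∀ c ∈ S, ∀ i ∈ I, ∀ i' ∈ I, ∑ j, (c j : ℝ) * (l i j - l i' j) = 0) →
      I.card ≤ N ^ k := by
    intro k
    induction k with
    | zero =>
      intro S hS hfr I hI hc
      rw [pow_zero, Finset.card_le_one]
      intro i hi i' hi'
      apply hval i (hI hi) i' (hI hi')
      have htop : Submodule.span ℚ (qc '' (S : Set (σ → ℤ))) = ⊤ := by
        apply Submodule.eq_top_of_finrank_eq
        apply le_antisymm (Submodule.finrank_le _)
        rw [Module.finrank_fintype_fun_eq_card]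
        omega
      have := sum_eq_zero_of_span (S : Set (σ → ℤ)) (fun j => l i j - l i' j)
        (fun c hc' => hc c hc' i hi i' hi') (qc φ) (by rw [htop]; exact Submodule.mem_top)
      simpa [qc] using this
    | succ k ih =>
      intro S hS hfr I hI hc
      by_cases hφS : qc φ ∈ Submodule.span ℚ (qc '' (S : Set (σ → ℤ)))
      · have h1 : I.card ≤ 1 := by
          rw [Finset.card_le_one]
          intro i hi i' hi'
          apply hval i (hI hi) i' (hI hi')
          have := sum_eq_zero_of_span (S : Set (σ → ℤ)) (fun j => l i j - l i' j)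
            (fun c hc' => hc c hc' i hi i' hi') (qc φ) hφS
          simpa [qc] using this
        exact h1.trans (Nat.one_le_pow _ _ hN1)
      by_contra hcon
      rw [not_le] at hcon
      obtain ⟨J, m, r, hm1', hmM, hrM, hrJ, hrS, hJ⟩ := hdata S hS
      -- a large class
      have hlt : T.card * (m1 * ((2 * D + 1) ^ Fintype.card σ * N ^ k + 1)) < I.card := by
        refine lt_of_le_of_lt ?_ hcon
        calc T.card * (m1 * ((2 * D + 1) ^ Fintype.card σ * N ^ k + 1))
            ≤ Bx * (m1 * ((2 * D + 1) ^ Fintype.card σ * N ^ k + N ^ k)) := by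
              apply Nat.mul_le_mul hT
              apply Nat.mul_le_mul_left
              have := Nat.one_le_pow k N hN1
              omega
          _ = N ^ k * N := by rw [hN]; ring
          _ = N ^ (k + 1) := (pow_succ _ _).symm
      obtain ⟨t0, ht0, hF⟩ := Finset.exists_lt_card_fiber_of_mul_lt_card_of_maps_to
        (fun i hi => hf i (hI hi)) hlt
      set F := I.filter (fun i => f i = t0) with hFdef
      have hFI : F ⊆ I := Finset.filter_subset _ _
      let 𝒞 : Finset (σ → ℤ) := (boxI σ D).filter (fun c => c ≠ 0 ∧ ∀ j ∉ J, c j = 0)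
      have h𝒞 : 𝒞.card ≤ (2 * D + 1) ^ Fintype.card σ := by
        rw [← card_boxI (σ := σ) (D := D)]
        exact Finset.card_le_card (Finset.filter_subset _ _)
      have hfib : ∀ c ∈ 𝒞, ∀ i ∈ F, (F.filter (fun i' => ∑ j, (c j : ℝ) * l i' j =
          ∑ j, (c j : ℝ) * l i j)).card ≤ N ^ k := by
        intro c hc' i hi
        obtain ⟨hcB, hc0, hcJ⟩ := Finset.mem_filter.mp hc'
        apply ih (insert c S) (Finset.insert_subset hcB hS)
        · have hlt' : Submodule.span ℚ (qc '' (S : Set (σ → ℤ))) <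
              Submodule.span ℚ (qc '' ((insert c S : Finset (σ → ℤ)) : Set (σ → ℤ))) := by
            apply lt_of_le_of_ne
            · apply Submodule.span_mono
              apply Set.image_mono
              rw [Finset.coe_insert]
              exact Set.subset_insert _ _
            · intro heq
              have hmem : qc c ∈ Submodule.span ℚ (qc '' (S : Set (σ → ℤ))) := by
                rw [heq]
                apply Submodule.subset_span
                exact ⟨c, by rw [Finset.coe_insert]; exact Set.mem_insert _ _, rfl⟩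
              have h1 := hJ _ hmem (by
                intro j hj
                simp [qc, hcJ j hj])
              exact hc0 (qc_inj (by rw [h1, qc_zero]))
          have := Submodule.finrank_lt_finrank_of_lt hlt'
          omega
        · exact ((Finset.filter_subset _ _).trans hFI).trans hI
        · intro c' hc'' i1 hi1 i2 hi2
          rw [Finset.mem_filter] at hi1 hi2
          rcases Finset.mem_insert.mp hc'' with rfl | h2
          · have e1 : ∑ j, (c' j : ℝ) * (l i1 j - l i2 j) =
                ∑ j, (c' j : ℝ) * l i1 j - ∑ j, (c' j : ℝ) * l i2 j := by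
              rw [← Finset.sum_sub_distrib]
              apply Finset.sum_congr rfl
              intro j _
              ring
            rw [e1, hi1.2, hi2.2, sub_self]
          · exact hc c' h2 i1 (hFI hi1.1) i2 (hFI hi2.1)
      obtain ⟨F', hF'F, hF'c, hF'inj⟩ := exists_good_subset F 𝒞
        (fun c i => ∑ j, (c j : ℝ) * l i j) (N ^ k) hfib m1 (by
          refine le_trans (Nat.mul_le_mul_left _ ?_) hF.le
          apply Nat.add_le_add_right
          exact Nat.mul_le_mul_right _ h𝒞)
      -- the form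
      obtain ⟨φ', hφ'⟩ : ∃ φ' : σ → ℤ, φ' = fun j => ∑ i, φ i * r i j := ⟨_, rfl⟩
      have hmφ : qc ((m : ℤ) • φ - φ') ∈ Submodule.span ℚ (qc '' (S : Set (σ → ℤ))) := by
        have h1 : qc ((m : ℤ) • φ - φ') =
            ∑ i, (φ i : ℚ) • qc ((m : ℤ) • Pi.single i 1 - r i) := by
          funext j
          rw [Finset.sum_apply]
          simp only [qc, Pi.sub_apply, Pi.smul_apply, smul_eq_mul, hφ']
          push_cast
          simp only [mul_sub]
          rw [Finset.sum_sub_distrib]
          congr 1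
          rw [Finset.sum_eq_single j]
          · simp
            ring
          · intro i _ hij
            rw [Pi.single_eq_of_ne hij.symm]
            simp
          · intro h; exact absurd (Finset.mem_univ j) h
        rw [h1]
        exact Submodule.sum_mem _ (fun i _ => Submodule.smul_mem _ _ (hrS i))
      have hlt2 := hkey J m φ' F' ((hF'F.trans hFI).trans hI) hm1' hmM
        (by
          intro j hj
          rw [hφ']
          exact Finset.sum_eq_zero (fun i _ => by rw [hrJ i j hj, mul_zero]))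
        (by
          intro h0
          apply hφS
          rw [h0, sub_zero, qc_zsmul] at hmφ
          have hm0 : ((m : ℤ) : ℚ) ≠ 0 := by
            have : m ≠ 0 := by omega
            exact_mod_cast this
          have := Submodule.smul_mem _ (((m : ℤ) : ℚ)⁻¹) hmφ
          rwa [smul_smul, inv_mul_cancel₀ hm0, one_smul] at this)
        (by
          intro j
          rw [hφ']
          calc |∑ i, φ i * r i j| ≤ ∑ i, |φ i * r i j| := Finset.abs_sum_le_sum_abs _ _
            _ ≤ ∑ i, |φ i| * M0 := by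
                apply Finset.sum_le_sum
                intro i _
                rw [abs_mul]
                exact mul_le_mul_of_nonneg_left (hrM i j) (abs_nonneg _)
            _ = M0 * ∑ i, |φ i| := by rw [← Finset.sum_mul, mul_comm])
        (by
          intro i hi i' hi'
          rw [(Finset.mem_filter.mp (hF'F hi)).2, (Finset.mem_filter.mp (hF'F hi')).2])
        (by
          intro i hi i' hi'
          have := sum_eq_zero_of_span (S : Set (σ → ℤ)) (fun j => l i j - l i' j)
            (fun c hc' => hc c hc' i (hFI (hF'F hi)) i' (hFI (hF'F hi'))) _ hmφ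
          rw [← this]
          apply Finset.sum_congr rfl
          intro j _
          simp [qc])
        (by
          intro i hi i' hi' hne c hcD hcJ hsum
          by_contra hc0
          apply hne
          apply hF'inj c (Finset.mem_filter.mpr ⟨mem_boxI.mpr hcD, hc0, hcJ⟩) i hi i' hi'
          have e1 : ∑ j, (c j : ℝ) * (l i j - l i' j) =
              ∑ j, (c j : ℝ) * l i j - ∑ j, (c j : ℝ) * l i' j := by
            rw [← Finset.sum_sub_distrib]
            apply Finset.sum_congr rfl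
            intro j _
            ring
          rw [e1] at hsum
          linarith)
      omega
  have := claim (Fintype.card σ) ∅ (Finset.empty_subset _) (Nat.le_add_left _ _) I0
    (Finset.Subset.refl _) (fun c hc => absurd hc (Finset.notMem_empty c))
  exact this

end Pool.Agent.Y913.Nb
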