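import Pool.Agent.Y913.Nb.Coset
import Pool.Agent.Y913.Nb.Par2
import Pool.Agent.Y913.Count

/-!
Counting integer vectors with different values of a monomial close to a point.
-/

set_option autoImplicit false

namespace Pool.Agent.Y913.Nb

open Finset Pool.Agent.Y913

/-- **counting theorem, infinite place** -/
theorem count_arch_val (σ : Type) [Fintype σ] [DecidableEq σ] (w : ℕ) (hw : 1 ≤ w) :
    ∃ M0 C1 : ℕ, ∀ (ι : Type) (A Z : ℕ) (η : ℝ) (φ : σ → ℤ) (I0 : Finset ι) (x : ι → σ → ℕ) (β : ℝ),
      2 ≤ A → 1 ≤ Z → Z ≤ A ^ w → 0 ≤ η → M0 * η * (A : ℝ) ^ (KK (Fintype.card σ) w) ≤ 1 →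
      (∀ i ∈ I0, ∀ j, 1 ≤ x i j ∧ x i j ≤ Z) →
      (∀ i ∈ I0, |∑ j, (φ j : ℝ) * Real.log (x i j) - β| ≤ η) →
      (∀ i ∈ I0, ∀ i' ∈ I0, ∑ j, (φ j : ℝ) * Real.log (x i j) =
        ∑ j, (φ j : ℝ) * Real.log (x i' j) → i = i') →
      I0.card ≤ (C1 * A ^ (2 * Fintype.card σ)) ^ Fintype.card σ := by
  classical
  obtain ⟨n, hn⟩ : ∃ n, n = Fintype.card σ := ⟨_, rfl⟩
  obtain ⟨D, hD⟩ : ∃ D, D = DD n w := ⟨_, rfl⟩
  obtain ⟨M0, hM0⟩ := exists_data σ D
  refine ⟨M0, (4 * n * w * D + 1) ^ n * (mm n w * ((2 * D + 1) ^ n + 1)), ?_⟩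
  intro ι A Z η φ I0 x β hA2 hZ hZA hη0 hη hx hrel hinj
  rw [← hn] at hη ⊢
  obtain ⟨R, hR⟩ : ∃ R, R = 2 * n * D * A := ⟨_, rfl⟩
  have hA1 : 1 ≤ A := by omega
  have hval0 : ∀ (φ : σ → ℤ) (i i' : ι), ∑ j, (φ j : ℝ) * (Real.log (x i j) - Real.log (x i' j)) =
      ∑ j, (φ j : ℝ) * Real.log (x i j) - ∑ j, (φ j : ℝ) * Real.log (x i' j) := by
    intro φ i i'
    rw [← Finset.sum_sub_distrib]
    apply Finset.sum_congr rfl
    intro j _
    ring
  have hmain := coset_induction (ι := ι) (σ := σ) D M0 (mm n w) ((w * A * R + 1) ^ n)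
    (by unfold mm; omega) (Nat.pow_pos (Nat.succ_pos _)) hM0 (fun i j => Real.log (x i j)) φ I0
    (fun i (j : σ) => ⌊Real.log (x i j) * R⌋₊)
    (Fintype.piFinset (fun _ : σ => Finset.range (w * A * R + 1)))
    (by
      rw [Fintype.card_piFinset, Finset.prod_const, Finset.card_univ, Finset.card_range, hn])
    (by
      intro i hi
      rw [Fintype.mem_piFinset]
      intro j
      rw [Finset.mem_range, Nat.lt_succ_iff]
      apply Nat.floor_le_of_le
      push_cast
      apply mul_le_mul_of_nonneg_right _ (Nat.cast_nonneg _)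
      have h1 : (1 : ℝ) ≤ x i j := by exact_mod_cast (hx i hi j).1
      have h2 : (x i j : ℝ) ≤ (A : ℝ) ^ w := by
        exact_mod_cast (hx i hi j).2.trans hZA
      have h3 : (1 : ℝ) ≤ A := by exact_mod_cast hA1
      calc Real.log (x i j) ≤ Real.log ((A : ℝ) ^ w) := Real.log_le_log (by linarith) h2
        _ = w * Real.log A := by rw [Real.log_pow]
        _ ≤ w * A := by
            apply mul_le_mul_of_nonneg_left _ (Nat.cast_nonneg _)
            have := Real.log_le_sub_one_of_pos (by linarith : (0 : ℝ) < A)
            linarith)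
    (by
      intro J m φ' F hFI hm1 hmM hφJ hφ0 _ hlab hrel' hind
      rcases F.eq_empty_or_nonempty with rfl | ⟨i0, hi0⟩
      · rw [Finset.card_empty]
        unfold mm
        omega
      have hJ : J.Nonempty := by
        by_contra hJ
        rw [Finset.not_nonempty_iff_eq_empty] at hJ
        subst hJ
        apply hφ0
        funext j
        exact hφJ j (Finset.notMem_empty j)
      obtain ⟨j0, hj0, hmax⟩ := Finset.exists_max_image J (fun j => |φ' j|) hJ
      have hj00 : φ' j0 ≠ 0 := by
        intro h0
        apply hφ0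
        funext j
        by_cases hj : j ∈ J
        · have h1 := hmax j hj
          simp only [h0, abs_zero] at h1
          exact abs_eq_zero.mp (le_antisymm h1 (abs_nonneg _))
        · exact hφJ j hj
      let a0 : {j // j ∈ J} := ⟨j0, hj0⟩
      let e : Option {b : {j // j ∈ J} // b ≠ a0} ≃ {j // j ∈ J} := Equiv.optionSubtypeNe a0
      have hcardJ : Fintype.card {b : {j // j ∈ J} // b ≠ a0} + 1 = J.card := by
        rw [← Fintype.card_option, Fintype.card_congr e, Fintype.card_coe]
      have hnone : e none = a0 := by simp [e]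
      have hJn : J.card ≤ n := by rw [hn]; exact Finset.card_le_univ J
      have hJ1 : 1 ≤ J.card := by omega
      have hDJ : DD J.card w ≤ D := by rw [hD]; exact DD_mono hJ1 hJn w
      have hMpos : (1 : ℝ) ≤ (M0 : ℝ) := by exact_mod_cast hm1.trans hmM
      have hsumJ : ∀ (c : σ → ℤ) (d : σ → ℝ), (∀ j ∉ J, c j = 0) →
          ∑ j, (c (e j).1 : ℝ) * d (e j).1 = ∑ j, (c j : ℝ) * d j := by
        intro c d hc
        rw [Fintype.sum_equiv e (fun j => (c (e j).1 : ℝ) * d (e j).1)
          (fun j : {j // j ∈ J} => (c j.1 : ℝ) * d j.1) (fun _ => rfl),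
          Finset.sum_coe_sort J (fun j => (c j : ℝ) * d j)]
        apply Finset.sum_subset (Finset.subset_univ J)
        intro j _ hj
        rw [hc j hj, Int.cast_zero, zero_mul]
      have hlt := key_arch2 (ι := ι) (τ := {b : {j // j ∈ J} // b ≠ a0}) J.card hcardJ.symm A Z w
        hZ hw hA2 hZA (M0 * η) (by positivity)
        (by
          refine le_trans ?_ hη
          apply mul_le_mul_of_nonneg_left _ (by positivity)
          exact pow_le_pow_right₀ (by exact_mod_cast hA1) (KK_mono hJ1 hJn w))
        (fun j => (φ' (e j).1 : ℝ))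
        (by
          rw [hnone]
          show (1 : ℝ) ≤ |(φ' j0 : ℝ)|
          rw [← Int.cast_abs]
          exact_mod_cast Int.one_le_abs hj00)
        (by
          intro j
          rw [hnone]
          show |(φ' (e j).1 : ℝ)| ≤ |(φ' j0 : ℝ)|
          rw [← Int.cast_abs, ← Int.cast_abs]
          exact_mod_cast hmax _ (e j).2)
        F (fun i j => x i (e j).1) (fun _ j => x i0 (e j).1)
        (fun i hi j => hx i (hFI hi) _) (fun i hi j => hx i0 (hFI hi0) _)
        (by
          intro i hi j
          have h3 := congrFun (hlab i hi i0 hi0) (e (some j)).1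
          have hRpos : (0 : ℝ) < R := by
            have : 0 < R := by
              rw [hR, hD]
              have h1 := DD_pos (hJ1.trans hJn) w
              have : 0 < n := by omega
              positivity
            exact_mod_cast this
          have hnn : ∀ i ∈ F, 0 ≤ Real.log (x i (e (some j)).1) * R := by
            intro i hi
            have h1 : (1 : ℝ) ≤ x i (e (some j)).1 := by exact_mod_cast (hx i (hFI hi) _).1
            exact mul_nonneg (Real.log_nonneg h1) hRpos.le
          have h7 := Nat.floor_le (hnn i hi)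
          have h8 := Nat.lt_floor_add_one (Real.log (x i (e (some j)).1) * R)
          have h9 := Nat.floor_le (hnn i0 hi0)
          have h10 := Nat.lt_floor_add_one (Real.log (x i0 (e (some j)).1) * R)
          rw [h3] at h7 h8
          have h11 : |Real.log (x i (e (some j)).1) - Real.log (x i0 (e (some j)).1)| ≤
              1 / (R : ℝ) := by
            rw [le_div_iff₀ hRpos]
            have h12 : |Real.log (x i (e (some j)).1) - Real.log (x i0 (e (some j)).1)| * R =
                |Real.log (x i (e (some j)).1) * R - Real.log (x i0 (e (some j)).1) * R| := by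
              rw [← sub_mul, abs_mul, abs_of_pos hRpos]
            rw [h12, abs_le]
            constructor <;> linarith
          refine h11.trans ?_
          apply one_div_le_one_div_of_le
          · have h1 := DD_pos hJ1 w
            have : 0 < 2 * J.card * DD J.card w * A := by positivity
            exact_mod_cast this
          · have : 2 * J.card * DD J.card w * A ≤ R := by
              rw [hR]
              gcongr
            exact_mod_cast this)
        (by
          intro i hi
          have h1 := hsumJ φ' (fun j => Real.log (x i j) - Real.log (x i0 j)) hφJ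
          have h2 := hrel' i hi i0 hi0
          have h3 : ∑ j, (φ' j : ℝ) * (Real.log (x i j) - Real.log (x i0 j)) =
              m * ∑ j, (φ j : ℝ) * (Real.log (x i j) - Real.log (x i0 j)) := by
            have h4 : ∑ j, ((m * φ j - φ' j : ℤ) : ℝ) * (Real.log (x i j) - Real.log (x i0 j)) =
                m * ∑ j, (φ j : ℝ) * (Real.log (x i j) - Real.log (x i0 j)) -
                ∑ j, (φ' j : ℝ) * (Real.log (x i j) - Real.log (x i0 j)) := by
              rw [Finset.mul_sum, ← Finset.sum_sub_distrib]
              apply Finset.sum_congr rfl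
              intro j _
              push_cast
              ring
            rw [h4] at h2
            linarith
          rw [h1, h3, hval0, abs_mul, abs_of_nonneg (Nat.cast_nonneg m : (0 : ℝ) ≤ m)]
          have h5 := hrel i (hFI hi)
          have h6 := hrel i0 (hFI hi0)
          have h7 : |∑ j, (φ j : ℝ) * Real.log (x i j) - ∑ j, (φ j : ℝ) * Real.log (x i0 j)| ≤
              2 * η := by
            have h8 : ∑ j, (φ j : ℝ) * Real.log (x i j) - ∑ j, (φ j : ℝ) * Real.log (x i0 j) =
                (∑ j, (φ j : ℝ) * Real.log (x i j) - β) -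
                (∑ j, (φ j : ℝ) * Real.log (x i0 j) - β) := by ring
            rw [h8]
            refine (abs_sub _ _).trans ?_
            linarith
          have h9 : (m : ℝ) ≤ M0 := by exact_mod_cast hmM
          have h10 : (1 : ℝ) ≤ w := by exact_mod_cast hw
          calc (m : ℝ) * |∑ j, (φ j : ℝ) * Real.log (x i j) -
                ∑ j, (φ j : ℝ) * Real.log (x i0 j)| ≤ M0 * (2 * η) := by gcongr
            _ = 2 * 1 * (M0 * η) := by ring
            _ ≤ 2 * w * (M0 * η) := by gcongr)
        (by
          intro i hi i' hi' hne c hcD hsum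
          let c' : σ → ℤ := fun j => if h : j ∈ J then c (e.symm ⟨j, h⟩) else 0
          have hc'e : ∀ j, c' (e j).1 = c j := by
            intro j
            have h1 : (e j).1 ∈ J := (e j).2
            simp only [c', dif_pos h1]
            congr 1
            exact e.symm_apply_apply j
          have hc'J : ∀ j ∉ J, c' j = 0 := fun j hj => by simp only [c', dif_neg hj]
          have h1 := hind i' hi' i hi (Ne.symm hne) c' (by
            intro j
            by_cases hj : j ∈ J
            · simp only [c', dif_pos hj]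
              exact (hcD _).trans (by exact_mod_cast hDJ)
            · rw [hc'J j hj, abs_zero]
              exact Nat.cast_nonneg _) hc'J (by
            rw [← hsumJ c' (fun j => Real.log (x i' j) - Real.log (x i j)) hc'J, ← hsum]
            apply Finset.sum_congr rfl
            intro j _
            rw [hc'e]
            ring)
          funext j
          rw [← hc'e j, h1]
          rfl)
      refine lt_of_lt_of_le hlt (mm_mono hJ1 hJn w))
    (by
      intro i hi i' hi' h
      apply hinj i hi i' hi'
      rw [hval0] at h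
      linarith)
  rw [← hn] at hmain
  refine hmain.trans (Nat.pow_le_pow_left ?_ n)
  have h1 : w * A * R + 1 ≤ (4 * n * w * D + 1) * A ^ 2 := by
    rw [hR]
    have h2 : 1 ≤ A ^ 2 := Nat.one_le_pow _ _ hA1
    have h3 : w * A * (2 * n * D * A) = 2 * n * w * D * A ^ 2 := by ring
    have h4 : (4 * n * w * D + 1) * A ^ 2 = 2 * (2 * n * w * D * A ^ 2) + A ^ 2 := by ring
    rw [h3, h4]
    omega
  calc (w * A * R + 1) ^ n * (mm n w * ((2 * D + 1) ^ n + 1))
      ≤ ((4 * n * w * D + 1) * A ^ 2) ^ n * (mm n w * ((2 * D + 1) ^ n + 1)) :=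
        Nat.mul_le_mul_right _ (Nat.pow_le_pow_left h1 n)
    _ = (4 * n * w * D + 1) ^ n * (mm n w * ((2 * D + 1) ^ n + 1)) * A ^ (2 * n) := by
        rw [mul_pow, ← pow_mul]
        ring

end Pool.Agent.Y913.Nb
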