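import Pool.Agent.Y913.Nb.Par2

/-!
The determinant bound modulo a number `q` which is almost a power of `π`.
-/

set_option autoImplicit false

namespace Pool.Agent.Y913.Nb

open Finset Pool.Agent.Y913

theorem key_padic3 {ι τ : Type} [Fintype τ] [DecidableEq τ]
    (n : ℕ) (hn : n = Fintype.card τ + 1)
    (q A Z w L : ℕ) [NeZero q] (hA2 : 2 ≤ A)
    (hZ : 1 ≤ Z) (hZA : Z ≤ A ^ w) (hqA : q ∣ A ^ KK n w) (hL : A ^ KK n w ≤ q * L)
    (hL2 : L ≤ A ^ DD n w) (ψ : τ → ℕ)
    (I : Finset ι) (P Q : ι → Option τ → ℕ)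
    (hP : ∀ t ∈ I, ∀ j, 1 ≤ P t j ∧ P t j ≤ Z) (hQ : ∀ t ∈ I, ∀ j, 1 ≤ Q t j ∧ Q t j ≤ Z)
    (hQu : ∀ t ∈ I, ∀ j, (Q t j).Coprime q)
    (hPQ : ∀ t ∈ I, ∀ j, P t j ≡ Q t j [MOD A])
    (hrel : ∀ t ∈ I, P t none * ∏ j, Q t (some j) ^ ψ j ≡ Q t none * ∏ j, P t (some j) ^ ψ j
      [MOD q])
    (hind : ∀ t ∈ I, ∀ t' ∈ I, t ≠ t' → ∀ c : Option τ → ℤ, (∀ j, |c j| ≤ DD n w) →
      ∑ j, (c j : ℝ) * ((Real.log (P t' j) - Real.log (Q t' j)) -
        (Real.log (P t j) - Real.log (Q t j))) = 0 → c = 0) :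
    I.card < mm n w := by
  have hn1 : 1 ≤ n := by omega
  have hB := BB_pos hn1 w
  have hD := DD_pos hn1 w
  have hcardτ : Fintype.card τ = n - 1 := by omega
  have hDB : DD n w = 2 * BB n w ^ n := rfl
  have hKK : KK n w = BB n w * DD n w := rfl
  have hqle : q ≤ A ^ KK n w := Nat.le_of_dvd (Nat.pow_pos (by omega)) hqA
  have hpig : q ^ (KK n w ^ Fintype.card τ) <
      (A ^ (BB n w ^ n) + 1) ^ (DD n w ^ (Fintype.card τ + 1)) := by
    have e0 : q ^ (KK n w ^ Fintype.card τ) ≤ (A ^ KK n w) ^ (KK n w ^ Fintype.card τ) :=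
      Nat.pow_le_pow_left hqle _
    have e1 : (A ^ KK n w) ^ (KK n w ^ Fintype.card τ) = A ^ (KK n w ^ n) := by
      rw [← pow_mul, hn, pow_succ (KK _ w)]
      congr 1
      ring
    have e2 : KK n w ^ n = BB n w ^ n * DD n w ^ (Fintype.card τ + 1) := by
      rw [hKK, mul_pow, hn]
    refine lt_of_le_of_lt e0 ?_
    rw [e1, e2, pow_mul]
    apply Nat.pow_lt_pow_left (by omega)
    positivity
  have hsize : DD n w ^ (Fintype.card τ + 1) *
      (A ^ (BB n w ^ n) * ((Z ^ (Fintype.card τ + 1)) ^ (DD n w - 1)) ^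
        (Fintype.card τ + 1)) < q := by
    rw [← hn]
    have e1 : DD n w ^ n < (2 ^ DD n w) ^ n := Nat.pow_lt_pow_left Nat.lt_two_pow_self (by omega)
    have e2 : (2 ^ DD n w) ^ n ≤ A ^ (DD n w * n) := by
      rw [← pow_mul]
      exact Nat.pow_le_pow_left hA2 _
    have e3 : ((Z ^ n) ^ (DD n w - 1)) ^ n ≤ A ^ (w * n * (DD n w) * n) := by
      calc ((Z ^ n) ^ (DD n w - 1)) ^ n ≤ (((A ^ w) ^ n) ^ (DD n w - 1)) ^ n := by gcongr
        _ = A ^ (w * (n * ((DD n w - 1) * n))) := by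
            rw [← pow_mul, ← pow_mul, ← pow_mul]
        _ ≤ A ^ (w * n * (DD n w) * n) := by
            apply Nat.pow_le_pow_right (by omega)
            calc w * (n * ((DD n w - 1) * n)) ≤ w * (n * (DD n w * n)) :=
                  Nat.mul_le_mul_left _ (Nat.mul_le_mul_left _
                    (Nat.mul_le_mul_right _ (Nat.sub_le _ _)))
              _ = w * n * DD n w * n := by ring
    have e0 : (DD n w ^ n * (A ^ (BB n w ^ n) * ((Z ^ n) ^ (DD n w - 1)) ^ n)) * L <
        q * L := by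
      calc (DD n w ^ n * (A ^ (BB n w ^ n) * ((Z ^ n) ^ (DD n w - 1)) ^ n)) * L
          ≤ (DD n w ^ n * (A ^ (BB n w ^ n) * A ^ (w * n * (DD n w) * n))) * A ^ DD n w := by
            gcongr
        _ < (A ^ (DD n w * n) * (A ^ (BB n w ^ n) * A ^ (w * n * (DD n w) * n))) * A ^ DD n w := by
            apply Nat.mul_lt_mul_of_pos_right _ (by positivity)
            apply Nat.mul_lt_mul_of_pos_right (lt_of_lt_of_le e1 e2)
            positivity
        _ = A ^ (DD n w * n + (BB n w ^ n + w * n * (DD n w) * n) + DD n w) := by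
            rw [pow_add, pow_add, pow_add]
        _ ≤ A ^ (KK n w) := by
            apply Nat.pow_le_pow_right (by omega)
            rw [hKK]
            have e4 : BB n w ^ n ≤ DD n w := by rw [hDB]; omega
            have e5 : BB n w * DD n w = 14 * n * DD n w + 2 * w * n ^ 2 * DD n w := by
              unfold BB
              ring
            rw [e5]
            have e6 : w * n * DD n w * n = w * n ^ 2 * DD n w := by ring
            rw [e6]
            have e7 : DD n w ≤ n * DD n w := Nat.le_mul_of_pos_left _ hn1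
            have e8 : 14 * n * DD n w = 14 * (n * DD n w) := by ring
            have e9 : 2 * w * n ^ 2 * DD n w = 2 * (w * n ^ 2 * DD n w) := by ring
            have e10 : DD n w * n = n * DD n w := mul_comm _ _
            rw [e8, e9, e10]
            omega
        _ ≤ q * L := hL
    exact Nat.lt_of_mul_lt_mul_right e0
  have key := card_le_padic2 (ι := ι) (τ := τ) q A (KK n w) (DD n w)
    (A ^ (BB n w ^ n)) Z (by omega) hZ hqA hpig hsize ψ I P Q hP hQ
    (fun t ht j => by
      rw [ZMod.isUnit_iff_coprime]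
      exact hQu t ht j)
    (fun t ht j => hPQ t ht (some j))
    (by
      intro t ht
      have := (ZMod.natCast_eq_natCast_iff _ _ _).mpr (hrel t ht)
      push_cast at this
      exact this)
    hind
  rw [← hn] at key
  have hmm : mm n w = 2 ^ ((n + 1) * n) * DD n w ^ n + 1 := rfl
  omega

end Pool.Agent.Y913.Nb
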