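import Pool.Agent.Y913.KeyP

/-!
Solving a multiplicative relation modulo a composite number for one of the coordinates.
-/

set_option autoImplicit false

namespace Pool.Agent.Y913.Nb

open Finset Pool.Agent.Y913

/-- one prime -/
theorem psi_single {τ : Type} [Fintype τ] [DecidableEq τ] {p h g M ν : ℕ} (hp : p.Prime)
    (hh : 1 ≤ h) (h2 : p = 2 → 2 ≤ h) (hgM0 : h < g → ν + g ≤ M) (φ : Option τ → ℤ)
    (hφ : ∀ j, (p : ℤ) ^ ν ∣ φ j) (hφ0 : ¬ (p : ℤ) ^ (ν + 1) ∣ φ none) :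
    ∃ ψ0 : τ → ℕ, ∀ ψ : τ → ℕ, (∀ j, ψ j ≡ ψ0 j [MOD p ^ g]) →
      ∀ P Q : Option τ → ℕ, (∀ j, (P j).Coprime p) → (∀ j, (Q j).Coprime p) →
        (∀ j, P j ≡ Q j [MOD p ^ h]) →
        ∏ j, (ud (p ^ M) (P j) * (ud (p ^ M) (Q j))⁻¹) ^ φ j = 1 →
        P none * ∏ j, Q (some j) ^ ψ j ≡ Q none * ∏ j, P (some j) ^ ψ j [MOD p ^ g] := by
  by_cases hgh : g ≤ h
  · refine ⟨fun _ => 0, ?_⟩
    intro ψ _ P Q _ _ hPQ _
    have h1 : ∀ j, ((P j : ℕ) : ZMod (p ^ g)) = ((Q j : ℕ) : ZMod (p ^ g)) := fun j =>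
      (ZMod.natCast_eq_natCast_iff _ _ _).mpr ((hPQ j).of_dvd (pow_dvd_pow p hgh))
    rw [← ZMod.natCast_eq_natCast_iff]
    push_cast
    simp only [h1]
  rw [not_le] at hgh
  have hgM := hgM0 hgh
  have hgM' : g ≤ M := le_trans (Nat.le_add_left g ν) hgM
  have hNg : NeZero (p ^ g) := ⟨pow_ne_zero _ hp.ne_zero⟩
  have hNM : NeZero (p ^ M) := ⟨pow_ne_zero _ hp.ne_zero⟩
  obtain ⟨ψ0, hψ0⟩ := exists_psi hp hh h2 hgh.le hgM φ hφ hφ0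
  refine ⟨ψ0, ?_⟩
  intro ψ hψ P Q hPp hQp hPQ hrel
  set z : Option τ → (ZMod (p ^ M))ˣ := fun j =>
    ud (p ^ M) (P j) * (ud (p ^ M) (Q j))⁻¹ with hz
  have hPQ' : ∀ j, ((P j : ℕ) : ZMod (p ^ h)) = ((Q j : ℕ) : ZMod (p ^ h)) := fun j =>
    (ZMod.natCast_eq_natCast_iff _ _ _).mpr (hPQ j)
  have h6 := hψ0 z (by
    intro j
    simp only [hz]
    rw [map_mul, map_inv, red_ud _ (hPp j), red_ud _ (hQp j),
      mul_inv_eq_one, ← Units.val_inj,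
      ud_coe (Nat.Coprime.pow_right _ (hPp j)),
      ud_coe (Nat.Coprime.pow_right _ (hQp j))]
    exact hPQ' j) hrel
  have h7 : ∀ j, red p hgM' (z j) = ud (p ^ g) (P j) * (ud (p ^ g) (Q j))⁻¹ := by
    intro j
    simp only [hz]
    rw [map_mul, map_inv, red_ud _ (hPp j), red_ud _ (hQp j)]
  have hord : ∀ j, (ud (p ^ g) (P j) * (ud (p ^ g) (Q j))⁻¹) ^ (p ^ g) = 1 := by
    intro j
    apply pow_eq_one_of_dvd hp
    have e1 : ((ud (p ^ g) (Q j) : (ZMod (p ^ g))ˣ) : ZMod (p ^ g)) = (Q j : ZMod (p ^ g)) :=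
      ud_coe (Nat.Coprime.pow_right _ (hQp j))
    have e2 : ((ud (p ^ g) (P j) : (ZMod (p ^ g))ˣ) : ZMod (p ^ g)) = (P j : ZMod (p ^ g)) :=
      ud_coe (Nat.Coprime.pow_right _ (hPp j))
    have e3 : ((p : ℕ) : ZMod (p ^ g)) ∣ (P j : ZMod (p ^ g)) - (Q j : ZMod (p ^ g)) := by
      have h8 : (p : ℤ) ∣ (P j : ℤ) - (Q j : ℤ) := by
        have h9 := (Nat.modEq_iff_dvd.mp (hPQ j).symm)
        refine dvd_trans ?_ h9
        push_cast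
        exact dvd_pow_self _ (by omega)
      obtain ⟨c, hc⟩ := h8
      refine ⟨(c : ZMod (p ^ g)), ?_⟩
      have h9 := congrArg (fun t : ℤ => (t : ZMod (p ^ g))) hc
      push_cast at h9
      exact h9
    have e4 : ((ud (p ^ g) (P j) * (ud (p ^ g) (Q j))⁻¹ : (ZMod (p ^ g))ˣ) : ZMod (p ^ g)) - 1 =
        ((P j : ZMod (p ^ g)) - (Q j : ZMod (p ^ g))) * ((ud (p ^ g) (Q j))⁻¹ :
          (ZMod (p ^ g))ˣ) := by
      rw [Units.val_mul, e2, sub_mul, ← e1, Units.mul_inv]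
    rw [e4]
    exact Dvd.dvd.mul_right e3 _
  have h8 : ud (p ^ g) (P none) * ∏ j, (ud (p ^ g) (Q (some j))) ^ ψ j =
      ud (p ^ g) (Q none) * ∏ j, (ud (p ^ g) (P (some j))) ^ ψ j := by
    have h9 : red p hgM' (z none) = ∏ j, (red p hgM' (z (some j))) ^ ψ0 j := h6
    simp_rw [h7] at h9
    have h10 : ∀ j, (ud (p ^ g) (P (some j)) * (ud (p ^ g) (Q (some j)))⁻¹) ^ ψ0 j =
        (ud (p ^ g) (P (some j)) * (ud (p ^ g) (Q (some j)))⁻¹) ^ ψ j := by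
      intro j
      rw [pow_eq_pow_iff_modEq]
      exact ((hψ j).of_dvd (orderOf_dvd_of_pow_eq_one (hord (some j)))).symm
    simp_rw [h10, mul_pow, inv_pow] at h9
    rw [Finset.prod_mul_distrib, Finset.prod_inv_distrib, mul_inv_eq_iff_eq_mul] at h9
    rw [h9, mul_right_comm, inv_mul_cancel_right]
    exact mul_comm _ _
  have h10 := congrArg (fun u : (ZMod (p ^ g))ˣ => (u : ZMod (p ^ g))) h8
  simp only [Units.val_mul, Units.coe_prod, Units.val_pow_eq_pow_val] at h10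
  rw [ud_coe (Nat.Coprime.pow_right _ (hPp _)),
    ud_coe (Nat.Coprime.pow_right _ (hQp _))] at h10
  have h11 : ∀ V : Option τ → ℕ, (∀ j, (V j).Coprime p) →
      ∏ j : τ, ((ud (p ^ g) (V (some j)) : (ZMod (p ^ g))ˣ) : ZMod (p ^ g)) ^ ψ j =
      ∏ j : τ, ((V (some j) : ℕ) : ZMod (p ^ g)) ^ ψ j := by
    intro V hV
    apply Finset.prod_congr rfl
    intro j _
    rw [ud_coe (Nat.Coprime.pow_right _ (hV _))]
  rw [h11 _ hPp, h11 _ hQp] at h10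
  rw [← ZMod.natCast_eq_natCast_iff]
  push_cast
  exact h10

/-- congruences modulo coprime numbers -/
lemma modEq_prod {S : Finset ℕ} {m : ℕ → ℕ} (hm : Set.Pairwise (S : Set ℕ) (Function.onFun Nat.Coprime m))
    {a b : ℕ} (h : ∀ p ∈ S, a ≡ b [MOD m p]) : a ≡ b [MOD ∏ p ∈ S, m p] := by
  rw [Nat.modEq_iff_dvd]
  push_cast
  apply Finset.prod_dvd_of_coprime
  · intro p hp p' hp' hne
    have := hm hp hp' hne
    exact Nat.isCoprime_iff_coprime.mpr this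
  · intro p hp
    exact Nat.modEq_iff_dvd.mp (h p hp)

/-- several primes -/
theorem psi_comp {τ : Type} [Fintype τ] [DecidableEq τ] (S : Finset ℕ) (hS : ∀ p ∈ S, p.Prime)
    (h g M ν : ℕ → ℕ) (hh : ∀ p ∈ S, 1 ≤ h p) (h2 : ∀ p ∈ S, p = 2 → 2 ≤ h p)
    (hgM : ∀ p ∈ S, h p < g p → ν p + g p ≤ M p) (φ : Option τ → ℤ)
    (hφ : ∀ p ∈ S, ∀ j, (p : ℤ) ^ ν p ∣ φ j) (hφ0 : ∀ p ∈ S, ¬ (p : ℤ) ^ (ν p + 1) ∣ φ none) :
    ∃ ψ : τ → ℕ, ∀ P Q : Option τ → ℕ, (∀ p ∈ S, ∀ j, (P j).Coprime p) →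
      (∀ p ∈ S, ∀ j, (Q j).Coprime p) →
      (∀ p ∈ S, ∀ j, P j ≡ Q j [MOD p ^ h p]) →
      (∀ p ∈ S, ∏ j, (ud (p ^ M p) (P j) * (ud (p ^ M p) (Q j))⁻¹) ^ φ j = 1) →
        P none * ∏ j, Q (some j) ^ ψ j ≡ Q none * ∏ j, P (some j) ^ ψ j
          [MOD ∏ p ∈ S, p ^ g p] := by
  classical
  have hcop : Set.Pairwise (S : Set ℕ) (Function.onFun Nat.Coprime (fun p => p ^ g p)) := by
    intro p hp p' hp' hne
    exact Nat.Coprime.pow _ _ ((Nat.coprime_primes (hS p hp) (hS p' hp')).mpr hne)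
  have hex : ∀ p : ℕ, ∃ ψ0 : τ → ℕ, p ∈ S → ∀ ψ : τ → ℕ, (∀ j, ψ j ≡ ψ0 j [MOD p ^ g p]) →
      ∀ P Q : Option τ → ℕ, (∀ j, (P j).Coprime p) → (∀ j, (Q j).Coprime p) →
        (∀ j, P j ≡ Q j [MOD p ^ h p]) →
        ∏ j, (ud (p ^ M p) (P j) * (ud (p ^ M p) (Q j))⁻¹) ^ φ j = 1 →
        P none * ∏ j, Q (some j) ^ ψ j ≡ Q none * ∏ j, P (some j) ^ ψ j [MOD p ^ g p] := by
    intro p
    by_cases hp : p ∈ S
    · obtain ⟨ψ0, h0⟩ := psi_single (hS p hp) (hh p hp) (h2 p hp) (hgM p hp) φ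
        (hφ p hp) (hφ0 p hp)
      exact ⟨ψ0, fun _ => h0⟩
    · exact ⟨fun _ => 0, fun h => absurd h hp⟩
  choose ψ0 hψ0 using hex
  have hcrt : ∀ j : τ, ∃ k : ℕ, ∀ p ∈ S, k ≡ ψ0 p j [MOD p ^ g p] := by
    intro j
    obtain ⟨k, hk⟩ := Nat.chineseRemainderOfFinset (fun p => ψ0 p j) (fun p => p ^ g p) S
      (fun p hp => pow_ne_zero _ (hS p hp).ne_zero) hcop
    exact ⟨k, hk⟩
  choose ψ hψ using hcrt
  refine ⟨ψ, ?_⟩
  intro P Q hP hQ hPQ hrel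
  apply modEq_prod hcop
  intro p hp
  exact hψ0 p hp ψ (fun j => hψ j p hp) P Q (hP p hp) (hQ p hp) (hPQ p hp) (hrel p hp)

end Pool.Agent.Y913.Nb
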