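import Pool.Agent.Y913.Nb.CountP
import Pool.Agent.Y913.Nb.Psi3
import Pool.Agent.Y913.Nb.Key3

/-!
Counting integer vectors with different values of a monomial which agree modulo a power of an
integer `r ≥ 2`, not necessarily prime.
-/

set_option autoImplicit false

namespace Pool.Agent.Y913.Nb

open Finset Pool.Agent.Y913

lemma map_ud {N N' a : ℕ} (hd : N' ∣ N) (ha : a.Coprime N) :
    ZMod.unitsMap hd (ud N a) = ud N' a := by
  rw [← Units.val_inj, ud_coe (Nat.Coprime.coprime_dvd_right hd ha)]
  rw [ZMod.unitsMap_val, ud_coe ha, ZMod.cast_natCast hd]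

/-- the part of `r` made of the primes of `S` -/
lemma part_dvd {r : ℕ} (hr : r ≠ 0) {S : Finset ℕ} (hS : S ⊆ r.primeFactors) :
    ∏ p ∈ S, p ^ r.factorization p ∣ r := by
  conv_rhs => rw [← Nat.prod_factorization_pow_eq_self hr]
  rw [Finsupp.prod, Nat.support_factorization]
  exact Finset.prod_dvd_prod_of_subset _ _ _ hS

/-- pigeonhole: one class of primes carries a large part of `r` -/
lemma exists_class {σ : Type} [DecidableEq σ] {r : ℕ} (hr : 2 ≤ r) (J : Finset σ) (f : ℕ → σ)
    (hf : ∀ p ∈ r.primeFactors, f p ∈ J) :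
    ∃ j ∈ J, r ≤ (∏ p ∈ r.primeFactors.filter (fun p => f p = j), p ^ r.factorization p) ^ J.card := by
  by_contra hcon
  push Not at hcon
  have hne : J.Nonempty := by
    obtain ⟨p, hp⟩ := Nat.nonempty_primeFactors.mpr (by omega : 1 < r)
    exact ⟨f p, hf p hp⟩
  have h1 : ∏ j ∈ J, ∏ p ∈ r.primeFactors.filter (fun p => f p = j), p ^ r.factorization p = r := by
    rw [Finset.prod_fiberwise_of_maps_to hf]
    conv_rhs => rw [← Nat.prod_factorization_pow_eq_self (by omega : r ≠ 0)]
    rw [Finsupp.prod, Nat.support_factorization]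
  have h2 : r ^ J.card < r ^ J.card := by
    calc r ^ J.card = (∏ j ∈ J, ∏ p ∈ r.primeFactors.filter (fun p => f p = j),
          p ^ r.factorization p) ^ J.card := by rw [h1]
      _ = ∏ j ∈ J, (∏ p ∈ r.primeFactors.filter (fun p => f p = j),
          p ^ r.factorization p) ^ J.card := by rw [Finset.prod_pow]
      _ < ∏ _j ∈ J, r := Finset.prod_lt_prod_of_nonempty (fun j _ => by
            apply Nat.pow_pos
            apply Finset.prod_pos
            intro p hp
            exact Nat.pow_pos (Nat.prime_of_mem_primeFactors (Finset.mem_filter.mp hp).1).pos)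
            (fun j hj => hcon j hj) hne
      _ = r ^ J.card := by rw [Finset.prod_const]
  exact lt_irrefl _ h2

/-- **counting theorem, powers of an integer** -/
theorem count_padic_val3 (σ : Type) [Fintype σ] [DecidableEq σ] (w : ℕ) :
    ∃ M0 C1 : ℕ, ∀ (ι : Type) (r h Z M Φ : ℕ) (φ : σ → ℤ) (I0 : Finset ι) (x : ι → σ → ℕ)
      (κ : (ZMod (r ^ M))ˣ), 2 ≤ r → 2 ≤ h →
      1 ≤ Z → Z ≤ (r ^ h) ^ w → (∑ j, |φ j| ≤ Φ) →
      M0 * Φ ≤ r ^ h → h * KK (Fintype.card σ) (Fintype.card σ * w) ≤ M →
      (∀ i ∈ I0, ∀ j, 1 ≤ x i j ∧ x i j ≤ Z ∧ (x i j).Coprime r) →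
      (∀ i ∈ I0, ∏ j, (ud (r ^ M) (x i j)) ^ φ j = κ) →
      (∀ i ∈ I0, ∀ i' ∈ I0, ∑ j, (φ j : ℝ) * Real.log (x i j) =
        ∑ j, (φ j : ℝ) * Real.log (x i' j) → i = i') →
      I0.card ≤ (C1 * (r ^ h) ^ Fintype.card σ) ^ Fintype.card σ := by
  classical
  obtain ⟨n, hn⟩ : ∃ n, n = Fintype.card σ := ⟨_, rfl⟩
  obtain ⟨w2, hw2⟩ : ∃ w2, w2 = n * w := ⟨_, rfl⟩
  obtain ⟨D, hD⟩ : ∃ D, D = DD n w2 := ⟨_, rfl⟩
  obtain ⟨M0, hM0⟩ := exists_data σ D
  refine ⟨M0, mm n w2 * ((2 * D + 1) ^ n + 1), ?_⟩
  intro ι r h Z M Φ φ I0 x κ hr2 hh hZ hZA hΦ hMΦ hM hx hrel hinj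
  rw [← hn, ← hw2] at hM
  rw [← hn]
  have hr0 : r ≠ 0 := by omega
  have : NeZero (r ^ h) := ⟨pow_ne_zero _ hr0⟩
  have hval0 : ∀ (φ : σ → ℤ) (i i' : ι), ∑ j, (φ j : ℝ) * (Real.log (x i j) - Real.log (x i' j)) =
      ∑ j, (φ j : ℝ) * Real.log (x i j) - ∑ j, (φ j : ℝ) * Real.log (x i' j) := by
    intro φ i i'
    rw [← Finset.sum_sub_distrib]
    apply Finset.sum_congr rfl
    intro j _
    ring
  have hmain := coset_induction (ι := ι) (σ := σ) D M0 (mm n w2) ((r ^ h) ^ n)
    (by unfold mm; omega) (Nat.pow_pos (Nat.pow_pos (by omega))) hM0 (fun i j => Real.log (x i j)) φ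
    I0 (fun i (j : σ) => ((x i j : ℕ) : ZMod (r ^ h))) Finset.univ
    (by rw [Finset.card_univ, Fintype.card_fun, ZMod.card, hn]) (fun _ _ => Finset.mem_univ _)
    (by
      intro J m φ' F hFI hm1 hmM hφJ hφ0 hφb hlab hrel' hind
      rcases F.eq_empty_or_nonempty with rfl | ⟨i0, hi0⟩
      · rw [Finset.card_empty]
        unfold mm
        omega
      have hJ : (J.filter (fun j => φ' j ≠ 0)).Nonempty := by
        by_contra hJ
        rw [Finset.not_nonempty_iff_eq_empty] at hJ
        apply hφ0
        funext j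
        by_cases hj : j ∈ J
        · by_contra h0
          have : j ∈ J.filter (fun j => φ' j ≠ 0) := Finset.mem_filter.mpr ⟨hj, h0⟩
          rw [hJ] at this
          exact absurd this (Finset.notMem_empty j)
        · exact hφJ j hj
      -- the coordinate of smallest valuation, for each prime
      have hminp : ∀ p : ℕ, ∃ j0 ∈ J.filter (fun j => φ' j ≠ 0),
          ∀ j ∈ J.filter (fun j => φ' j ≠ 0), padicValInt p (φ' j0) ≤ padicValInt p (φ' j) :=
        fun p => Finset.exists_min_image (J.filter (fun j => φ' j ≠ 0))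
          (fun j => padicValInt p (φ' j)) hJ
      choose f hfJ hfmin using hminp
      obtain ⟨j0, hj0J, hclass⟩ := exists_class hr2 J f
        (fun p _ => (Finset.mem_filter.mp (hfJ p)).1)
      obtain ⟨S, hS⟩ : ∃ S, S = r.primeFactors.filter (fun p => f p = j0) := ⟨_, rfl⟩
      rw [← hS] at hclass
      have hSr : S ⊆ r.primeFactors := by rw [hS]; exact Finset.filter_subset _ _
      have hSp : ∀ p ∈ S, p.Prime := fun p hp => Nat.prime_of_mem_primeFactors (hSr hp)
      obtain ⟨rS, hrS⟩ : ∃ rS, rS = ∏ p ∈ S, p ^ r.factorization p := ⟨_, rfl⟩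
      rw [← hrS] at hclass
      have hrSdvd : rS ∣ r := by rw [hrS]; exact part_dvd hr0 hSr
      have hrS2 : 2 ≤ rS := by
        by_contra hlt
        have h1 : rS ≤ 1 := by omega
        have h2 : rS ^ J.card ≤ 1 := pow_le_one' h1 _
        omega
      have hSne : S.Nonempty := by
        by_contra hne
        rw [Finset.not_nonempty_iff_eq_empty] at hne
        rw [hne, Finset.prod_empty] at hrS
        omega
      obtain ⟨hj0, hj00⟩ : j0 ∈ J ∧ φ' j0 ≠ 0 := by
        obtain ⟨p, hp⟩ := hSne
        rw [hS] at hp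
        have h1 := (Finset.mem_filter.mp hp).2
        have h2 := Finset.mem_filter.mp (hfJ p)
        rw [h1] at h2
        exact h2
      let a0 : {j // j ∈ J} := ⟨j0, hj0⟩
      let e : Option {b : {j // j ∈ J} // b ≠ a0} ≃ {j // j ∈ J} := Equiv.optionSubtypeNe a0
      have hcardJ : Fintype.card {b : {j // j ∈ J} // b ≠ a0} + 1 = J.card := by
        rw [← Fintype.card_option, Fintype.card_congr e, Fintype.card_coe]
      have hnone : e none = a0 := by simp [e]
      have hJn : J.card ≤ n := by rw [hn]; exact Finset.card_le_univ J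
      have hJ1 : 1 ≤ J.card := by omega
      have hDJ : DD J.card w2 ≤ D := by rw [hD]; exact DD_mono hJ1 hJn w2
      obtain ⟨ν, hν⟩ : ∃ ν : ℕ → ℕ, ν = fun p => padicValInt p (φ' j0) := ⟨_, rfl⟩
      have hdvd : ∀ p ∈ S, ∀ j, (p : ℤ) ^ ν p ∣ φ' j := by
        intro p hp j
        have : Fact p.Prime := ⟨hSp p hp⟩
        rw [padicValInt_dvd_iff]
        by_cases h0 : φ' j = 0
        · exact Or.inl h0
        · right
          rw [hν]
          show padicValInt p (φ' j0) ≤ padicValInt p (φ' j)
          rw [hS] at hp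
          have h1 := (Finset.mem_filter.mp hp).2
          have h2 := hfmin p j (Finset.mem_filter.mpr ⟨by
            by_contra hj
            exact h0 (hφJ j hj), h0⟩)
          rwa [h1] at h2
      have hndvd : ∀ p ∈ S, ¬ (p : ℤ) ^ (ν p + 1) ∣ φ' j0 := by
        intro p hp
        have : Fact p.Prime := ⟨hSp p hp⟩
        rw [padicValInt_dvd_iff]
        rintro (h3 | h3)
        · exact hj00 h3
        · rw [hν] at h3
          change padicValInt p (φ' j0) + 1 ≤ padicValInt p (φ' j0) at h3
          omega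
      -- the loss
      obtain ⟨L, hL⟩ : ∃ L, L = ∏ p ∈ S, p ^ ν p := ⟨_, rfl⟩
      have hLdvd : (L : ℤ) ∣ φ' j0 := by
        rw [hL]
        push_cast
        apply Finset.prod_dvd_of_coprime
        · intro p hp p' hp' hne
          have := Nat.Coprime.pow (ν p) (ν p') ((Nat.coprime_primes (hSp p hp) (hSp p' hp')).mpr hne)
          have h2 := Nat.isCoprime_iff_coprime.mpr this
          push_cast at h2
          exact h2
        · intro p hp
          exact hdvd p hp j0
      have hLle : L ≤ r ^ h := by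
        have h3 : L ∣ (φ' j0).natAbs := Int.natCast_dvd.mp hLdvd
        have h4 := Nat.le_of_dvd (Int.natAbs_pos.mpr hj00) h3
        have h5 : (((φ' j0).natAbs : ℕ) : ℤ) ≤ ((M0 * Φ : ℕ) : ℤ) := by
          rw [Int.natCast_natAbs]
          push_cast
          refine (hφb j0).trans ?_
          exact mul_le_mul_of_nonneg_left hΦ (Nat.cast_nonneg _)
        exact (h4.trans (by exact_mod_cast h5)).trans hMΦ
      -- the moduli
      obtain ⟨K0, hK0⟩ : ∃ K0, K0 = KK J.card w2 := ⟨_, rfl⟩
      obtain ⟨A, hA⟩ : ∃ A, A = rS ^ h := ⟨_, rfl⟩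
      have hA2 : 2 ≤ A := by
        rw [hA]
        exact hrS2.trans (Nat.le_self_pow (by omega) rS)
      have hrA : r ^ h ≤ A ^ J.card := by
        rw [hA, ← pow_mul, mul_comm h, pow_mul]
        exact Nat.pow_le_pow_left hclass h
      have hZA' : Z ≤ A ^ w2 := by
        calc Z ≤ (r ^ h) ^ w := hZA
          _ ≤ (A ^ J.card) ^ w := Nat.pow_le_pow_left hrA w
          _ = A ^ (J.card * w) := (pow_mul _ _ _).symm
          _ ≤ A ^ w2 := by
              apply Nat.pow_le_pow_right (by omega)
              rw [hw2]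
              exact Nat.mul_le_mul_right w hJn
      have hLA : L ≤ A ^ DD J.card w2 := by
        refine (hLle.trans hrA).trans (Nat.pow_le_pow_right (by omega) ?_)
        have h1 : J.card ≤ BB J.card w2 := by
          unfold BB
          omega
        have h2 : BB J.card w2 ^ 1 ≤ BB J.card w2 ^ J.card :=
          Nat.pow_le_pow_right (by have := BB_pos hJ1 w2; omega) hJ1
        rw [pow_one] at h2
        unfold DD
        omega
      obtain ⟨g, hg⟩ : ∃ g : ℕ → ℕ, g = fun p => r.factorization p * h * K0 - ν p := ⟨_, rfl⟩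
      obtain ⟨q, hq⟩ : ∃ q, q = ∏ p ∈ S, p ^ g p := ⟨_, rfl⟩
      have hq0 : NeZero q := ⟨by
        rw [hq]
        exact Finset.prod_ne_zero_iff.mpr (fun p hp => pow_ne_zero _ (hSp p hp).ne_zero)⟩
      have hAK : A ^ K0 = ∏ p ∈ S, p ^ (r.factorization p * h * K0) := by
        rw [hA, hrS, ← pow_mul, ← Finset.prod_pow]
        apply Finset.prod_congr rfl
        intro p _
        rw [← pow_mul, mul_assoc]
      have hqA : q ∣ A ^ K0 := by
        rw [hAK, hq]
        apply Finset.prod_dvd_prod_of_dvd
        intro p _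
        apply pow_dvd_pow
        rw [hg]
        exact Nat.sub_le _ _
      have hqL : A ^ K0 ≤ q * L := by
        rw [hAK, hq, hL, ← Finset.prod_mul_distrib]
        apply Finset.prod_le_prod' 
        intro p hp
        rw [← pow_add]
        apply Nat.pow_le_pow_right (hSp p hp).pos
        rw [hg]
        show r.factorization p * h * K0 ≤ r.factorization p * h * K0 - ν p + ν p
        omega
      have hKM : h * K0 ≤ M := by
        refine le_trans ?_ hM
        apply Nat.mul_le_mul_left
        rw [hK0]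
        exact KK_mono hJ1 hJn w2
      have hep : ∀ p ∈ S, 1 ≤ r.factorization p := fun p hp =>
        (Nat.prime_of_mem_primeFactors (hSr hp)).factorization_pos_of_dvd hr0
          (Nat.dvd_of_mem_primeFactors (hSr hp))
      have hKpos : 1 ≤ K0 := by
        rw [hK0]
        have := BB_pos hJ1 w2
        have := DD_pos hJ1 w2
        exact Nat.mul_pos (by omega) (by omega)
      obtain ⟨ψ, hψ⟩ := psi_comp (τ := {b : {j // j ∈ J} // b ≠ a0}) S hSp
        (fun p => r.factorization p * h) g (fun p => r.factorization p * M) ν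
        (fun p hp => by have := hep p hp; show 1 ≤ r.factorization p * h; nlinarith)
        (fun p hp _ => by have := hep p hp; show 2 ≤ r.factorization p * h; nlinarith)
        (fun p hp hlt => by
          show ν p + g p ≤ r.factorization p * M
          rw [hg] at hlt ⊢
          simp only at hlt ⊢
          have h1 : ν p + (r.factorization p * h * K0 - ν p) = r.factorization p * h * K0 := by
            omega
          rw [h1, mul_assoc]
          exact Nat.mul_le_mul_left _ hKM)
        (fun j => φ' (e j).1) (fun p hp j => hdvd p hp _)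
        (fun p hp => by rw [hnone]; exact hndvd p hp)
      have hsumJ : ∀ (c : σ → ℤ) (d : σ → ℝ), (∀ j ∉ J, c j = 0) →
          ∑ j, (c (e j).1 : ℝ) * d (e j).1 = ∑ j, (c j : ℝ) * d j := by
        intro c d hc
        rw [Fintype.sum_equiv e (fun j => (c (e j).1 : ℝ) * d (e j).1)
          (fun j : {j // j ∈ J} => (c j.1 : ℝ) * d j.1) (fun _ => rfl),
          Finset.sum_coe_sort J (fun j => (c j : ℝ) * d j)]
        apply Finset.sum_subset (Finset.subset_univ J)
        intro j _ hj
        rw [hc j hj, Int.cast_zero, zero_mul]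
      -- the relation modulo powers of `r`
      have hrelr : ∀ i ∈ F, ∏ j, (ud (r ^ M) (x i (e j).1) * (ud (r ^ M) (x i0 (e j).1))⁻¹) ^
              φ' (e j).1 = 1 := by
        intro i hi
        have h3 : ∏ j, (ud (r ^ M) (x i (e j).1) * (ud (r ^ M) (x i0 (e j).1))⁻¹) ^
            φ' (e j).1 = ∏ j, (ud (r ^ M) (x i j) * (ud (r ^ M) (x i0 j))⁻¹) ^ φ' j := by
          rw [Fintype.prod_equiv e (fun j => (ud (r ^ M) (x i (e j).1) *
            (ud (r ^ M) (x i0 (e j).1))⁻¹) ^ φ' (e j).1)
            (fun j : {j // j ∈ J} => (ud (r ^ M) (x i j.1) *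
            (ud (r ^ M) (x i0 j.1))⁻¹) ^ φ' j.1) (fun _ => rfl),
            Finset.prod_coe_sort J (fun j => (ud (r ^ M) (x i j) *
            (ud (r ^ M) (x i0 j))⁻¹) ^ φ' j)]
          apply Finset.prod_subset (Finset.subset_univ J)
          intro j _ hj
          rw [hφJ j hj, zpow_zero]
        rw [h3]
        have h4 := ud_of_log (r ^ M) (x i) (x i0) (fun j => (hx i (hFI hi) j).1)
          (fun j => (hx i0 (hFI hi0) j).1)
          (fun j => Nat.Coprime.pow_right _ (hx i (hFI hi) j).2.2)
          (fun j => Nat.Coprime.pow_right _ (hx i0 (hFI hi0) j).2.2)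
          (fun j => m * φ j - φ' j) (hrel' i hi i0 hi0)
        have h5 : ∏ j, (ud (r ^ M) (x i j) * (ud (r ^ M) (x i0 j))⁻¹) ^ φ j = 1 := by
          simp_rw [mul_zpow, inv_zpow]
          rw [Finset.prod_mul_distrib, Finset.prod_inv_distrib, hrel i (hFI hi),
            hrel i0 (hFI hi0), mul_inv_cancel]
        have h6 : ∏ j, (ud (r ^ M) (x i j) * (ud (r ^ M) (x i0 j))⁻¹) ^ φ' j =
            (∏ j, (ud (r ^ M) (x i j) * (ud (r ^ M) (x i0 j))⁻¹) ^ φ j) ^ (m : ℤ) *
            (∏ j, (ud (r ^ M) (x i j) * (ud (r ^ M) (x i0 j))⁻¹) ^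
              ((m : ℤ) * φ j - φ' j))⁻¹ := by
          rw [← Finset.prod_zpow, ← Finset.prod_inv_distrib, ← Finset.prod_mul_distrib]
          apply Finset.prod_congr rfl
          intro j _
          rw [← zpow_mul, ← zpow_neg, ← zpow_add]
          congr 1
          ring
        rw [h6, h5, h4, one_zpow, inv_one, mul_one]
      have hcopS : ∀ i ∈ F, ∀ p ∈ S, ∀ j, (x i j).Coprime p := fun i hi p hp j =>
        Nat.Coprime.coprime_dvd_right (Nat.dvd_of_mem_primeFactors (hSr hp)) (hx i (hFI hi) j).2.2
      have hmodr : ∀ i ∈ F, ∀ j, x i j ≡ x i0 j [MOD r ^ h] := fun i hi j =>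
        (ZMod.natCast_eq_natCast_iff _ _ _).mp (congrFun (hlab i hi i0 hi0) j)
      have hlt := key_padic3 (ι := ι) (τ := {b : {j // j ∈ J} // b ≠ a0}) J.card hcardJ.symm
        q A Z w2 L hA2 hZ hZA' (by rw [← hK0]; exact hqA) (by rw [← hK0]; exact hqL) hLA ψ
        F (fun i j => x i (e j).1) (fun _ j => x i0 (e j).1)
        (fun i hi j => ⟨(hx i (hFI hi) _).1, (hx i (hFI hi) _).2.1⟩)
        (fun i hi j => ⟨(hx i0 (hFI hi0) _).1, (hx i0 (hFI hi0) _).2.1⟩)
        (fun i hi j => by
          rw [hq]
          apply Nat.Coprime.prod_right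
          intro p hp
          exact Nat.Coprime.pow_right _ (hcopS i0 hi0 p hp _))
        (fun i hi j => (hmodr i hi _).of_dvd (by
          rw [hA]
          exact pow_dvd_pow_of_dvd hrSdvd h))
        (fun i hi => by
          rw [hq]
          apply hψ (fun j => x i (e j).1) (fun j => x i0 (e j).1)
          · intro p hp j
            exact hcopS i hi p hp _
          · intro p hp j
            exact hcopS i0 hi0 p hp _
          · intro p hp j
            apply (hmodr i hi _).of_dvd
            rw [pow_mul]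
            exact pow_dvd_pow_of_dvd (Nat.ordProj_dvd r p) h
          · intro p hp
            have hd : p ^ (r.factorization p * M) ∣ r ^ M := by
              rw [pow_mul]
              exact pow_dvd_pow_of_dvd (Nat.ordProj_dvd r p) M
            have h1 := congrArg (ZMod.unitsMap hd) (hrelr i hi)
            rw [map_prod, map_one] at h1
            rw [← h1]
            apply Finset.prod_congr rfl
            intro j _
            rw [map_zpow, map_mul, map_inv,
              map_ud hd (Nat.Coprime.pow_right _ (hx i (hFI hi) _).2.2),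
              map_ud hd (Nat.Coprime.pow_right _ (hx i0 (hFI hi0) _).2.2)])
        (by
          intro i hi i' hi' hne c hcD hsum
          let c' : σ → ℤ := fun j => if h : j ∈ J then c (e.symm ⟨j, h⟩) else 0
          have hc'e : ∀ j, c' (e j).1 = c j := by
            intro j
            have h1 : (e j).1 ∈ J := (e j).2
            simp only [c', dif_pos h1]
            congr 1
            exact e.symm_apply_apply j
          have hc'J : ∀ j ∉ J, c' j = 0 := fun j hj => by simp only [c', dif_neg hj]
          have h1 := hind i' hi' i hi (Ne.symm hne) c' (by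
            intro j
            by_cases hj : j ∈ J
            · simp only [c', dif_pos hj]
              exact (hcD _).trans (by exact_mod_cast hDJ)
            · rw [hc'J j hj, abs_zero]
              exact Nat.cast_nonneg _) hc'J (by
            rw [← hsumJ c' (fun j => Real.log (x i' j) - Real.log (x i j)) hc'J, ← hsum]
            apply Finset.sum_congr rfl
            intro j _
            rw [hc'e]
            ring)
          funext j
          rw [← hc'e j, h1]
          rfl)
      exact lt_of_lt_of_le hlt (mm_mono hJ1 hJn w2))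
    (by
      intro i hi i' hi' h
      apply hinj i hi i' hi'
      rw [hval0] at h
      linarith)
  rw [← hn] at hmain
  refine hmain.trans (Nat.pow_le_pow_left (le_of_eq ?_) n)
  ring

end Pool.Agent.Y913.Nb
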