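import Pool.Agent.Y913.Nb.PadN3

/-!
Pairs of products of powers of few integers whose sum or difference is small up to a divisor
composed of few small integers.
-/

set_option autoImplicit false

namespace Pool.Agent.Y913.Nb

open Finset Pool.Agent.Y913

/-- the exceptional pairs -/
def Exc3 (n : ℕ) (δ η K Y : ℝ) (q : ℕ × ℕ) : Prop :=
  0 < q.1 ∧ q.1 < q.2 ∧ Nat.Coprime q.1 q.2 ∧ NB n Y q.1 ∧ NB n Y q.2 ∧
    Y ^ K ≤ (q.2 : ℝ) ∧ ∃ d w : ℕ, (d * w = q.2 - q.1 ∨ d * w = q.2 + q.1) ∧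
      NB n (Y ^ η) d ∧ (w : ℝ) ≤ (q.2 : ℝ) ^ (1 - δ)

/-- one of the factors is large -/
lemma exists_heavy {n : ℕ} {f : Fin n → ℕ} {d : ℕ} (hd : d = ∏ i, f i) (hd2 : 2 ≤ d) :
    ∃ i, d ≤ f i ^ n := by
  by_contra hcon
  push Not at hcon
  have hn : n ≠ 0 := by
    rintro rfl
    simp at hd
    omega
  have hpos : ∀ i, 0 < f i := by
    intro i
    apply Nat.pos_of_ne_zero
    intro h0
    have : d = 0 := by
      rw [hd]
      exact Finset.prod_eq_zero (Finset.mem_univ i) h0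
    omega
  have : Nonempty (Fin n) := ⟨⟨0, Nat.pos_of_ne_zero hn⟩⟩
  have h1 : ∏ i, f i ^ n < ∏ _i : Fin n, d :=
    Finset.prod_lt_prod_of_nonempty (fun i _ => Nat.pow_pos (hpos i)) (fun i _ => hcon i)
      Finset.univ_nonempty
  rw [Finset.prod_pow, ← hd, Finset.prod_const, Finset.card_univ, Fintype.card_fin] at h1
  exact lt_irrefl _ h1

lemma exc3_cases {n : ℕ} {δ η K Y : ℝ} (hδ : 0 < δ) {q : ℕ × ℕ} (h : Exc3 n δ η K Y q) :
    Near2 n (δ / 2) K Y q ∨ ∃ r : ℕ, 2 ≤ r ∧ (r : ℝ) ≤ Y ^ η ∧ ∃ s : ℤ, (s = 1 ∨ s = -1) ∧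
      Pad3 n (δ / (2 * (n + 1))) K Y r s q := by
  obtain ⟨h1, h2, h3, h4, h5, h6, d, w, h7, h8, h10⟩ := h
  have hq2 : (1 : ℝ) < q.2 := by exact_mod_cast (by omega : 1 < q.2)
  have hq20 : (0 : ℝ) < q.2 := by linarith
  by_cases hd : (d : ℝ) ≤ (q.2 : ℝ) ^ (δ / 2)
  · left
    refine ⟨h1, h2, h3, h4, h5, h6, ?_⟩
    have h11 : ((d * w : ℕ) : ℝ) ≤ (q.2 : ℝ) ^ (1 - δ / 2) := by
      push_cast
      calc (d : ℝ) * w ≤ (q.2 : ℝ) ^ (δ / 2) * (q.2 : ℝ) ^ (1 - δ) := by gcongr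
        _ = (q.2 : ℝ) ^ (1 - δ / 2) := by
            rw [← Real.rpow_add hq20]
            congr 1
            ring
    rcases h7 with h7 | h7
    · rwa [h7] at h11
    · exfalso
      rw [h7] at h11
      have h12 : (q.2 : ℝ) ^ (1 - δ / 2) ≤ (q.2 : ℝ) ^ (1 : ℝ) :=
        Real.rpow_le_rpow_of_exponent_le hq2.le (by linarith)
      rw [Real.rpow_one] at h12
      push_cast at h11
      have h13 : (0 : ℝ) < q.1 := by exact_mod_cast h1
      linarith
  · right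
    rw [not_le] at hd
    have hd1 : (1 : ℝ) < d := lt_trans (Real.one_lt_rpow hq2 (by positivity)) hd
    have hd2 : 2 ≤ d := by
      have : 1 < d := by exact_mod_cast hd1
      omega
    obtain ⟨x, a, hx, hdx⟩ := h8
    obtain ⟨i, hi⟩ := exists_heavy hdx hd2
    have hr2 : 2 ≤ x i := by
      by_contra hlt
      have h11 : x i ≤ 1 := by omega
      have h12 : (x i ^ a i) ^ n ≤ 1 := pow_le_one' (pow_le_one' h11 _) _
      omega
    refine ⟨x i, hr2, (hx i).2, ?_⟩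
    have hdvd : x i ^ a i ∣ d := by
      rw [hdx]
      exact Finset.dvd_prod_of_mem (fun i => x i ^ a i) (Finset.mem_univ i)
    have hn : n ≠ 0 := by
      rintro rfl
      exact absurd i.2 (Nat.not_lt_zero _)
    have hn0 : (0 : ℝ) < n := by exact_mod_cast Nat.pos_of_ne_zero hn
    have hbig : (q.2 : ℝ) ^ (δ / (2 * (n + 1))) ≤ (x i : ℝ) ^ (a i) := by
      have e1 : (q.2 : ℝ) ^ (δ / 2) ≤ ((x i : ℝ) ^ (a i)) ^ n := by
        refine hd.le.trans ?_
        exact_mod_cast hi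
      have e2 : (q.2 : ℝ) ^ (δ / (2 * (n + 1))) ≤ (q.2 : ℝ) ^ (δ / (2 * n)) := by
        apply Real.rpow_le_rpow_of_exponent_le hq2.le
        apply div_le_div_of_nonneg_left hδ.le (by positivity)
        linarith
      have e3 : (q.2 : ℝ) ^ (δ / (2 * n)) ≤ (x i : ℝ) ^ (a i) := by
        have e4 : ((q.2 : ℝ) ^ (δ / (2 * n))) ^ n ≤ ((x i : ℝ) ^ (a i)) ^ n := by
          refine le_trans (le_of_eq ?_) e1
          rw [← Real.rpow_natCast ((q.2 : ℝ) ^ (δ / (2 * n))) n, ← Real.rpow_mul hq20.le]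
          congr 1
          field_simp
        exact le_of_pow_le_pow_left₀ hn (by positivity) e4
      exact e2.trans e3
    rcases h7 with h7 | h7
    · refine ⟨1, Or.inl rfl, h1, h2, h3, h4, h5, h6, a i, ?_, hbig⟩
      have e1 : ((d * w : ℕ) : ℤ) = (q.2 : ℤ) - 1 * q.1 := by
        rw [h7, Nat.cast_sub h2.le]
        ring
      rw [← e1]
      exact Int.natCast_dvd_natCast.mpr (hdvd.trans (Dvd.intro _ rfl))
    · refine ⟨-1, Or.inr rfl, h1, h2, h3, h4, h5, h6, a i, ?_, hbig⟩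
      have e1 : ((d * w : ℕ) : ℤ) = (q.2 : ℤ) - (-1) * q.1 := by
        rw [h7]
        push_cast
        ring
      rw [← e1]
      exact Int.natCast_dvd_natCast.mpr (hdvd.trans (Dvd.intro _ rfl))

/-- **main counting theorem** -/
theorem exc3_count (n : ℕ) (δ ε : ℝ) (hδ : 0 < δ) (hε : 0 < ε) : ∃ K C η : ℝ, 0 < K ∧ 0 < C ∧
    0 < η ∧ ∀ Y : ℝ, 1 ≤ Y → ∀ Q : Finset (ℕ × ℕ), (∀ q ∈ Q, Exc3 n δ η K Y q) →
      (Q.card : ℝ) ≤ C * Y ^ ε := by
  classical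
  obtain ⟨K1, C1, hK1, hC1, h1⟩ := near_all2 n (δ / 2) ε (by positivity) hε
  obtain ⟨K2, C2, η2, hK2, hC2, hη2, _, h2⟩ := padic_all3 n (δ / (2 * (n + 1))) (ε / 2)
    (by positivity) (by positivity)
  obtain ⟨η, hη⟩ : ∃ η : ℝ, η = min η2 (ε / 2) := ⟨_, rfl⟩
  have hη0 : 0 < η := by rw [hη]; positivity
  have hηη : η ≤ η2 := by rw [hη]; exact min_le_left _ _
  have hηε : η ≤ ε / 2 := by rw [hη]; exact min_le_right _ _
  refine ⟨max K1 K2, C1 + 4 * C2, η, lt_max_of_lt_left hK1, by positivity, hη0, ?_⟩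
  intro Y hY Q hQ
  have hY0 : 0 < Y := by linarith
  obtain ⟨P, hP⟩ : ∃ P : ℕ, P = ⌊Y ^ η⌋₊ := ⟨_, rfl⟩
  have hPY : (P : ℝ) ≤ Y ^ η := by rw [hP]; exact Nat.floor_le (by positivity)
  -- the classes
  let QN := Q.filter (fun q => Near2 n (δ / 2) K1 Y q)
  let QP : ℕ × ℤ → Finset (ℕ × ℕ) := fun t =>
    Q.filter (fun q => 2 ≤ t.1 ∧ (t.1 : ℝ) ≤ Y ^ η ∧
      Pad3 n (δ / (2 * (n + 1))) K2 Y t.1 t.2 q)
  let I : Finset (ℕ × ℤ) := (Finset.range (P + 1)) ×ˢ {1, -1}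
  have hmonoK : ∀ q : ℕ × ℕ, ∀ K' : ℝ, K' ≤ max K1 K2 → Y ^ (max K1 K2) ≤ (q.2 : ℝ) →
      Y ^ K' ≤ (q.2 : ℝ) := fun q K' h h' =>
    (Real.rpow_le_rpow_of_exponent_le hY h).trans h'
  have hcov : Q ⊆ QN ∪ I.biUnion QP := by
    intro q hq
    have hE := hQ q hq
    rcases exc3_cases hδ hE with h | ⟨p, hp, hpY, s, hs, h⟩
    · apply Finset.mem_union_left
      rw [Finset.mem_filter]
      obtain ⟨a1, a2, a3, a4, a5, a6, a7⟩ := h
      exact ⟨hq, a1, a2, a3, a4, a5, hmonoK q K1 (le_max_left _ _) a6, a7⟩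
    · apply Finset.mem_union_right
      rw [Finset.mem_biUnion]
      refine ⟨(p, s), ?_, ?_⟩
      · rw [Finset.mem_product, Finset.mem_range]
        refine ⟨?_, ?_⟩
        · show p < P + 1
          rw [hP]
          have := Nat.le_floor hpY
          omega
        · show s ∈ ({1, -1} : Finset ℤ)
          rcases hs with rfl | rfl <;> simp
      · rw [Finset.mem_filter]
        obtain ⟨a1, a2, a3, a4, a5, a6, a7⟩ := h
        exact ⟨hq, hp, hpY, a1, a2, a3, a4, a5, hmonoK q K2 (le_max_right _ _) a6, a7⟩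
  have hN : (QN.card : ℝ) ≤ C1 * Y ^ ε := h1 Y hY QN (fun q hq => (Finset.mem_filter.mp hq).2)
  have hPt : ∀ t ∈ I, ((QP t).card : ℝ) ≤ C2 * Y ^ (ε / 2) := by
    rintro ⟨p, s⟩ ht
    rcases (QP (p, s)).eq_empty_or_nonempty with he | ⟨q0, hq0⟩
    · rw [he, Finset.card_empty]
      push_cast
      positivity
    · have h3 := (Finset.mem_filter.mp hq0).2
      have hs : s = 1 ∨ s = -1 := by
        have h4 := (Finset.mem_product.mp ht).2
        simpa using h4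
      apply h2 Y hY p h3.1
        (h3.2.1.trans (Real.rpow_le_rpow_of_exponent_le hY hηη)) s hs
      intro q hq
      exact (Finset.mem_filter.mp hq).2.2.2
  have hcard : (Q.card : ℝ) ≤ QN.card + ∑ t ∈ I, ((QP t).card : ℝ) := by
    have h3 : Q.card ≤ QN.card + ∑ t ∈ I, (QP t).card :=
      (Finset.card_le_card hcov).trans ((Finset.card_union_le _ _).trans
        (Nat.add_le_add_left Finset.card_biUnion_le _))
    exact_mod_cast h3
  have hIcard : (I.card : ℝ) ≤ 4 * Y ^ η := by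
    have h3 : I.card ≤ (P + 1) * 2 := by
      rw [Finset.card_product, Finset.card_range]
      apply Nat.mul_le_mul_left
      exact Finset.card_le_two
    have h4 : (1 : ℝ) ≤ Y ^ η := Real.one_le_rpow hY hη0.le
    have h5 : (I.card : ℝ) ≤ ((P : ℝ) + 1) * 2 := by exact_mod_cast h3
    linarith
  calc (Q.card : ℝ) ≤ QN.card + ∑ t ∈ I, ((QP t).card : ℝ) := hcard
    _ ≤ C1 * Y ^ ε + ∑ _t ∈ I, C2 * Y ^ (ε / 2) := add_le_add hN (Finset.sum_le_sum hPt)
    _ = C1 * Y ^ ε + I.card * (C2 * Y ^ (ε / 2)) := by rw [Finset.sum_const, nsmul_eq_mul]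
    _ ≤ C1 * Y ^ ε + 4 * Y ^ η * (C2 * Y ^ (ε / 2)) := by gcongr
    _ = C1 * Y ^ ε + 4 * C2 * (Y ^ η * Y ^ (ε / 2)) := by ring
    _ ≤ C1 * Y ^ ε + 4 * C2 * Y ^ ε := by
        have h3 : Y ^ η * Y ^ (ε / 2) ≤ Y ^ ε := by
          rw [← Real.rpow_add hY0]
          apply Real.rpow_le_rpow_of_exponent_le hY
          linarith
        gcongr
    _ = _ := by ring

end Pool.Agent.Y913.Nb
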