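import Pool.Agent.Y913.Nb.AllN

/-!
Rational numbers close to one with numerator and denominator made of few integers.
-/

set_option autoImplicit false

namespace Pool.Agent.Y913.Nb

open Finset Pool.Agent.Y913

lemma NB.pos {n : ℕ} {Y : ℝ} {m : ℕ} (h : NB n Y m) : 0 < m := by
  obtain ⟨x, a, hx, rfl⟩ := h
  exact Finset.prod_pos (fun i _ => pow_pos (hx i).1 _)

lemma NB.pow {n : ℕ} {Y : ℝ} {m : ℕ} (h : NB n Y m) (k : ℕ) : NB n Y (m ^ k) := by
  obtain ⟨x, a, hx, rfl⟩ := h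
  refine ⟨x, fun i => a i * k, hx, ?_⟩
  rw [← Finset.prod_pow]
  exact Finset.prod_congr rfl (fun i _ => (pow_mul _ _ _).symm)

/-- the rational numbers `u / v ≠ 1` close to one -/
def ratios (n : ℕ) (δ K Y : ℝ) : Set ℚ :=
  {r | ∃ u v : ℕ, NB n Y u ∧ NB n Y v ∧ Y ^ K ≤ (u : ℝ) ∧ u ≠ v ∧
    |(u : ℝ) - (v : ℝ)| ≤ (u : ℝ) ^ (1 - δ) ∧ r = (u : ℚ) / (v : ℚ)}

theorem ratios_card (n : ℕ) (δ ε : ℝ) (hδ : 0 < δ) (hε : 0 < ε) : ∃ K C : ℝ, 0 < K ∧ 0 < C ∧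
    ∀ Y : ℝ, 1 ≤ Y → ∀ T : Finset ℚ, (∀ r ∈ T, r ∈ ratios n δ K Y) →
      (T.card : ℝ) ≤ C * Y ^ ε := by
  classical
  obtain ⟨δ', hδ'⟩ : ∃ δ', δ' = min δ 1 := ⟨_, rfl⟩
  have hδ'0 : 0 < δ' := by rw [hδ']; positivity
  have hδ'1 : δ' ≤ 1 := by rw [hδ']; exact min_le_right _ _
  have hδδ : δ' ≤ δ := by rw [hδ']; exact min_le_left _ _
  obtain ⟨K, C, hK, hC, h⟩ := near_all3 n δ' ε hδ'0 hε
  refine ⟨K, 2 * C, hK, by positivity, ?_⟩
  intro Y hY T hT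
  have hex : ∀ r : ℚ, ∃ u v : ℕ, r ∈ T → NB n Y u ∧ NB n Y v ∧ Y ^ K ≤ (u : ℝ) ∧ u ≠ v ∧
    |(u : ℝ) - (v : ℝ)| ≤ (u : ℝ) ^ (1 - δ) ∧ r = (u : ℚ) / (v : ℚ) := by
    intro r
    by_cases hr : r ∈ T
    · obtain ⟨u, v, h⟩ := hT r hr
      exact ⟨u, v, fun _ => h⟩
    · exact ⟨0, 0, fun h => absurd h hr⟩
  choose u v huv using hex
  have hlogr : ∀ r ∈ T, Real.log (u r) - Real.log (v r) = Real.log (r : ℝ) := by
    intro r hr
    obtain ⟨h1, h2, h3, h4, h5, h6⟩ := huv r hr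
    have hu : (0 : ℝ) < u r := by exact_mod_cast h1.pos
    have hv : (0 : ℝ) < v r := by exact_mod_cast h2.pos
    have h7 : (r : ℝ) = (u r : ℝ) / (v r : ℝ) := by
      rw [congrArg (fun z : ℚ => (z : ℝ)) h6]
      push_cast
      rfl
    rw [h7, Real.log_div hu.ne' hv.ne']
  have hrpos : ∀ r ∈ T, (0 : ℝ) < (r : ℝ) := by
    intro r hr
    obtain ⟨h1, h2, h3, h4, h5, h6⟩ := huv r hr
    have hu : (0 : ℚ) < u r := by exact_mod_cast h1.pos
    have hv : (0 : ℚ) < v r := by exact_mod_cast h2.pos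
    have : (0 : ℚ) < r := by
      rw [h6]
      positivity
    exact_mod_cast this
  have hloginj : ∀ r ∈ T, ∀ r' ∈ T, Real.log (r : ℝ) = Real.log (r' : ℝ) → r = r' := by
    intro r hr r' hr' he
    have := Real.log_injOn_pos (hrpos r hr) (hrpos r' hr') he
    exact_mod_cast this
  -- the two classes
  have hA : ((T.filter (fun r => u r < v r)).card : ℝ) ≤ C * Y ^ ε := by
    have hinj : Set.InjOn (fun r => (u r, v r)) (T.filter (fun r => u r < v r) : Set ℚ) := by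
      intro r hr r' hr' he
      have h1 := Finset.mem_filter.mp (Finset.mem_coe.mp hr)
      have h2 := Finset.mem_filter.mp (Finset.mem_coe.mp hr')
      simp only [Prod.mk.injEq] at he
      rw [(huv r h1.1).2.2.2.2.2, (huv r' h2.1).2.2.2.2.2, he.1, he.2]
    rw [← Finset.card_image_of_injOn hinj]
    apply h Y hY
    · intro q hq
      obtain ⟨r, hr, rfl⟩ := Finset.mem_image.mp hq
      obtain ⟨hrT, hlt⟩ := Finset.mem_filter.mp hr
      obtain ⟨h1, h2, h3, h4, h5, h6⟩ := huv r hrT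
      have hu1 : (1 : ℝ) ≤ u r := by exact_mod_cast h1.pos
      have huvr : (u r : ℝ) ≤ v r := by exact_mod_cast hlt.le
      refine ⟨h1.pos, hlt, h1, h2, h3.trans huvr, ?_⟩
      show ((v r - u r : ℕ) : ℝ) ≤ (v r : ℝ) ^ (1 - δ')
      rw [Nat.cast_sub hlt.le]
      calc (v r : ℝ) - u r ≤ |(u r : ℝ) - v r| := by
            rw [abs_sub_comm]
            exact le_abs_self _
        _ ≤ (u r : ℝ) ^ (1 - δ) := h5
        _ ≤ (u r : ℝ) ^ (1 - δ') := Real.rpow_le_rpow_of_exponent_le hu1 (by linarith)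
        _ ≤ (v r : ℝ) ^ (1 - δ') := Real.rpow_le_rpow (by linarith) huvr (by linarith)
    · intro q hq q' hq' he
      obtain ⟨r, hr, rfl⟩ := Finset.mem_image.mp hq
      obtain ⟨r', hr', rfl⟩ := Finset.mem_image.mp hq'
      have h1 := hlogr r (Finset.mem_filter.mp hr).1
      have h2 := hlogr r' (Finset.mem_filter.mp hr').1
      have h3 : r = r' := by
        apply hloginj r (Finset.mem_filter.mp hr).1 r' (Finset.mem_filter.mp hr').1
        simp only at he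
        linarith
      rw [h3]
  have hB : ((T.filter (fun r => ¬ u r < v r)).card : ℝ) ≤ C * Y ^ ε := by
    have hinj : Set.InjOn (fun r => (v r, u r)) (T.filter (fun r => ¬ u r < v r) : Set ℚ) := by
      intro r hr r' hr' he
      have h1 := Finset.mem_filter.mp (Finset.mem_coe.mp hr)
      have h2 := Finset.mem_filter.mp (Finset.mem_coe.mp hr')
      simp only [Prod.mk.injEq] at he
      rw [(huv r h1.1).2.2.2.2.2, (huv r' h2.1).2.2.2.2.2, he.1, he.2]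
    rw [← Finset.card_image_of_injOn hinj]
    apply h Y hY
    · intro q hq
      obtain ⟨r, hr, rfl⟩ := Finset.mem_image.mp hq
      obtain ⟨hrT, hlt⟩ := Finset.mem_filter.mp hr
      obtain ⟨h1, h2, h3, h4, h5, h6⟩ := huv r hrT
      have hu1 : (1 : ℝ) ≤ u r := by exact_mod_cast h1.pos
      have hlt' : v r < u r := by omega
      refine ⟨h2.pos, hlt', h2, h1, h3, ?_⟩
      show ((u r - v r : ℕ) : ℝ) ≤ (u r : ℝ) ^ (1 - δ')
      rw [Nat.cast_sub hlt'.le]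
      calc (u r : ℝ) - v r ≤ |(u r : ℝ) - v r| := le_abs_self _
        _ ≤ (u r : ℝ) ^ (1 - δ) := h5
        _ ≤ (u r : ℝ) ^ (1 - δ') := Real.rpow_le_rpow_of_exponent_le hu1 (by linarith)
    · intro q hq q' hq' he
      obtain ⟨r, hr, rfl⟩ := Finset.mem_image.mp hq
      obtain ⟨r', hr', rfl⟩ := Finset.mem_image.mp hq'
      have h1 := hlogr r (Finset.mem_filter.mp hr).1
      have h2 := hlogr r' (Finset.mem_filter.mp hr').1
      have h3 : r = r' := by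
        apply hloginj r (Finset.mem_filter.mp hr).1 r' (Finset.mem_filter.mp hr').1
        simp only at he
        linarith
      rw [h3]
  have hcard : (T.card : ℝ) = ((T.filter (fun r => u r < v r)).card : ℝ) +
      ((T.filter (fun r => ¬ u r < v r)).card : ℝ) := by
    have := Finset.card_filter_add_card_filter_not (s := T) (fun r => u r < v r)
    exact_mod_cast this.symm
  rw [hcard]
  linarith

theorem ratios_finite (n : ℕ) (δ ε : ℝ) (hδ : 0 < δ) (hε : 0 < ε) : ∃ K C : ℝ, 0 < K ∧ 0 < C ∧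
    ∀ Y : ℝ, 1 ≤ Y → (ratios n δ K Y).Finite ∧ ((ratios n δ K Y).ncard : ℝ) ≤ C * Y ^ ε := by
  obtain ⟨K, C, hK, hC, h⟩ := ratios_card n δ ε hδ hε
  refine ⟨K, C, hK, hC, fun Y hY => ?_⟩
  have hfin : (ratios n δ K Y).Finite := by
    by_contra hinf
    rw [← Set.Infinite] at hinf
    obtain ⟨Q, hQ1, hQ2⟩ := hinf.exists_subset_card_eq (⌊C * Y ^ ε⌋₊ + 1)
    have h3 := h Y hY Q (fun q hq => hQ1 hq)
    rw [hQ2] at h3
    push_cast at h3
    have := Nat.lt_floor_add_one (C * Y ^ ε)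
    linarith
  refine ⟨hfin, ?_⟩
  rw [Set.ncard_eq_toFinset_card _ hfin]
  exact h Y hY _ (fun q hq => by simpa using hq)

/-- the values of `x ^ 3 / y ^ 2` -/
def hall (n : ℕ) (δ K Y : ℝ) : Set ℚ :=
  {r | ∃ x y : ℕ, NB n Y x ∧ NB n Y y ∧ Y ^ K ≤ (x : ℝ) ∧ x ^ 3 ≠ y ^ 2 ∧
    |(x : ℝ) ^ 3 - (y : ℝ) ^ 2| ≤ (x : ℝ) ^ (3 - δ) ∧ r = (x : ℚ) ^ 3 / (y : ℚ) ^ 2}

theorem hall_finite (n : ℕ) (δ ε : ℝ) (hδ : 0 < δ) (hε : 0 < ε) : ∃ K C : ℝ, 0 < K ∧ 0 < C ∧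
    ∀ Y : ℝ, 1 ≤ Y → (hall n δ K Y).Finite ∧ ((hall n δ K Y).ncard : ℝ) ≤ C * Y ^ ε := by
  obtain ⟨K, C, hK, hC, h⟩ := ratios_finite n (δ / 3) ε (by positivity) hε
  refine ⟨K, C, hK, hC, fun Y hY => ?_⟩
  have hsub : hall n δ K Y ⊆ ratios n (δ / 3) K Y := by
    rintro r ⟨x, y, h1, h2, h3, h4, h5, h6⟩
    have hx1 : (1 : ℝ) ≤ x := by exact_mod_cast h1.pos
    refine ⟨x ^ 3, y ^ 2, h1.pow 3, h2.pow 2, ?_, h4, ?_, ?_⟩
    · push_cast
      calc Y ^ K ≤ (x : ℝ) := h3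
        _ = (x : ℝ) ^ 1 := (pow_one _).symm
        _ ≤ (x : ℝ) ^ 3 := pow_le_pow_right₀ hx1 (by norm_num)
    · push_cast
      refine h5.trans (le_of_eq ?_)
      rw [← Real.rpow_natCast, ← Real.rpow_mul (by linarith)]
      congr 1
      push_cast
      ring
    · rw [h6]
      push_cast
      rfl
  obtain ⟨h1, h2⟩ := h Y hY
  refine ⟨h1.subset hsub, ?_⟩
  refine le_trans ?_ h2
  exact_mod_cast Set.ncard_le_ncard hsub h1

end Pool.Agent.Y913.Nb
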