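import Pool.Agent.Y913.Nb.Abc3
import Pool.Agent.Y913.Nb.Ratio

/-!
Operations on products of powers of few integers.
-/

set_option autoImplicit false

namespace Pool.Agent.Y913.Nb

open Finset Pool.Agent.Y913

lemma NB.of_type {ι : Type} [Fintype ι] {n : ℕ} (hn : Fintype.card ι = n) {Y : ℝ} {m : ℕ}
    (x a : ι → ℕ) (hx : ∀ i, 0 < x i ∧ (x i : ℝ) ≤ Y) (hm : m = ∏ i, x i ^ a i) : NB n Y m := by
  subst hn
  let e := Fintype.equivFin ι
  refine ⟨fun i => x (e.symm i), fun i => a (e.symm i), fun i => hx _, ?_⟩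
  rw [hm]
  exact (Equiv.prod_comp e.symm (fun i => x i ^ a i)).symm

lemma NB.mono_Y {n : ℕ} {Y Y' : ℝ} {m : ℕ} (h : NB n Y m) (hY : Y ≤ Y') : NB n Y' m := by
  obtain ⟨x, a, hx, hm⟩ := h
  exact ⟨x, a, fun i => ⟨(hx i).1, (hx i).2.trans hY⟩, hm⟩

lemma NB.mono_n {n n' : ℕ} {Y : ℝ} {m : ℕ} (h : NB n Y m) (hY : 1 ≤ Y) (hn : n ≤ n') :
    NB n' Y m := by
  obtain ⟨x, a, hx, hm⟩ := h
  apply NB.of_type (ι := Fin n ⊕ Fin (n' - n)) (by
    rw [Fintype.card_sum, Fintype.card_fin, Fintype.card_fin]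
    omega) (Sum.elim x (fun _ => 1)) (Sum.elim a (fun _ => 0))
  · rintro (i | i)
    · exact hx i
    · exact ⟨Nat.one_pos, by push_cast [Sum.elim_inr]; exact hY⟩
  · rw [Fintype.prod_sum_type]
    simp [hm]

lemma NB.mul_base {n : ℕ} {Y : ℝ} {m c : ℕ} (h : NB n Y m) (hc : 0 < c) (hcY : (c : ℝ) ≤ Y) :
    NB (n + 1) Y (c * m) := by
  obtain ⟨x, a, hx, hm⟩ := h
  apply NB.of_type (ι := Option (Fin n)) (by
    rw [Fintype.card_option, Fintype.card_fin]) (fun i => i.elim c x) (fun i => i.elim 1 a)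
  · rintro (_ | i)
    · exact ⟨hc, hcY⟩
    · exact hx i
  · rw [Fintype.prod_option]
    simp [hm]

lemma NB.mul {n n' : ℕ} {Y : ℝ} {m m' : ℕ} (h : NB n Y m) (h' : NB n' Y m') :
    NB (n + n') Y (m * m') := by
  obtain ⟨x, a, hx, hm⟩ := h
  obtain ⟨x', a', hx', hm'⟩ := h'
  apply NB.of_type (ι := Fin n ⊕ Fin n') (by
    rw [Fintype.card_sum, Fintype.card_fin, Fintype.card_fin]) (Sum.elim x x') (Sum.elim a a')
  · rintro (i | i)
    · exact hx i
    · exact hx' i
  · rw [Fintype.prod_sum_type]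
    simp [hm, hm']

lemma exists_split {ι : Type} [DecidableEq ι] (s : Finset ι) (f : ι → ℕ) (g : ℕ)
    (hg : g ∣ ∏ i ∈ s, f i) : ∃ h : ι → ℕ, (∀ i ∈ s, h i ∣ f i) ∧ g = ∏ i ∈ s, h i := by
  classical
  induction s using Finset.induction_on generalizing g with
  | empty =>
    refine ⟨fun _ => 1, fun i hi => absurd hi (Finset.notMem_empty i), ?_⟩
    rw [Finset.prod_empty] at hg ⊢
    exact Nat.dvd_one.mp hg
  | insert a s ha ih =>
    rw [Finset.prod_insert ha] at hg
    obtain ⟨d1, d2, h1, h2, h3⟩ := exists_dvd_and_dvd_of_dvd_mul hg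
    obtain ⟨h, hh1, hh2⟩ := ih d2 h2
    refine ⟨fun i => if i = a then d1 else h i, ?_, ?_⟩
    · intro i hi
      by_cases hia : i = a
      · subst hia
        simpa using h1
      · simp only [if_neg hia]
        exact hh1 i ((Finset.mem_insert.mp hi).resolve_left hia)
    · rw [Finset.prod_insert ha, if_pos rfl, h3, hh2]
      congr 1
      apply Finset.prod_congr rfl
      intro i hi
      have : i ≠ a := fun h => ha (h ▸ hi)
      rw [if_neg this]

/-- a small divisor of a power divides a bounded power -/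
lemma dvd_pow_min {x e g G : ℕ} (hg : g ∣ x ^ e) (hg0 : 0 < g) (hgG : g ≤ G) :
    g ∣ x ^ min e G := by
  rcases le_or_gt e G with h | h
  · rwa [min_eq_left h]
  · rw [min_eq_right h.le]
    rcases Nat.eq_zero_or_pos x with rfl | hx
    · rcases Nat.eq_zero_or_pos G with rfl | hG
      · omega
      · rw [zero_pow (by omega)]
        exact dvd_zero g
    rw [← Nat.factorization_le_iff_dvd hg0.ne' (pow_ne_zero _ hx.ne')]
    intro p
    by_cases hp : g.factorization p = 0
    · rw [hp]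
      exact Nat.zero_le _
    · have hpm : p ∈ g.primeFactors := by
        rw [← Nat.support_factorization, Finsupp.mem_support_iff]
        exact hp
      have hpp := Nat.prime_of_mem_primeFactors hpm
      have hpx : p ∣ x := hpp.dvd_of_dvd_pow ((Nat.dvd_of_mem_primeFactors hpm).trans hg)
      have h1 : g.factorization p ≤ G := by
        have h2 : p ^ g.factorization p ≤ g := Nat.ordProj_le p hg0.ne'
        have h3 : g.factorization p < p ^ g.factorization p := Nat.lt_pow_self hpp.one_lt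
        omega
      rw [Nat.factorization_pow]
      simp only [Finsupp.smul_apply, smul_eq_mul]
      have h4 : 1 ≤ x.factorization p := hpp.factorization_pos_of_dvd hx.ne' hpx
      nlinarith

/-- dividing by a bounded divisor -/
lemma NB.div {n : ℕ} {Y : ℝ} {m g G : ℕ} (h : NB n Y m) (hY : 1 ≤ Y) (hG : 1 ≤ G) (hg : g ∣ m)
    (hgG : g ≤ G) : NB (n + n) (Y ^ (G : ℕ)) (m / g) := by
  classical
  have hm0 := h.pos
  have hg0 : 0 < g := Nat.pos_of_dvd_of_pos hg hm0
  obtain ⟨x, a, hx, hm⟩ := h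
  obtain ⟨f, hf1, hf2⟩ := exists_split Finset.univ (fun i => x i ^ a i) g (by rw [← hm]; exact hg)
  have hfpos : ∀ i, 0 < f i := fun i => by
    apply Nat.pos_of_dvd_of_pos (hf1 i (Finset.mem_univ i))
    exact pow_pos (hx i).1 _
  have hfG : ∀ i, f i ≤ G := by
    intro i
    have h1 : f i ∣ g := by
      rw [hf2]
      exact Finset.dvd_prod_of_mem f (Finset.mem_univ i)
    exact (Nat.le_of_dvd hg0 h1).trans hgG
  have hfd : ∀ i, f i ∣ x i ^ min (a i) G := fun i =>
    dvd_pow_min (hf1 i (Finset.mem_univ i)) (hfpos i) (hfG i)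
  apply NB.of_type (ι := Fin n ⊕ Fin n) (by
    rw [Fintype.card_sum, Fintype.card_fin])
    (Sum.elim x (fun i => x i ^ min (a i) G / f i)) (Sum.elim (fun i => a i - min (a i) G)
    (fun _ => 1))
  · rintro (i | i)
    · refine ⟨(hx i).1, (hx i).2.trans ?_⟩
      calc Y = Y ^ 1 := (pow_one Y).symm
        _ ≤ Y ^ G := pow_le_pow_right₀ hY hG
    · show 0 < x i ^ min (a i) G / f i ∧ ((x i ^ min (a i) G / f i : ℕ) : ℝ) ≤ Y ^ G
      refine ⟨Nat.div_pos (Nat.le_of_dvd (pow_pos (hx i).1 _) (hfd i)) (hfpos i), ?_⟩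
      have h1 : ((x i ^ min (a i) G / f i : ℕ) : ℝ) ≤ ((x i ^ min (a i) G : ℕ) : ℝ) := by
        exact_mod_cast Nat.div_le_self _ _
      refine h1.trans ?_
      push_cast
      calc (x i : ℝ) ^ min (a i) G ≤ Y ^ min (a i) G := pow_le_pow_left₀ (Nat.cast_nonneg _) (hx i).2 _
        _ ≤ Y ^ G := pow_le_pow_right₀ hY (min_le_right _ _)
  · rw [Fintype.prod_sum_type]
    simp only [Sum.elim_inl, Sum.elim_inr, pow_one]
    apply Nat.div_eq_of_eq_mul_left hg0
    rw [hf2, ← Finset.prod_mul_distrib, ← Finset.prod_mul_distrib, hm]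
    apply Finset.prod_congr rfl
    intro i _
    rw [mul_assoc, Nat.div_mul_cancel (hfd i), ← pow_add, Nat.sub_add_cancel (min_le_left _ _)]

/-- products of small spread -/
lemma NB.of_list {s β : ℕ} (hβ : 0 < β) (l : List ℕ) (hl : ∀ x ∈ l, β ≤ x ∧ x ≤ β + s) :
    NB (s + 1) ((β + s : ℕ) : ℝ) l.prod := by
  suffices h : ∃ e : Fin (s + 1) → ℕ, l.prod = ∏ i : Fin (s + 1), (β + i) ^ e i by
    obtain ⟨e, he⟩ := h
    refine ⟨fun i => β + i, e, fun i => ⟨by positivity, ?_⟩, he⟩
    have := i.2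
    exact_mod_cast (by omega : β + (i : ℕ) ≤ β + s)
  induction l with
  | nil => exact ⟨fun _ => 0, by simp⟩
  | cons x l ih =>
    obtain ⟨e, he⟩ := ih (fun y hy => hl y (List.mem_cons_of_mem _ hy))
    obtain ⟨h1, h2⟩ := hl x List.mem_cons_self
    let i0 : Fin (s + 1) := ⟨x - β, by omega⟩
    refine ⟨fun i => e i + if i = i0 then 1 else 0, ?_⟩
    rw [List.prod_cons, he]
    simp_rw [pow_add]
    rw [Finset.prod_mul_distrib, mul_comm]
    congr 1
    rw [Finset.prod_eq_single i0]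
    · rw [if_pos rfl, pow_one]
      show x = β + (x - β)
      omega
    · intro j _ hj
      rw [if_neg hj, pow_zero]
    · intro h
      exact absurd (Finset.mem_univ _) h

lemma pow_le_prod {β : ℕ} (l : List ℕ) (hl : ∀ x ∈ l, β ≤ x) : β ^ l.length ≤ l.prod := by
  induction l with
  | nil => simp
  | cons x l ih =>
    rw [List.length_cons, List.prod_cons, pow_succ, mul_comm]
    exact Nat.mul_le_mul (hl x List.mem_cons_self) (ih (fun y hy => hl y (List.mem_cons_of_mem _ hy)))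

end Pool.Agent.Y913.Nb
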