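import Pool.Agent.Y913.Nb.Rep

/-!
Congruences modulo powers of an integer: coprimality, the doubled relation and the height bound.
-/

set_option autoImplicit false

namespace Pool.Agent.Y913.Nb

open Finset Pool.Agent.Y913

/-- coprimality to a modulus dividing `v ± u` -/
lemma coprime_of_dvd3 {r k : ℕ} (hk : k ≠ 0) {s : ℤ} (hs2 : s * s = 1) {q : ℕ × ℕ}
    (hcop : Nat.Coprime q.1 q.2) (hdvd : ((r ^ k : ℕ) : ℤ) ∣ (q.2 : ℤ) - s * q.1) :
    q.1.Coprime r ∧ q.2.Coprime r := by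
  have key : ∀ p : ℕ, p.Prime → p ∣ r → q.1.Coprime p ∧ q.2.Coprime p := by
    intro p hp hpr
    apply coprime_of_dvd hp hk hs2 hcop
    refine dvd_trans ?_ hdvd
    exact_mod_cast pow_dvd_pow_of_dvd hpr k
  constructor
  · apply Nat.Coprime.symm
    apply Nat.coprime_of_dvd
    intro p hp hpr hpq
    have h1 := (key p hp hpr).1
    have h2 : p ∣ 1 := by
      have := Nat.dvd_gcd hpq (dvd_refl p)
      rwa [h1] at this
    exact hp.one_lt.ne' (Nat.dvd_one.mp h2)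
  · apply Nat.Coprime.symm
    apply Nat.coprime_of_dvd
    intro p hp hpr hpq
    have h1 := (key p hp hpr).2
    have h2 : p ∣ 1 := by
      have := Nat.dvd_gcd hpq (dvd_refl p)
      rwa [h1] at this
    exact hp.one_lt.ne' (Nat.dvd_one.mp h2)

/-- the doubled relation modulo a divisor of `v ± u` -/
lemma doubled_rel3 {n N : ℕ} {s : ℤ} (hs2 : s * s = 1) {q : ℕ × ℕ}
    (hd1 : q.1.Coprime N) (hd2 : q.2.Coprime N)
    (hdvd : (N : ℤ) ∣ (q.2 : ℤ) - s * q.1) (X : Fin n ⊕ Fin n → ℕ)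
    (b : Fin n ⊕ Fin n → ℤ)
    (hrep : ∀ N : ℕ, q.1.Coprime N → q.2.Coprime N → (∀ j, (X j).Coprime N) ∧
        ∏ j, (ud N (X j)) ^ b j = ud N q.2 * (ud N q.1)⁻¹) :
    ∏ j, (ud N (X j)) ^ (2 * b j) = 1 := by
  obtain ⟨_, h2⟩ := hrep N hd1 hd2
  have h3 : ∏ j, (ud N (X j)) ^ (2 * b j) = (∏ j, (ud N (X j)) ^ (b j)) ^ 2 := by
    rw [← Finset.prod_pow]
    apply Finset.prod_congr rfl
    intro j _
    rw [mul_comm, zpow_mul, zpow_ofNat]
  rw [h3, h2, mul_pow, inv_pow, mul_inv_eq_one, ← Units.val_inj,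
    Units.val_pow_eq_pow_val, Units.val_pow_eq_pow_val, ud_coe hd1, ud_coe hd2]
  have h4 : ((q.2 : ℤ) : ZMod N) = ((s * q.1 : ℤ) : ZMod N) := by
    rw [← sub_eq_zero, ← Int.cast_sub, ZMod.intCast_zmod_eq_zero_iff_dvd]
    exact hdvd
  push_cast at h4
  rw [h4, mul_pow]
  have h5 : ((s : ZMod N) ^ 2) = 1 := by
    rw [pow_two]
    exact_mod_cast congrArg (fun z : ℤ => (z : ZMod N)) hs2
  rw [h5, one_mul]

/-- **height bound, powers of an integer** -/
theorem padic_height3 (n : ℕ) (δ : ℝ) (hδ : 0 < δ) : ∃ C : ℝ, ∃ κ : ℕ, 0 < C ∧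
    ∀ Y : ℝ, 1 ≤ Y → ∀ r k : ℕ, 2 ≤ r → ∀ s : ℤ, (s = 1 ∨ s = -1) →
      ∀ q : ℕ × ℕ, 0 < q.1 → q.1 < q.2 → Nat.Coprime q.1 q.2 → NB n Y q.1 → NB n Y q.2 →
      ((r ^ k : ℕ) : ℤ) ∣ (q.2 : ℤ) - s * q.1 →
      (q.2 : ℝ) ^ δ ≤ (r : ℝ) ^ k → Real.log q.2 ≤ C * (r + (1 + Real.log Y)) ^ κ := by
  obtain ⟨C0, κ0, hWB⟩ := Pool.Agent.TH888.W2.weakBaker_all (n + n)
  obtain ⟨B, hB⟩ : ∃ B : ℝ, B = ((C0 : ℝ) + 1) * 8 ^ (κ0 + 1) := ⟨_, rfl⟩
  have hBpos : 0 < B := by rw [hB]; positivity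
  obtain ⟨C, hC, hsolve⟩ := solve_height (κ0 + 1) (δ / B) (by positivity)
  refine ⟨C, κ0 + 1, hC, ?_⟩
  intro Y hY r k hr s hs q h0 h1 hcop hu hv hdvdr hpk
  obtain ⟨p, hp, hpr⟩ := Nat.exists_prime_and_dvd (by omega : r ≠ 1)
  have hple : p ≤ r := Nat.le_of_dvd (by omega) hpr
  obtain ⟨X, b, hX, hb, hΛ, hrep⟩ := exists_rep hY h0 h1 hu hv
  have hq2 : (1 : ℝ) < q.2 := by exact_mod_cast (by omega : 1 < q.2)
  have hq20 : (0 : ℝ) < q.2 := by linarith
  obtain ⟨G, hG⟩ : ∃ G : ℝ, G = Real.log q.2 := ⟨_, rfl⟩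
  have hG0 : 0 < G := by rw [hG]; exact Real.log_pos hq2
  have hlY : 0 ≤ Real.log Y := Real.log_nonneg hY
  rw [← hG]
  have hk : k ≠ 0 := by
    rintro rfl
    rw [pow_zero] at hpk
    have := Real.one_lt_rpow hq2 hδ
    linarith
  have : Fact p.Prime := ⟨hp⟩
  have hs2 : s * s = 1 := by rcases hs with rfl | rfl <;> norm_num
  have hdvd : ((p ^ k : ℕ) : ℤ) ∣ (q.2 : ℤ) - s * q.1 := by
    refine dvd_trans ?_ hdvdr
    exact_mod_cast pow_dvd_pow_of_dvd hpr k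
  obtain ⟨hc1, hc2⟩ := coprime_of_dvd hp hk hs2 hcop hdvd
  have hdbl := doubled_rel (le_refl k) hs2 hc1 hc2 hdvd X b hrep
  have hcX := (hrep (p ^ k) (Nat.Coprime.pow_right _ hc1) (Nat.Coprime.pow_right _ hc2)).1
  let e : Fin (n + n) ≃ Fin n ⊕ Fin n := finSumFinEquiv.symm
  obtain ⟨g1, hg1, hg1'⟩ := log_two_mul_clog Y hY
  obtain ⟨g2, hg2, hg2'⟩ := log_two_mul_clog (1 + G) (by linarith)
  obtain ⟨S, hS⟩ : ∃ S, S = r + g1 + g2 + 3 := ⟨_, rfl⟩
  have h2g : ∀ a : ℕ, a ≤ S → (2 : ℝ) ^ a ≤ 2 ^ S := fun a ha =>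
    pow_le_pow_right₀ (by norm_num) ha
  have hkS := hWB p S (by omega) (fun j => X (e j)) (fun j => 2 * b (e j)) k
    (fun j => ud (p ^ k) (X (e j))) (fun j => ud_coe (hcX _)) (fun j => (hX _).1)
    (by
      intro j
      have h3 := (hX (e j)).2.trans (hg1.trans (h2g g1 (by omega)))
      exact_mod_cast h3)
    (by
      intro j
      have h3 : ((b (e j)).natAbs : ℝ) * Real.log 2 ≤ G := by
        rw [hG, ← Real.log_pow]
        apply Real.log_le_log (by positivity)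
        exact_mod_cast hb (e j)
      have hl2 : 0.6931471803 < Real.log 2 := Real.log_two_gt_d9
      have h4 : (2 * (b (e j)).natAbs : ℝ) ≤ 2 ^ S := by
        calc (2 * (b (e j)).natAbs : ℝ) ≤ 2 * (2 * (1 + G)) := by
              have : (0 : ℝ) ≤ ((b (e j)).natAbs : ℝ) := Nat.cast_nonneg _
              nlinarith
          _ ≤ 2 ^ 2 * 2 ^ g2 := by linarith
          _ = 2 ^ (2 + g2) := by rw [← pow_add]
          _ ≤ 2 ^ S := h2g _ (by omega)
      have h5 : 2 * (b (e j)).natAbs ≤ 2 ^ S := by exact_mod_cast h4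
      rw [abs_mul, ← Int.natCast_natAbs (b (e j))]
      have : |(2 : ℤ)| = 2 := rfl
      rw [this]
      exact_mod_cast h5)
    (by
      intro h
      have h3 := congrArg (fun z : ℚ => Real.log (z : ℝ)) h
      rw [Rat.cast_one, Real.log_one] at h3
      push_cast at h3
      rw [Real.log_prod (fun j _ => zpow_ne_zero _ (by
        have := (hX (e j)).1
        positivity))] at h3
      have h4 : ∑ j, Real.log ((X (e j) : ℝ) ^ (2 * b (e j))) =
          2 * ∑ j, (b j : ℝ) * Real.log (X j) := by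
        rw [Finset.mul_sum]
        rw [← Fintype.sum_equiv e (fun j => 2 * ((b (e j) : ℝ) * Real.log (X (e j))))
          (fun j => 2 * ((b j : ℝ) * Real.log (X j))) (fun _ => rfl)]
        apply Finset.sum_congr rfl
        intro j _
        rw [Real.log_zpow]
        push_cast
        ring
      rw [h4, hΛ] at h3
      have h5 : Real.log q.1 < Real.log q.2 :=
        Real.log_lt_log (by exact_mod_cast h0) (by exact_mod_cast h1)
      linarith)
    (by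
      rw [← hdbl]
      exact Fintype.prod_equiv e _ _ (fun _ => rfl))
  have hS1 : (r : ℝ) ≤ S := by exact_mod_cast (by omega : r ≤ S)
  have hp0 : (1 : ℝ) ≤ r := by exact_mod_cast (by omega : 1 ≤ r)
  have h4 : δ * G ≤ ((C0 : ℝ) + 1) * (S : ℝ) ^ (κ0 + 1) := by
    have h5 := Real.log_le_log (by positivity) hpk
    rw [Real.log_rpow hq20, Real.log_pow, ← hG] at h5
    have h6 : Real.log r ≤ S := by
      have := Real.log_le_sub_one_of_pos (by linarith : (0 : ℝ) < r)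
      linarith
    have h7 : (k : ℝ) ≤ C0 * (S : ℝ) ^ κ0 := by exact_mod_cast hkS
    have h8 : 0 ≤ Real.log r := Real.log_nonneg hp0
    have h9 : (0 : ℝ) ≤ (S : ℝ) := by linarith
    calc δ * G ≤ k * Real.log r := h5
      _ ≤ (C0 * (S : ℝ) ^ κ0) * S := mul_le_mul h7 h6 h8 (by positivity)
      _ = C0 * (S : ℝ) ^ (κ0 + 1) := by rw [pow_succ]; ring
      _ ≤ _ := by
          have : 0 ≤ (S : ℝ) ^ (κ0 + 1) := by positivity
          linarith
  have hlG : 0 ≤ Real.log (1 + G) := Real.log_nonneg (by linarith)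
  have h6 : (S : ℝ) ≤ 8 * ((r + (1 + Real.log Y)) + Real.log (1 + G)) := by
    rw [hS]
    push_cast
    linarith
  have h7 : δ / B * G ≤ ((r + (1 + Real.log Y)) + Real.log (1 + G)) ^ (κ0 + 1) := by
    have h8 : (S : ℝ) ^ (κ0 + 1) ≤
        8 ^ (κ0 + 1) * ((r + (1 + Real.log Y)) + Real.log (1 + G)) ^ (κ0 + 1) := by
      rw [← mul_pow]
      exact pow_le_pow_left₀ (Nat.cast_nonneg _) h6 _
    have h9 : δ / B * G = (δ * G) / B := by ring
    rw [h9, div_le_iff₀ hBpos, hB]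
    have h10 : (0 : ℝ) ≤ (C0 : ℝ) + 1 := by positivity
    calc δ * G ≤ ((C0 : ℝ) + 1) * (S : ℝ) ^ (κ0 + 1) := h4
      _ ≤ ((C0 : ℝ) + 1) * (8 ^ (κ0 + 1) *
          ((r + (1 + Real.log Y)) + Real.log (1 + G)) ^ (κ0 + 1)) := by gcongr
      _ = _ := by ring
  exact hsolve (r + (1 + Real.log Y)) G (by linarith) hG0.le h7

end Pool.Agent.Y913.Nb
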