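import Pool.Agent.Y913.Nb.CountP3
import Pool.Agent.Y913.Nb.Rep3
import Pool.Agent.Y913.Nb.AllN

/-!
Pairs of products of powers of few integers whose sum or difference is divisible by a large power of
a small integer, all heights.
-/

set_option autoImplicit false

namespace Pool.Agent.Y913.Nb

open Finset Pool.Agent.Y913

/-- close modulo powers of `r` -/
def Pad3 (n : ℕ) (δ K Y : ℝ) (r : ℕ) (s : ℤ) (q : ℕ × ℕ) : Prop :=
  0 < q.1 ∧ q.1 < q.2 ∧ Nat.Coprime q.1 q.2 ∧ NB n Y q.1 ∧ NB n Y q.2 ∧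
    Y ^ K ≤ (q.2 : ℝ) ∧ ∃ k : ℕ, ((r ^ k : ℕ) : ℤ) ∣ (q.2 : ℤ) - s * q.1 ∧
      (q.2 : ℝ) ^ δ ≤ (r : ℝ) ^ k

/-- choice of the scale: a power of `r` just above a bound `T` -/
lemma exists_scale {r : ℕ} (hr : 2 ≤ r) {T : ℝ} (hT : 1 ≤ T) : ∃ h : ℕ, 2 ≤ h ∧
    T ≤ (r : ℝ) ^ h ∧ (r : ℝ) ^ h ≤ T * (r : ℝ) ^ 2 ∧
    (h : ℝ) ≤ Real.log T / Real.log r + 2 := by
  have hr1 : (1 : ℝ) < r := by exact_mod_cast (by omega : 1 < r)
  have hr0 : (0 : ℝ) < r := by linarith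
  have hlr : 0 < Real.log r := Real.log_pos hr1
  have hlT : 0 ≤ Real.log T := Real.log_nonneg hT
  have hT0 : 0 < T := by linarith
  have hfl := Nat.floor_le (by positivity : 0 ≤ Real.log T / Real.log r)
  have hfl2 := (Nat.lt_floor_add_one (Real.log T / Real.log r)).le
  refine ⟨⌊Real.log T / Real.log r⌋₊ + 2, by omega, ?_, ?_, ?_⟩
  · have h1 : Real.log T ≤ Real.log ((r : ℝ) ^ (⌊Real.log T / Real.log r⌋₊ + 2)) := by
      rw [Real.log_pow, ← div_le_iff₀ hlr]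
      push_cast
      linarith
    exact (Real.log_le_log_iff hT0 (by positivity)).mp h1
  · rw [pow_add]
    apply mul_le_mul_of_nonneg_right _ (by positivity)
    have h1 : Real.log ((r : ℝ) ^ ⌊Real.log T / Real.log r⌋₊) ≤ Real.log T := by
      rw [Real.log_pow]
      rwa [le_div_iff₀ hlr] at hfl
    exact (Real.log_le_log_iff (by positivity) hT0).mp h1
  · push_cast
    linarith

/-- choice of the exponent `M` -/
lemma exists_expo {r : ℕ} (hr : 2 ≤ r) {T : ℝ} (hT : 1 ≤ T) : ∃ M : ℕ,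
    (r : ℝ) ^ M ≤ T ∧ Real.log T / Real.log r ≤ (M : ℝ) + 1 := by
  have hr1 : (1 : ℝ) < r := by exact_mod_cast (by omega : 1 < r)
  have hr0 : (0 : ℝ) < r := by linarith
  have hlr : 0 < Real.log r := Real.log_pos hr1
  have hlT : 0 ≤ Real.log T := Real.log_nonneg hT
  have hT0 : 0 < T := by linarith
  have hfl := Nat.floor_le (by positivity : 0 ≤ Real.log T / Real.log r)
  refine ⟨⌊Real.log T / Real.log r⌋₊, ?_, (Nat.lt_floor_add_one _).le⟩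
  have h1 : Real.log ((r : ℝ) ^ ⌊Real.log T / Real.log r⌋₊) ≤ Real.log T := by
    rw [Real.log_pow]
    rwa [le_div_iff₀ hlr] at hfl
  exact (Real.log_le_log_iff (by positivity) hT0).mp h1

/-- the numerical part of the choice of parameters -/
lemma expo_large {Y C2 u kk Kδ lr : ℝ} {h M : ℕ} (hY : 2 ≤ Y) (hC2 : 1 ≤ C2)
    (hu1 : u ≤ 1) (hkk : 0 ≤ kk) (hKδ : Kδ = 1 + kk * (Real.log C2 / Real.log 2 + 3))
    (hlr : 0 < lr) (hlrY : lr ≤ Real.log Y)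
    (hh : (h : ℝ) ≤ Real.log (C2 * Y ^ u) / lr + 2)
    (hM : Kδ * Real.log Y / lr ≤ (M : ℝ) + 1) : (h : ℝ) * kk ≤ M := by
  have hY0 : 0 < Y := by linarith
  have hl2 : 0 < Real.log 2 := Real.log_pos (by norm_num)
  have hl2Y : Real.log 2 ≤ Real.log Y := Real.log_le_log (by norm_num) hY
  have hlC : 0 ≤ Real.log C2 := Real.log_nonneg hC2
  have hC20 : 0 < C2 := by linarith
  obtain ⟨a, ha⟩ : ∃ a, a = Real.log Y / lr := ⟨_, rfl⟩
  have ha1 : 1 ≤ a := by rw [ha, one_le_div hlr]; exact hlrY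
  obtain ⟨c, hc⟩ : ∃ c, c = Real.log C2 / Real.log 2 := ⟨_, rfl⟩
  have hc0 : 0 ≤ c := by rw [hc]; positivity
  have h1 : Real.log (C2 * Y ^ u) / lr ≤ (c + 1) * a := by
    rw [Real.log_mul hC20.ne' (by positivity), Real.log_rpow hY0, ha, ← mul_div_assoc]
    apply div_le_div_of_nonneg_right _ hlr.le
    have h2 : Real.log C2 ≤ c * Real.log Y := by
      calc Real.log C2 = c * Real.log 2 := by rw [hc]; field_simp
        _ ≤ c * Real.log Y := mul_le_mul_of_nonneg_left hl2Y hc0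
    have h3 : u * Real.log Y ≤ 1 * Real.log Y :=
      mul_le_mul_of_nonneg_right hu1 (by linarith)
    linarith
  have h2 : (h : ℝ) ≤ (c + 3) * a := by
    have : (c + 3) * a = (c + 1) * a + 2 * a := by ring
    linarith
  have h3 : (1 + kk * (c + 3)) * a ≤ (M : ℝ) + 1 := by
    rw [hKδ, ← hc] at hM
    rw [ha, ← mul_div_assoc]
    exact hM
  have h4 : (h : ℝ) * kk ≤ (c + 3) * a * kk := mul_le_mul_of_nonneg_right h2 hkk
  have h5 : (1 + kk * (c + 3)) * a = a + (c + 3) * a * kk := by ring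
  linarith

/-- the numerical part of the final bound -/
lemma final_bound3 {Y C1 C2 B1 u η κ ε : ℝ} {N : ℕ} {R E : ℝ} (hY : 1 ≤ Y) (hC1 : 0 ≤ C1)
    (hC2 : 0 ≤ C2) (hB1 : 0 ≤ B1) (hR0 : 0 ≤ R) (hR : R ≤ C2 * Y ^ (u + 2 * η))
    (hE0 : 0 ≤ E) (hE : E ≤ 4 * B1 * Y ^ (η * κ))
    (hexp : (u + 2 * η) * (N * N) + η * κ * N ≤ ε) :
    (C1 * R ^ N) ^ N * E ^ N ≤ (C1 ^ N * C2 ^ (N * N) * (4 * B1) ^ N) * Y ^ ε := by
  have hY0 : 0 < Y := by linarith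
  have h1 : (C1 * R ^ N) ^ N ≤ C1 ^ N * C2 ^ (N * N) * Y ^ ((u + 2 * η) * (N * N)) := by
    rw [mul_pow, ← pow_mul, mul_assoc]
    apply mul_le_mul_of_nonneg_left _ (by positivity)
    calc R ^ (N * N) ≤ (C2 * Y ^ (u + 2 * η)) ^ (N * N) := pow_le_pow_left₀ hR0 hR _
      _ = C2 ^ (N * N) * Y ^ ((u + 2 * η) * (N * N)) := by
          rw [mul_pow, ← Real.rpow_natCast (Y ^ (u + 2 * η)), ← Real.rpow_mul hY0.le]
          push_cast
          rfl
  have h2 : E ^ N ≤ (4 * B1) ^ N * Y ^ (η * κ * N) := by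
    calc E ^ N ≤ (4 * B1 * Y ^ (η * κ)) ^ N := pow_le_pow_left₀ hE0 hE _
      _ = (4 * B1) ^ N * Y ^ (η * κ * N) := by
          rw [mul_pow, ← Real.rpow_natCast (Y ^ (η * κ)), ← Real.rpow_mul hY0.le]
  calc (C1 * R ^ N) ^ N * E ^ N
      ≤ (C1 ^ N * C2 ^ (N * N) * Y ^ ((u + 2 * η) * (N * N))) *
        ((4 * B1) ^ N * Y ^ (η * κ * N)) := mul_le_mul h1 h2 (by positivity) (by positivity)
    _ = (C1 ^ N * C2 ^ (N * N) * (4 * B1) ^ N) *
        (Y ^ ((u + 2 * η) * (N * N)) * Y ^ (η * κ * N)) := by ring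
    _ ≤ (C1 ^ N * C2 ^ (N * N) * (4 * B1) ^ N) * Y ^ ε := by
        apply mul_le_mul_of_nonneg_left _ (by positivity)
        rw [← Real.rpow_add hY0]
        exact Real.rpow_le_rpow_of_exponent_le hY hexp

/-- **few pairs are close modulo powers of a small integer** -/
theorem padic_all3 (n : ℕ) (δ ε : ℝ) (hδ : 0 < δ) (hε : 0 < ε) : ∃ K C η : ℝ, 0 < K ∧ 0 < C ∧
    0 < η ∧ η ≤ 1 ∧ ∀ Y : ℝ, 1 ≤ Y → ∀ r : ℕ, 2 ≤ r → (r : ℝ) ≤ Y ^ η → ∀ s : ℤ,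
      (s = 1 ∨ s = -1) → ∀ Q : Finset (ℕ × ℕ), (∀ q ∈ Q, Pad3 n δ K Y r s q) →
      (Q.card : ℝ) ≤ C * Y ^ ε := by
  classical
  obtain ⟨N, hN⟩ : ∃ N, N = Fintype.card (Fin n ⊕ Fin n) := ⟨_, rfl⟩
  obtain ⟨w, hw⟩ : ∃ w : ℕ, w = ⌈4 * (N : ℝ) ^ 2 / ε⌉₊ + 1 := ⟨_, rfl⟩
  have hw1 : 1 ≤ w := by omega
  have hwr : (0 : ℝ) < w := by exact_mod_cast hw1
  have hwr1 : (1 : ℝ) ≤ w := by exact_mod_cast hw1
  have hwε : 1 / (w : ℝ) * (N * N) ≤ ε / 4 := by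
    have h1 : 4 * (N : ℝ) ^ 2 / ε ≤ w := by
      rw [hw]
      push_cast
      have := Nat.le_ceil (4 * (N : ℝ) ^ 2 / ε)
      linarith
    rw [div_le_iff₀ hε] at h1
    rw [one_div, inv_mul_le_iff₀ hwr]
    linarith
  obtain ⟨M0, C1, hcount⟩ := count_padic_val3 (Fin n ⊕ Fin n) w
  rw [← hN] at hcount
  obtain ⟨Ch, κ, hCh, hh⟩ := padic_height3 n δ hδ
  have hκ0 : (0 : ℝ) ≤ κ := Nat.cast_nonneg _
  have hN0 : (0 : ℝ) ≤ N := Nat.cast_nonneg _
  have hM00 : (0 : ℝ) ≤ M0 := Nat.cast_nonneg _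
  obtain ⟨η, hη⟩ : ∃ η : ℝ, η = min (min 1 (1 / ((w : ℝ) * ((κ : ℝ) + 1))))
    (ε / (8 * ((N : ℝ) + 1) ^ 2 * ((κ : ℝ) + 1))) := ⟨_, rfl⟩
  have hη0 : 0 < η := by rw [hη]; positivity
  have hη1 : η ≤ 1 := by rw [hη]; exact (min_le_left _ _).trans (min_le_left _ _)
  have hηκ : η * κ ≤ 1 / w := by
    have h1 : η ≤ 1 / ((w : ℝ) * ((κ : ℝ) + 1)) := by
      rw [hη]
      exact (min_le_left _ _).trans (min_le_right _ _)
    rw [le_div_iff₀ (by positivity)] at h1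
    rw [le_div_iff₀ hwr]
    have h2 : η * ((w : ℝ) * ((κ : ℝ) + 1)) = η * κ * w + η * w := by ring
    have h3 : 0 ≤ η * w := by positivity
    linarith
  have hη2 : η * (8 * ((N : ℝ) + 1) ^ 2 * ((κ : ℝ) + 1)) ≤ ε := by
    have : η ≤ ε / (8 * ((N : ℝ) + 1) ^ 2 * ((κ : ℝ) + 1)) := by rw [hη]; exact min_le_right _ _
    rwa [le_div_iff₀ (by positivity)] at this
  obtain ⟨D, hD, hlog⟩ := log_pow_le_rpow 1 η hη0
  obtain ⟨kk, hkk⟩ : ∃ kk, kk = KK N (N * w) := ⟨_, rfl⟩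
  rw [← hkk] at hcount
  obtain ⟨B1, hB1⟩ : ∃ B1 : ℝ, B1 = (Ch + 1) * (1 + D) ^ κ := ⟨_, rfl⟩
  have hB11 : 1 ≤ B1 := by
    rw [hB1]
    have h1 : 1 ≤ (1 + D) ^ κ := one_le_pow₀ (by linarith)
    have h2 : 0 ≤ Ch * (1 + D) ^ κ := by positivity
    linarith
  obtain ⟨C2, hC2⟩ : ∃ C2 : ℝ, C2 = 1 + M0 * (4 * N * B1) := ⟨_, rfl⟩
  have hC21 : 1 ≤ C2 := by
    rw [hC2]
    have : 0 ≤ M0 * (4 * N * B1) := by positivity
    linarith
  obtain ⟨u, hu⟩ : ∃ u : ℝ, u = 1 / w := ⟨_, rfl⟩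
  have hu0 : 0 ≤ u := by rw [hu]; positivity
  have hu1 : u ≤ 1 := by rw [hu, div_le_one hwr]; exact hwr1
  obtain ⟨Kδ, hKδ⟩ : ∃ Kδ : ℝ, Kδ = 1 + (kk : ℝ) * (Real.log C2 / Real.log 2 + 3) := ⟨_, rfl⟩
  have hl2 : 0 < Real.log 2 := Real.log_pos (by norm_num)
  have hlC : 0 ≤ Real.log C2 := Real.log_nonneg hC21
  have hKδ0 : 0 < Kδ := by rw [hKδ]; positivity
  refine ⟨Kδ / δ, ((C1 : ℝ) + 1) ^ N * C2 ^ (N * N) * (4 * B1) ^ N, η, by positivity,
    by positivity, hη0, hη1, ?_⟩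
  intro Y hY r hr2 hrY s hs Q hQ
  have hY0 : 0 < Y := by linarith
  have hKK : (Y ^ (Kδ / δ)) ^ δ = Y ^ Kδ := by
    rw [← Real.rpow_mul hY0.le]
    congr 1
    field_simp
  rcases lt_or_ge Y 2 with hY2 | hY2
  · have hQe : Q = ∅ := by
      rw [Finset.eq_empty_iff_forall_notMem]
      intro q hq
      obtain ⟨h1, h2, h3, h4, h5, h6, h7⟩ := hQ q hq
      have := nb_lt_two hY2 h5
      omega
    rw [hQe, Finset.card_empty]
    push_cast
    positivity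
  have hYη : 1 ≤ Y ^ η := Real.one_le_rpow hY hη0.le
  have hr0 : r ≠ 0 := by omega
  have hr1 : (1 : ℝ) < r := by exact_mod_cast (by omega : 1 < r)
  have hrp : (0 : ℝ) < r := by linarith
  have hlr : 0 < Real.log r := Real.log_pos hr1
  have hlY : 0 ≤ Real.log Y := Real.log_nonneg hY
  have hs2 : s * s = 1 := by rcases hs with rfl | rfl <;> norm_num
  have hrYle : (r : ℝ) ≤ Y := by
    calc (r : ℝ) ≤ Y ^ η := hrY
      _ ≤ Y ^ (1 : ℝ) := Real.rpow_le_rpow_of_exponent_le hY hη1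
      _ = Y := Real.rpow_one Y
  have hlrY : Real.log r ≤ Real.log Y := Real.log_le_log hrp hrYle
  have hYu1 : 1 ≤ Y ^ u := Real.one_le_rpow hY hu0
  -- the scale
  obtain ⟨h, hh2, hhlow, hhup, hhle⟩ := exists_scale hr2 (T := C2 * Y ^ u)
    (one_le_mul_of_one_le_of_one_le hC21 hYu1)
  have hhup2 : (r : ℝ) ^ h ≤ C2 * Y ^ (u + 2 * η) := by
    refine hhup.trans ?_
    have h1 : (r : ℝ) ^ 2 ≤ Y ^ (2 * η) := by
      calc (r : ℝ) ^ 2 ≤ (Y ^ η) ^ 2 := pow_le_pow_left₀ hrp.le hrY 2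
        _ = Y ^ (2 * η) := by
            rw [← Real.rpow_natCast, ← Real.rpow_mul hY0.le]
            congr 1
            push_cast
            ring
    calc C2 * Y ^ u * (r : ℝ) ^ 2 ≤ C2 * Y ^ u * Y ^ (2 * η) :=
          mul_le_mul_of_nonneg_left h1 (by positivity)
      _ = C2 * Y ^ (u + 2 * η) := by rw [mul_assoc, ← Real.rpow_add hY0]
  obtain ⟨Z, hZ⟩ : ∃ Z : ℕ, Z = ⌊Y⌋₊ := ⟨_, rfl⟩
  have hZ1 : 1 ≤ Z := by rw [hZ]; exact Nat.le_floor (by push_cast; linarith)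
  have hZY : (Z : ℝ) ≤ Y := by rw [hZ]; exact Nat.floor_le hY0.le
  have hYuw : Y = (Y ^ u) ^ w := by
    rw [hu, ← Real.rpow_natCast, ← Real.rpow_mul hY0.le]
    rw [one_div, inv_mul_cancel₀ hwr.ne', Real.rpow_one]
  have hZA : Z ≤ (r ^ h) ^ w := by
    have h0 : Y ^ u ≤ (r : ℝ) ^ h := by
      exact le_trans (le_mul_of_one_le_left (by positivity) hC21) hhlow
    have h1 : Y ≤ ((r : ℝ) ^ h) ^ w := by
      calc Y = (Y ^ u) ^ w := hYuw
        _ ≤ ((r : ℝ) ^ h) ^ w := pow_le_pow_left₀ (by positivity) h0 _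
    have h2 : (Z : ℝ) ≤ ((r : ℝ) ^ h) ^ w := hZY.trans h1
    exact_mod_cast h2
  -- heights
  obtain ⟨H, hH⟩ : ∃ H : ℝ, H = B1 * Y ^ (η * κ) := ⟨_, rfl⟩
  have hYηκ : 1 ≤ Y ^ (η * κ) := Real.one_le_rpow hY (by positivity)
  have hH1 : 1 ≤ H := by rw [hH]; exact one_le_mul_of_one_le_of_one_le hB11 hYηκ
  have hheight : ∀ q ∈ Q, Real.log q.2 ≤ H := by
    intro q hq
    obtain ⟨h1, h2, h3, h4, h5, h6, k, h7, h8⟩ := hQ q hq
    have h9 := hh Y hY r k hr2 s hs q h1 h2 h3 h4 h5 h7 h8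
    have h10 : r + (1 + Real.log Y) ≤ (1 + D) * Y ^ η := by
      have := hlog Y hY
      rw [pow_one] at this
      linarith
    calc Real.log q.2 ≤ Ch * (r + (1 + Real.log Y)) ^ κ := h9
      _ ≤ (Ch + 1) * ((1 + D) * Y ^ η) ^ κ := by
          have h11 : (r + (1 + Real.log Y)) ^ κ ≤ ((1 + D) * Y ^ η) ^ κ := by
            apply pow_le_pow_left₀ (by positivity) h10
          exact mul_le_mul (by linarith) h11 (by positivity) (by positivity)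
      _ = H := by
          rw [hH, hB1, mul_pow, ← Real.rpow_natCast (Y ^ η), ← Real.rpow_mul hY0.le]
          ring
  obtain ⟨E, hE⟩ : ∃ E : ℕ, E = ⌊H / Real.log 2⌋₊ := ⟨_, rfl⟩
  have hE4 : ((2 * E + 1 : ℕ) : ℝ) ≤ 4 * H := by rw [hE]; exact two_E_le hH1
  have hE2 : (E : ℝ) ≤ 2 * H := by
    push_cast at hE4
    linarith
  obtain ⟨Φ, hΦ⟩ : ∃ Φ : ℕ, Φ = 2 * N * E := ⟨_, rfl⟩
  have hΦle : M0 * Φ ≤ r ^ h := by
    have h1 : ((M0 * Φ : ℕ) : ℝ) ≤ (r : ℝ) ^ h := by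
      refine le_trans ?_ hhlow
      rw [hΦ]
      push_cast
      have h2 : (E : ℝ) ≤ 2 * (B1 * Y ^ u) := by
        refine hE2.trans ?_
        rw [hH]
        have h3 : Y ^ (η * κ) ≤ Y ^ u := Real.rpow_le_rpow_of_exponent_le hY (by rw [hu]; exact hηκ)
        have h4 : B1 * Y ^ (η * κ) ≤ B1 * Y ^ u := mul_le_mul_of_nonneg_left h3 (by linarith)
        linarith
      calc (M0 : ℝ) * (2 * N * E) ≤ M0 * (2 * N * (2 * (B1 * Y ^ u))) := by gcongr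
        _ = (M0 * (4 * N * B1)) * Y ^ u := by ring
        _ ≤ C2 * Y ^ u := by
            apply mul_le_mul_of_nonneg_right _ (by positivity)
            rw [hC2]
            linarith
    exact_mod_cast h1
  -- the exponent `M`
  obtain ⟨M, hM1, hM2⟩ := exists_expo hr2 (T := Y ^ Kδ) (Real.one_le_rpow hY hKδ0.le)
  have hMlarge : h * kk ≤ M := by
    have h1 := expo_large (Y := Y) (C2 := C2) (u := u) (kk := kk) (Kδ := Kδ) (lr := Real.log r)
      (h := h) (M := M) hY2 hC21 hu1 (Nat.cast_nonneg _) hKδ hlr hlrY hhle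
      (by rw [Real.log_rpow hY0] at hM2; exact hM2)
    exact_mod_cast h1
  -- representations
  have hex : ∀ q : ℕ × ℕ, ∃ (X : Fin n ⊕ Fin n → ℕ) (b : Fin n ⊕ Fin n → ℤ), q ∈ Q →
      (∀ j, 1 ≤ X j ∧ (X j : ℝ) ≤ Y) ∧ (∀ j, 2 ^ (b j).natAbs ≤ q.2) ∧
      (∑ j, (b j : ℝ) * Real.log (X j) = Real.log q.2 - Real.log q.1) ∧
      ∀ N : ℕ, q.1.Coprime N → q.2.Coprime N → (∀ j, (X j).Coprime N) ∧
        ∏ j, (ud N (X j)) ^ b j = ud N q.2 * (ud N q.1)⁻¹ := by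
    intro q
    by_cases hq : q ∈ Q
    · obtain ⟨h1, h2, h3, h4, h5, h6, h7⟩ := hQ q hq
      obtain ⟨X, b, e1, e2, e3, e4⟩ := exists_rep hY h1 h2 h4 h5
      exact ⟨X, b, fun _ => ⟨e1, e2, e3, e4⟩⟩
    · exact ⟨fun _ => 0, fun _ => 0, fun h => absurd h hq⟩
  choose X b hXb using hex
  have hk0 : ∀ q ∈ Q, ∀ k : ℕ, (q.2 : ℝ) ^ δ ≤ (r : ℝ) ^ k → k ≠ 0 ∧ M ≤ k := by
    intro q hq k h8
    obtain ⟨h1, h2, h3, h4, h5, h6, _⟩ := hQ q hq
    have hq2 : (1 : ℝ) < q.2 := by exact_mod_cast (by omega : 1 < q.2)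
    refine ⟨?_, ?_⟩
    · rintro rfl
      rw [pow_zero] at h8
      have := Real.one_lt_rpow hq2 hδ
      linarith
    · have h10 : (r : ℝ) ^ M ≤ (r : ℝ) ^ k := by
        calc (r : ℝ) ^ M ≤ Y ^ Kδ := hM1
          _ = (Y ^ (Kδ / δ)) ^ δ := hKK.symm
          _ ≤ (q.2 : ℝ) ^ δ := Real.rpow_le_rpow (by positivity) h6 hδ.le
          _ ≤ (r : ℝ) ^ k := h8
      exact (pow_le_pow_iff_right₀ hr1).mp h10
  have hfibers := Finset.card_le_mul_card_image_of_maps_to (s := Q)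
    (t := boxI (Fin n ⊕ Fin n) E) (f := b) (fun q hq => by
      obtain ⟨h1, h2, _⟩ := hQ q hq
      rw [hE]
      exact mem_box_of_height (h1.trans h2) (hXb q hq).2.1 (hheight q hq))
    ((C1 * (r ^ h) ^ N) ^ N) (by
      intro b0 hb0
      apply hcount (ℕ × ℕ) r h Z M Φ (fun j => 2 * b0 j) (Q.filter (fun q => b q = b0)) X 1 hr2
        hh2 hZ1 hZA
      · rw [hΦ]
        calc ∑ j, |2 * b0 j| ≤ ∑ _j : Fin n ⊕ Fin n, (2 * (E : ℤ)) := by
              apply Finset.sum_le_sum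
              intro j _
              rw [abs_mul]
              have h1 := (mem_boxI.mp hb0) j
              have : |(2 : ℤ)| = 2 := rfl
              rw [this]
              linarith
          _ = ((2 * N * E : ℕ) : ℤ) := by
              rw [Finset.sum_const, Finset.card_univ, ← hN, nsmul_eq_mul]
              push_cast
              ring
      · exact hΦle
      · exact hMlarge
      · intro q hq j
        obtain ⟨hqQ, hqb⟩ := Finset.mem_filter.mp hq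
        obtain ⟨h1, h2, h3, h4, h5, h6, k, h7, h8⟩ := hQ q hqQ
        have h9 := (hXb q hqQ).1 j
        obtain ⟨hc1, hc2⟩ := coprime_of_dvd3 (hk0 q hqQ k h8).1 hs2 h3 h7
        exact ⟨h9.1, by rw [hZ]; exact Nat.le_floor h9.2, ((hXb q hqQ).2.2.2 r hc1 hc2).1 j⟩
      · intro q hq
        obtain ⟨hqQ, hqb⟩ := Finset.mem_filter.mp hq
        obtain ⟨h1, h2, h3, h4, h5, h6, k, h7, h8⟩ := hQ q hqQ
        obtain ⟨hc1, hc2⟩ := coprime_of_dvd3 (hk0 q hqQ k h8).1 hs2 h3 h7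
        rw [← hqb]
        refine doubled_rel3 hs2 (Nat.Coprime.pow_right _ hc1) (Nat.Coprime.pow_right _ hc2)
          (dvd_trans ?_ h7) (X q) (b q) (hXb q hqQ).2.2.2
        exact_mod_cast pow_dvd_pow r (hk0 q hqQ k h8).2
      · intro q hq q' hq' heq
        obtain ⟨hqQ, hqb⟩ := Finset.mem_filter.mp hq
        obtain ⟨hqQ', hqb'⟩ := Finset.mem_filter.mp hq'
        obtain ⟨h1, h2, h3, _⟩ := hQ q hqQ
        obtain ⟨h1', h2', h3', _⟩ := hQ q' hqQ'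
        apply eq_of_log_ratio h1 (h1.trans h2) h3 h1' (h1'.trans h2') h3'
        rw [← (hXb q hqQ).2.2.1, ← (hXb q' hqQ').2.2.1, hqb, hqb']
        push_cast at heq
        simp only [mul_assoc] at heq
        rw [← Finset.mul_sum, ← Finset.mul_sum] at heq
        linarith)
  rw [card_boxI, ← hN] at hfibers
  have hQr : (Q.card : ℝ) ≤ ((C1 : ℝ) * ((r : ℝ) ^ h) ^ N) ^ N * ((2 * (E : ℝ) + 1)) ^ N := by
    exact_mod_cast hfibers
  refine hQr.trans ?_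
  have hfin := final_bound3 (Y := Y) (C1 := (C1 : ℝ) + 1) (C2 := C2) (B1 := B1) (u := u) (η := η)
    (κ := κ) (ε := ε) (N := N) (R := (r : ℝ) ^ h) (E := 2 * (E : ℝ) + 1) hY (by positivity)
    (by positivity) (by positivity) (by positivity) hhup2 (by positivity)
    (by
      push_cast at hE4
      rw [hH, ← mul_assoc] at hE4
      exact hE4)
    (by
      have h1 : u * (N * N) ≤ ε / 4 := by rw [hu]; exact hwε
      have h4 : 4 * ((N : ℝ) * N) + 2 * (κ * N) ≤ 8 * ((N : ℝ) + 1) ^ 2 * (κ + 1) := by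
        have e1 : 0 ≤ (N : ℝ) * κ := by positivity
        have e2 : 0 ≤ (N : ℝ) * N * κ := by positivity
        have e3 : 8 * ((N : ℝ) + 1) ^ 2 * (κ + 1) = 8 * (N * N * κ) + 16 * (N * κ) + 8 * κ +
          8 * (N * N) + 16 * N + 8 := by ring
        have e4 : 0 ≤ (N : ℝ) * N := by positivity
        linarith
      have h5 := mul_le_mul_of_nonneg_left h4 hη0.le
      have h6 : (u + 2 * η) * (N * N) + η * κ * N =
        u * (N * N) + η * (4 * ((N : ℝ) * N) + 2 * (κ * N)) / 2 := by ring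
      rw [h6]
      linarith)
  refine le_trans ?_ hfin
  apply mul_le_mul_of_nonneg_right _ (by positivity)
  apply pow_le_pow_left₀ (by positivity)
  apply mul_le_mul_of_nonneg_right _ (by positivity)
  linarith

end Pool.Agent.Y913.Nb
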