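import Pool.Agent.Y913.Bk.Weak

/-!
The weak lower bound for linear forms in logarithms of positive integers, without the hypothesis of
multiplicative independence.
-/

set_option autoImplicit false

namespace Pool.Agent.Y913.Nb

open Finset Pool.Agent.Y913.Bk

lemma exists_WB_le (n : ℕ) : ∃ κ g0, 1 ≤ κ ∧ 1 ≤ g0 ∧ ∀ r ≤ n, WB r κ g0 := by
  induction n with
  | zero =>
    obtain ⟨κ, g0, h⟩ := WB_all 0
    refine ⟨κ + 1, g0 + 1, by omega, by omega, fun r hr => ?_⟩
    obtain rfl : r = 0 := by omega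
    exact h.mono (by omega) (by omega) (by omega)
  | succ n ih =>
    obtain ⟨κ1, g1, hκ1, hg1, h1⟩ := ih
    obtain ⟨κ, g0, h⟩ := WB_all (n + 1)
    refine ⟨κ1 + κ, g1 + g0, by omega, by omega, fun r hr => ?_⟩
    rcases Nat.lt_or_ge n r with hr' | hr'
    · obtain rfl : r = n + 1 := by omega
      exact h.mono (by omega) (by omega) (by omega)
    · exact (h1 r hr').mono (by omega) (by omega) (by omega)

lemma log_eq_sum_of_subset {x : ℕ} (P : Finset ℕ) (hP : x.primeFactors ⊆ P) :
    Real.log x = ∑ p : {p // p ∈ P}, (x.factorization p.1 : ℝ) * Real.log p.1 := by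
  rw [Real.log_nat_eq_sum_factorization, Finsupp.sum, Nat.support_factorization,
    Finset.sum_coe_sort P (fun p => (x.factorization p : ℝ) * Real.log p)]
  apply Finset.sum_subset hP
  intro p _ hp
  have : x.factorization p = 0 := by
    rw [← Finsupp.notMem_support_iff, Nat.support_factorization]
    exact hp
  rw [this, Nat.cast_zero, zero_mul]

theorem WB_dep (n : ℕ) : ∃ κ g0 : ℕ, ∀ g, g0 ≤ g → ∀ (x : Fin n → ℕ) (b : Fin n → ℤ),
    (∀ j, 1 ≤ x j ∧ x j ≤ 2 ^ g) → (∀ j, |b j| ≤ 2 ^ g) →
    ∑ j, (b j : ℝ) * Real.log (x j) ≠ 0 →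
    (1 / 2 : ℝ) ^ (g ^ κ) ≤ |∑ j, (b j : ℝ) * Real.log (x j)| := by
  classical
  obtain ⟨κ, g0, hκ, hg0, hWB⟩ := exists_WB_le n
  refine ⟨κ + 1, g0 + n + 2 * (6 * (n + 1) ^ 2) ^ κ, ?_⟩
  intro g hg x b hx hb hΛ
  obtain ⟨P, hP⟩ : ∃ P : Finset ℕ, P = (∏ j, x j).primeFactors := ⟨_, rfl⟩
  have hx0 : ∀ j, x j ≠ 0 := fun j => by have := (hx j).1; omega
  have hPx : ∀ j, (x j).primeFactors ⊆ P := by
    intro j
    rw [hP]
    exact Nat.primeFactors_mono (Finset.dvd_prod_of_mem x (Finset.mem_univ j))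
      (Finset.prod_ne_zero_iff.mpr (fun j _ => hx0 j))
  let v : Fin n → {p // p ∈ P} → ℤ := fun j p => ((x j).factorization p.1 : ℤ)
  have hv0 : ∀ j p, 0 ≤ v j p := fun j p => Nat.cast_nonneg _
  have hvb : ∀ j p, v j p ≤ 2 ^ g := by
    intro j p
    have h1 := (Nat.factorization_lt p.1 (hx0 j)).le.trans (hx j).2
    show (((x j).factorization p.1 : ℕ) : ℤ) ≤ 2 ^ g
    exact_mod_cast h1
  have hlogv : ∀ j, Real.log (x j) = ∑ p, (v j p : ℝ) * Real.log p.1 := by
    intro j
    rw [log_eq_sum_of_subset P (hPx j)]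
    apply Finset.sum_congr rfl
    intro p _
    simp only [v]
    push_cast
    rfl
  let D : Finset ({p // p ∈ P} → ℤ) := Finset.univ.image v
  let wv : {p // p ∈ P} → ℤ := fun p => ∑ j, b j * v j p
  obtain ⟨R, hR⟩ : ∃ R : ℕ, R = 2 ^ (n + 2 * g) := ⟨_, rfl⟩
  have hRg : (2 : ℤ) ^ g ≤ R := by
    rw [hR]
    push_cast
    exact pow_le_pow_right₀ (by norm_num) (by omega)
  have hwR : ∀ p, |wv p| ≤ R := by
    intro p
    calc |wv p| ≤ ∑ j, |b j * v j p| := Finset.abs_sum_le_sum_abs _ _
      _ ≤ ∑ _j : Fin n, (2 : ℤ) ^ g * 2 ^ g := by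
          apply Finset.sum_le_sum
          intro j _
          rw [abs_mul, abs_of_nonneg (hv0 j p)]
          exact mul_le_mul (hb j) (hvb j p) (hv0 j p) (by positivity)
      _ = n * (2 ^ g * 2 ^ g) := by
          rw [Finset.sum_const, Finset.card_univ, Fintype.card_fin, nsmul_eq_mul]
      _ ≤ 2 ^ n * (2 ^ g * 2 ^ g) := by
          apply mul_le_mul_of_nonneg_right _ (by positivity)
          exact_mod_cast Nat.lt_two_pow_self.le
      _ = R := by
          rw [hR]
          push_cast
          ring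
  have hspan : qc wv ∈ Submodule.span ℚ (qc '' (D : Set ({p // p ∈ P} → ℤ))) := by
    have h1 : qc wv = ∑ j, (b j : ℚ) • qc (v j) := by
      funext p
      rw [Finset.sum_apply]
      simp only [qc, wv, Pi.smul_apply, smul_eq_mul]
      push_cast
      rfl
    rw [h1]
    apply Submodule.sum_mem
    intro j _
    apply Submodule.smul_mem
    apply Submodule.subset_span
    exact ⟨v j, by
      rw [Finset.mem_coe]
      exact Finset.mem_image_of_mem _ (Finset.mem_univ j), rfl⟩
  obtain ⟨r, v', q, c, hr, hv'D, hli, hq0, hqw, hqb, hcb⟩ := descent D R (by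
    intro u hu p
    obtain ⟨j, _, rfl⟩ := Finset.mem_image.mp hu
    rw [abs_of_nonneg (hv0 j p)]
    exact (hvb j p).trans hRg) wv hwR hspan
  have hrn : r ≤ n := by
    rw [hr]
    have h1 : Module.finrank ℚ (Submodule.span ℚ (qc '' (D : Set ({p // p ∈ P} → ℤ)))) ≤
        (D.image qc).card := by
      have h2 := finrank_span_finset_le_card (R := ℚ) (D.image qc)
      rw [Finset.coe_image] at h2
      exact h2
    refine h1.trans (Finset.card_image_le.trans (Finset.card_image_le.trans ?_))
    rw [Finset.card_univ, Fintype.card_fin]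
  have hex : ∀ k, ∃ j, v j = v' k := by
    intro k
    obtain ⟨j, _, hj⟩ := Finset.mem_image.mp (hv'D k)
    exact ⟨j, hj⟩
  choose jj hjj using hex
  -- the relation
  have hΛw : ∑ j, (b j : ℝ) * Real.log (x j) = ∑ p, (wv p : ℝ) * Real.log p.1 := by
    simp_rw [hlogv, Finset.mul_sum]
    rw [Finset.sum_comm]
    apply Finset.sum_congr rfl
    intro p _
    simp only [wv]
    push_cast
    rw [Finset.sum_mul]
    apply Finset.sum_congr rfl
    intro j _
    ring
  have hqΛ : (q : ℝ) * ∑ j, (b j : ℝ) * Real.log (x j) =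
      ∑ k, (c k : ℝ) * Real.log (x (jj k)) := by
    rw [hΛw, Finset.mul_sum]
    simp_rw [hlogv, Finset.mul_sum]
    rw [Finset.sum_comm]
    apply Finset.sum_congr rfl
    intro p _
    rw [← mul_assoc]
    have h1 := hqw p
    have h2 : (q : ℝ) * (wv p : ℝ) = ∑ k, (c k : ℝ) * (v' k p : ℝ) := by exact_mod_cast h1
    rw [h2, Finset.sum_mul]
    apply Finset.sum_congr rfl
    intro k _
    rw [hjj k]
    ring
  obtain ⟨g', hg'⟩ : ∃ g', g' = g * (6 * (n + 1) ^ 2) := ⟨_, rfl⟩
  have hgn : n ≤ g := by omega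
  have hg1 : 1 ≤ g := by omega
  have hbnd : r.factorial * R ^ r ≤ 2 ^ g' := by
    have h1 : r.factorial ≤ 2 ^ (n * n) := by
      calc r.factorial ≤ r ^ r := Nat.factorial_le_pow r
        _ ≤ (2 ^ n) ^ n := by
            calc r ^ r ≤ (2 ^ n) ^ r :=
                  Nat.pow_le_pow_left (hrn.trans Nat.lt_two_pow_self.le) r
              _ ≤ (2 ^ n) ^ n := Nat.pow_le_pow_right (by positivity) hrn
        _ = 2 ^ (n * n) := (pow_mul _ _ _).symm
    have h2 : R ^ r ≤ 2 ^ ((n + 2 * g) * n) := by
      rw [hR, ← pow_mul]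
      exact Nat.pow_le_pow_right (by norm_num) (Nat.mul_le_mul_left _ hrn)
    calc r.factorial * R ^ r ≤ 2 ^ (n * n) * 2 ^ ((n + 2 * g) * n) := Nat.mul_le_mul h1 h2
      _ = 2 ^ (n * n + (n + 2 * g) * n) := (pow_add _ _ _).symm
      _ ≤ 2 ^ g' := by
          apply Nat.pow_le_pow_right (by norm_num)
          rw [hg']
          nlinarith
  have hgg' : g ≤ g' := by
    rw [hg']
    exact Nat.le_mul_of_pos_right _ (by positivity)
  have hmain := hWB r hrn g' (by omega) (fun k => x (jj k)) (fun _ => 1) c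
    (fun k => ⟨(hx _).1, (hx _).2.trans (Nat.pow_le_pow_right (by norm_num) hgg')⟩)
    (fun _ => ⟨le_rfl, Nat.one_le_two_pow⟩)
    (by
      intro k
      refine (hcb k).trans ?_
      exact_mod_cast hbnd)
    (by
      intro h0
      have h1 : (q : ℝ) * ∑ j, (b j : ℝ) * Real.log (x j) = 0 := by
        rw [hqΛ, h0]
        simp
      rcases mul_eq_zero.mp h1 with h2 | h2
      · exact hq0 (by exact_mod_cast h2)
      · exact hΛ h2)
    (by
      intro s hs
      have hpos : ∀ k, (0 : ℝ) < (x (jj k) : ℝ) / ((1 : ℕ) : ℝ) := by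
        intro k
        have := (hx (jj k)).1
        positivity
      have h1 : ∑ k, (s k : ℝ) * Real.log (x (jj k)) = 0 := by
        have h2 := congrArg Real.log hs
        rw [Real.log_prod (fun k _ => zpow_ne_zero _ (hpos k).ne'), Real.log_one] at h2
        rw [← h2]
        apply Finset.sum_congr rfl
        intro k _
        rw [Real.log_zpow, Nat.cast_one, div_one]
      -- equality of integers
      have h3 : (∏ k, (x (jj k)) ^ (s k).toNat) = ∏ k, (x (jj k)) ^ (-(s k)).toNat := by
        have h4 : ∀ (t : Fin r → ℕ), Real.log (∏ k, (x (jj k) : ℝ) ^ t k) =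
            ∑ k, (t k : ℝ) * Real.log (x (jj k)) := by
          intro t
          rw [Real.log_prod (fun k _ => pow_ne_zero _ (by
            have := (hx (jj k)).1
            positivity))]
          simp only [Real.log_pow]
        have h5 : Real.log (∏ k, (x (jj k) : ℝ) ^ (s k).toNat) =
            Real.log (∏ k, (x (jj k) : ℝ) ^ (-(s k)).toNat) := by
          rw [h4, h4, ← sub_eq_zero, ← h1, ← Finset.sum_sub_distrib]
          apply Finset.sum_congr rfl
          intro k _
          have h6 : ((s k).toNat : ℤ) - ((-(s k)).toNat : ℤ) = s k := by omega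
          have h7 : ((s k).toNat : ℝ) - ((-(s k)).toNat : ℝ) = (s k : ℝ) := by exact_mod_cast h6
          rw [← h7]
          ring
        have h6 := Real.log_injOn_pos (by
          show (0 : ℝ) < _
          exact Finset.prod_pos (fun k _ => pow_pos (by
            have := (hx (jj k)).1
            positivity) _)) (by
          show (0 : ℝ) < _
          exact Finset.prod_pos (fun k _ => pow_pos (by
            have := (hx (jj k)).1
            positivity) _)) h5
        exact_mod_cast h6
      have h4 : ∑ k, (s k : ℚ) • qc (v' k) = 0 := by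
        funext p
        rw [Finset.sum_apply]
        have h5 : ∀ t : Fin r → ℕ, (∏ k, (x (jj k)) ^ t k).factorization p.1 =
            ∑ k, t k * (x (jj k)).factorization p.1 := by
          intro t
          rw [Nat.factorization_prod_apply (fun k _ => pow_ne_zero _ (hx0 _))]
          apply Finset.sum_congr rfl
          intro k _
          rw [Nat.factorization_pow]
          simp
        have h6 := congrArg (fun m => m.factorization p.1) h3
        simp only [h5] at h6
        have h7 : ∑ k, (((s k).toNat : ℤ) - ((-(s k)).toNat : ℤ)) *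
            ((x (jj k)).factorization p.1 : ℤ) = 0 := by
          have h8 : (∑ k, ((s k).toNat : ℤ) * ((x (jj k)).factorization p.1 : ℤ)) =
              ∑ k, ((-(s k)).toNat : ℤ) * ((x (jj k)).factorization p.1 : ℤ) := by
            exact_mod_cast h6
          simp_rw [sub_mul]
          rw [Finset.sum_sub_distrib, h8, sub_self]
        have h8 : ∑ k, s k * v' k p = 0 := by
          rw [← h7]
          apply Finset.sum_congr rfl
          intro k _
          rw [← hjj k]
          congr 1
          omega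
        simp only [Pi.smul_apply, smul_eq_mul, qc, Pi.zero_apply]
        exact_mod_cast h8
      rw [Fintype.linearIndependent_iff] at hli
      have h5 := hli (fun k => (s k : ℚ)) h4
      funext k
      have h6 := h5 k
      exact_mod_cast h6)
  have hLam : Lam (fun k => x (jj k)) (fun _ => 1) c = ∑ k, (c k : ℝ) * Real.log (x (jj k)) := by
    unfold Lam
    apply Finset.sum_congr rfl
    intro k _
    simp
  rw [hLam, ← hqΛ, abs_mul] at hmain
  have hqabs : |(q : ℝ)| ≤ 2 ^ g' := by
    have h1 : |q| ≤ 2 ^ g' := hqb.trans (by exact_mod_cast hbnd)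
    rw [← Int.cast_abs]
    exact_mod_cast h1
  -- conclusion
  have h1 : (1 / 2 : ℝ) ^ (g' ^ κ) * (1 / 2) ^ g' ≤ |∑ j, (b j : ℝ) * Real.log (x j)| := by
    have h2 : (1 / 2 : ℝ) ^ (g' ^ κ) ≤ 2 ^ g' * |∑ j, (b j : ℝ) * Real.log (x j)| :=
      hmain.trans (mul_le_mul_of_nonneg_right hqabs (abs_nonneg _))
    calc (1 / 2 : ℝ) ^ (g' ^ κ) * (1 / 2) ^ g'
        ≤ (2 ^ g' * |∑ j, (b j : ℝ) * Real.log (x j)|) * (1 / 2) ^ g' := by gcongr
      _ = |∑ j, (b j : ℝ) * Real.log (x j)| * (2 ^ g' * (1 / 2) ^ g') := by ring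
      _ = _ := by
          rw [← mul_pow]
          norm_num
  refine le_trans ?_ h1
  rw [← pow_add]
  apply pow_le_pow_of_le_one (by norm_num) (by norm_num)
  have h2 : g' ≤ g' ^ κ := Nat.le_self_pow (by omega) _
  calc g' ^ κ + g' ≤ 2 * g' ^ κ := by omega
    _ = 2 * (6 * (n + 1) ^ 2) ^ κ * g ^ κ := by rw [hg', mul_pow]; ring
    _ ≤ g * g ^ κ := Nat.mul_le_mul_right _ (by omega)
    _ = g ^ (κ + 1) := (pow_succ' _ _).symm

end Pool.Agent.Y913.Nb
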