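import Pool.Agent.Y913.Nb.Zg
import Pool.Agent.Y913.Zero

/-!
Consequence of the zero estimate: a non-zero polynomial of degree `< D` in each variable cannot
vanish at all products of at most `n` elements of a large finite family `Γ` of points of the torus
none of whose quotients satisfies a multiplicative relation with exponents less than `D`.
-/

open MvPolynomial

set_option autoImplicit false

namespace Pool.Agent.Y913.Nb

open Pool.Agent.H364R2 Pool.Agent.H301R2.ZG Pool.Agent.Y913

variable {σ : Type} [DecidableEq σ]

/-- a polynomial vanishing at all powers of a point, whose monomials take different values at the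
point, is zero. -/
lemma eq_zero_of_powers' [Fintype σ] {D : ℕ} (z : σ → ℂ)
    (hz : ∀ u u' : σ → ℕ, (∀ j, u j ≤ D) → (∀ j, u' j ≤ D) →
      ∏ j, z j ^ u j = ∏ j, z j ^ u' j → u = u')
    (f : MvPolynomial σ ℂ) (hfD : f ∈ box ℂ (fun _ : σ => D) 1)
    (hf : ∀ k : ℕ, eval (fun j => z j ^ k) f = 0) : f = 0 := by
  classical
  have hbox : ∀ m ∈ f.support, ∀ j, m j ≤ D := by
    rw [mem_box] at hfD
    intro m hm j
    have h1 := hfD m hm j
    omega
  -- characters of `ℕ`
  let χ : {m // m ∈ f.support} → (Multiplicative ℕ →* ℂ) := fun m =>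
    powersHom ℂ (∏ j, z j ^ m.1 j)
  have hχ : Function.Injective χ := by
    intro m m' h
    have h1 := (powersHom ℂ).injective h
    have h2 := hz (fun j => m.1 j) (fun j => m'.1 j) (hbox _ m.2) (hbox _ m'.2) h1
    apply Subtype.ext
    ext j
    exact congrFun h2 j
  have hli := (linearIndependent_monoidHom (Multiplicative ℕ) ℂ).comp χ hχ
  rw [Fintype.linearIndependent_iff] at hli
  have h3 := hli (fun m => coeff m.1 f) (by
    funext k
    rw [Finset.sum_apply]
    have h4 := hf (Multiplicative.toAdd k)
    rw [eval_eq'] at h4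
    rw [Pi.zero_apply, ← h4, ← Finset.sum_coe_sort f.support]
    apply Finset.sum_congr rfl
    intro m _
    simp only [Function.comp, Pi.smul_apply, smul_eq_mul, χ, powersHom_apply]
    congr 1
    rw [← Finset.prod_pow]
    apply Finset.prod_congr rfl
    intro j _
    rw [← pow_mul, ← pow_mul, mul_comm])
  ext m
  rw [coeff_zero]
  by_cases hm : m ∈ f.support
  · exact h3 ⟨m, hm⟩
  · exact notMem_support_iff.mp hm

/-- **the form of the zero estimate which we need** -/
theorem card_le_of_vanish2 [Fintype σ] {D : ℕ} (hD : 1 ≤ D)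
    (G : (σ → Fin D) → ℤ) (hG : G ≠ 0) (Γ : Finset (σ → ℂ)) (hne : ∀ g ∈ Γ, ∀ j, g j ≠ 0)
    (hind : ∀ g ∈ Γ, ∀ g' ∈ Γ, g ≠ g' → ∀ u u' : σ → ℕ, (∀ j, u j ≤ D) → (∀ j, u' j ≤ D) →
      ∏ j, (g' j / g j) ^ u j = ∏ j, (g' j / g j) ^ u' j → u = u')
    (hvan : ∀ gs : List (σ → ℂ), gs.length ≤ Fintype.card σ → (∀ g ∈ gs, g ∈ Γ) →
      ∑ u : σ → Fin D, (G u : ℂ) * ∏ j, ((gs.map (fun g => g j)).prod) ^ (u j : ℕ) = 0) :
    Γ.card ≤ 2 ^ ((Fintype.card σ + 1) * Fintype.card σ) * D ^ Fintype.card σ := by
  classical
  let add : σ → Bool := fun _ => false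
  obtain ⟨Q, β, hQ, hβ, ⟨F', hF'Q, hF'0, hF'box⟩, hone, hstab, ⟨B, hBc, hB⟩, hmax, hbound⟩ :=
    zero_estimate_deg add (l := 0) (fun k => k.elim0) Γ 0 (polyG G) (fun _ => D)
      (fun _ => hD) (fun g hg j _ => hne g hg j) (polyG_ne_zero hG) (polyG_mem_box G) (by
        intro ks gs hks hgs hmem
        have h0 : ks = [] := by
          cases ks with
          | nil => rfl
          | cons k _ => exact k.elim0
        subst h0
        simp only [derIter]
        rw [eval_polyG]
        have := hvan gs hgs hmem
        rw [← this]
        apply Finset.sum_congr rfl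
        intro u _
        congr 1
        apply Finset.prod_congr rfl
        intro j _
        rw [prodG_mul])
  have key := hbound B hBc hB Γ (Finset.Subset.refl _) (by
    intro g hg g' hg' htr
    by_contra hne'
    have hgG : IsG add g := fun j _ => hne g hg j
    have hgG' : IsG add g' := fun j _ => hne g' hg' j
    set z : σ → ℂ := gmul add g' (ginv add g) with hz
    have hzj : ∀ j, z j = g' j / g j := by
      intro j
      simp [hz, gmul, ginv, add, div_eq_mul_inv]
    have htrz : trI add z Q = Q := by
      have h2 : trI add (ginv add g) (trI add g' Q) = Q := by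
        rw [← htr, trI_trI, ginv_gmul add hgG, trI_gone]
      rw [trI_trI] at h2
      have h3 : gmul add (ginv add g) g' = z := by
        funext j
        simp [hz, gmul, add, mul_comm]
      rwa [h3] at h2
    have hpow : ∀ k : ℕ, (fun j => z j ^ k) ∈ ZP add Q := by
      intro k
      induction k with
      | zero =>
        have h0 : (fun j : σ => z j ^ 0) = gone add := by
          funext j
          simp [gone, add]
        rw [h0]
        exact hone
      | succ k ih =>
        refine ⟨?_, ?_⟩
        · intro j _
          apply pow_ne_zero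
          rw [hzj]
          exact div_ne_zero (hne g' hg' j) (hne g hg j)
        · intro f hf
          have h1 : tr add z f ∈ Q := by
            rw [← htrz] at hf
            exact hf
          have h2 := ih.2 _ h1
          rw [eval_tr] at h2
          have h3 : gmul add (fun j => z j ^ k) z = fun j => z j ^ (k + 1) := by
            funext j
            simp [gmul, add, pow_succ]
          rwa [h3] at h2
    apply hF'0
    apply eq_zero_of_powers' (D := D) z _ F' hF'box
    · intro k
      exact (hpow k).2 F' hF'Q
    · intro u u' hu hu' h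
      apply hind g hg g' hg' hne' u u' hu hu'
      simpa [hzj] using h) 0 (fun k => k.elim0) (fun k => k.elim0) (fun k => k.elim0)
      (fun k => k.elim0) (fun k => k.elim0)
  rw [Nat.zero_div, zero_add, one_pow, mul_one] at key
  refine key.trans (Nat.mul_le_mul ?_ ?_)
  · apply Nat.pow_le_pow_right (by norm_num)
    exact Nat.mul_le_mul (by omega) (by omega)
  · rw [Finset.prod_const]
    apply Nat.pow_le_pow_right hD
    exact Finset.card_le_univ _

end Pool.Agent.Y913.Nb
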