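import Pool.Agent.H301R2.ZG.Group

/-!
The zero estimate of the starting files with bounded degree of the obstruction.
-/

open MvPolynomial

set_option autoImplicit false

namespace Pool.Agent.Y913.Nb

open Pool.Agent.H364R2 Pool.Agent.H301R2.ZG

variable {σ : Type} (add : σ → Bool) {l : ℕ} (W : Fin l → σ → ℂ)
  (Γ₁ : Finset (σ → ℂ)) (T : ℕ) (F : MvPolynomial σ ℂ)

/-- **abstract zero estimate, group version** (a copy of `zero_estimate_group` of the starting files,
with the additional information that a nonzero polynomial of the same degrees lies in `Q`) -/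
theorem zero_estimate_deg [Fintype σ] [DecidableEq σ] (L : σ → ℕ) (hL : ∀ j, 1 ≤ L j)
    (hΓ : ∀ g ∈ Γ₁, IsG add g) (hF0 : F ≠ 0) (hF : F ∈ box ℂ L 1)
    (hvan : ∀ (ks : List (Fin l)) (gs : List (σ → ℂ)), ks.length ≤ Fintype.card σ * T →
      gs.length ≤ Fintype.card σ → (∀ g ∈ gs, g ∈ Γ₁) →
      eval (prodG add gs) (derIter add W ks F) = 0) :
    ∃ (Q : Ideal (MvPolynomial σ ℂ)) (β : ℕ), GPrime add Q ∧ β < Fintype.card σ ∧
      (∃ F' ∈ Q, F' ≠ 0 ∧ F' ∈ box ℂ L 1) ∧
      gone add ∈ ZP add Q ∧ (∀ z ∈ ZP add Q, trI add z Q = Q) ∧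
      (∃ B : Finset σ, B.card = β ∧ Indep Q (B : Set σ)) ∧
      (∀ B : Finset σ, Indep Q (B : Set σ) → B.card ≤ β) ∧
      (∀ B : Finset σ, B.card = β → Indep Q (B : Set σ) →
        ∀ Δ : Finset (σ → ℂ), Δ ⊆ Γ₁ →
        (∀ g ∈ Δ, ∀ g' ∈ Δ, trI add g Q = trI add g' Q → g = g') →
        ∀ (l' : ℕ) (e : Fin l' → Fin l) (f : Fin l' → MvPolynomial σ ℂ), (∀ k, f k ∈ Q) →
        (∀ k, der add (W (e k)) (f k) ∉ Q) →
        (∀ k k', k ≠ k' → der add (W (e k)) (f k') ∈ Q) →
        Δ.card * (T / l' + 1) ^ l' ≤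
          2 ^ ((Fintype.card σ - β + 1) * (Fintype.card σ - β)) * ∏ j ∈ Finset.univ \ B, L j) := by
  classical
  obtain ⟨r, P, β, B0, hr, hP, hPS, hB0, hB0c, hmax⟩ := pigeon add W Γ₁ T F hF0 hvan
  -- maximality in the form needed for `eq_of_le`
  have hins : ∀ Q, GPrime add Q → (∀ f ∈ SS add W Γ₁ T F r, f ∈ Q) → ∀ j ∉ (B0 : Set σ),
      ¬ Indep Q (insert j (B0 : Set σ)) := by
    intro Q hQ hSQ j hj hI
    have h1 := hmax Q hQ hSQ (insert j B0) (by rw [Finset.coe_insert]; exact hI)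
    rw [Finset.card_insert_of_notMem (by simpa using hj), hB0c] at h1
    omega
  -- the stabilizer
  let H : Set (σ → ℂ) := {h | IsG add h ∧ trI add h P = P}
  have hHone : gone add ∈ H := ⟨isG_gone add, trI_gone add P⟩
  have hHmul : ∀ x ∈ H, ∀ y ∈ H, gmul add x y ∈ H := by
    rintro x ⟨hx, hx'⟩ y ⟨hy, hy'⟩
    exact ⟨isG_gmul add hx hy, by rw [← trI_trI, hy', hx']⟩
  have hHinv : ∀ x ∈ H, ginv add x ∈ H := by
    rintro x ⟨hx, hx'⟩
    refine ⟨isG_ginv add hx, ?_⟩
    conv_lhs => rw [← hx']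
    rw [trI_trI, ginv_gmul add hx, trI_gone]
  -- K1
  have K1 : ∀ Q, GPrime add Q → (∀ f ∈ JJ add W Γ₁ T F P r, f ∈ Q) → ∀ q ∈ ZP add Q, ∀ z ∈ ZP add Q,
      gmul add z (ginv add q) ∈ H := by
    intro Q hQ hJQ
    have hM : GPrime add (mulI add Q P) := gprime_mulI add hQ hP
    have hSM : ∀ f ∈ SS add W Γ₁ T F r, f ∈ mulI add Q P := by
      intro f hf x hx y hy
      rw [← eval_tr]
      exact hx.2 _ (hJQ _ (Submodule.subset_span ⟨f, hf, y, hy, rfl⟩))
    have key : ∀ q ∈ ZP add Q, mulI add Q P = trI add q P := by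
      intro q hq
      refine eq_of_le hM.1 (hP.trI add q hq.1).1 ?_ (hB0.trI add q hq.1) (hins _ hM hSM)
      intro f hf
      rw [mem_trI]
      apply mem_of_eval add hP
      intro y hy
      rw [eval_tr, gmul_comm]
      exact hf q hq y hy
    intro q hq z hz
    refine ⟨isG_gmul add hz.1 (isG_ginv add hq.1), ?_⟩
    rw [gmul_comm, ← trI_trI, ← key z hz, key q hq, trI_trI, ginv_gmul add hq.1, trI_gone]
  -- K2
  have K2 : ∀ h ∈ H, ∀ f ∈ JJ add W Γ₁ T F P (r + 1), eval h f = 0 := by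
    rintro h ⟨hh, hh'⟩ f hf
    have := JJ_le_ideal add W Γ₁ T F P (RingHom.ker (eval h)) (r + 1) (by
      intro f hf v hv
      rw [RingHom.mem_ker, eval_tr, gmul_comm, ← eval_tr]
      apply hv.2
      rw [← mem_trI, hh']
      exact hPS f hf) f hf
    exact this
  have K2' : ∀ Q, GPrime add Q → (∀ z ∈ ZP add Q, z ∈ H) →
      ∀ f ∈ JJ add W Γ₁ T F P (r + 1), f ∈ Q := by
    intro Q hQ hz f hf
    apply mem_of_eval add hQ
    intro z hz'
    exact K2 z (hz z hz') f hf
  -- dimensions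
  let HB : ℕ → Prop := fun n => ∃ (Q : Ideal (MvPolynomial σ ℂ)) (B : Finset σ), GPrime add Q ∧
    (∀ f ∈ JJ add W Γ₁ T F P (r + 1), f ∈ Q) ∧ Indep Q (B : Set σ) ∧ B.card = n
  have hHB0 : HB 0 := ⟨mone add, ∅, gprime_mone add, by
      intro f hf
      rw [mone, RingHom.mem_ker]
      exact K2 _ hHone f hf, by
      rw [Finset.coe_empty]; exact indep_empty (gprime_mone add).1.ne_top, rfl⟩
  let γ := Nat.findGreatest HB (Fintype.card σ)
  have hγspec : HB γ := Nat.findGreatest_spec (Nat.zero_le _) hHB0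
  have hγmax : ∀ Q, GPrime add Q → (∀ f ∈ JJ add W Γ₁ T F P (r + 1), f ∈ Q) → ∀ B : Finset σ,
      Indep Q (B : Set σ) → B.card ≤ γ := by
    intro Q hQ hJQ B hB
    exact Nat.le_findGreatest (Finset.card_le_univ B) ⟨Q, B, hQ, hJQ, hB, rfl⟩
  -- K3
  have K3' : ∀ Q, GPrime add Q → (∀ f ∈ JJ add W Γ₁ T F P r, f ∈ Q) → ∀ q ∈ ZP add Q,
      ∀ z ∈ ZP add (trI add (ginv add q) Q), z ∈ H := by
    intro Q hQ hJQ q hq z hz
    rw [mem_ZP_trI add (isG_ginv add hq.1) hz.1, ginv_ginv] at hz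
    have := K1 Q hQ hJQ q hq _ hz
    rwa [gmul_assoc, gmul_ginv add hq.1, gmul_gone] at this
  have hγmax' : ∀ Q, GPrime add Q → (∀ f ∈ JJ add W Γ₁ T F P r, f ∈ Q) → ∀ B : Finset σ,
      Indep Q (B : Set σ) → B.card ≤ γ := by
    intro Q hQ hJQ B hB
    obtain ⟨q, hq⟩ := ZP_nonempty add hQ
    have hG := hQ.trI add (ginv add q) (isG_ginv add hq.1)
    exact hγmax _ hG (K2' _ hG (K3' Q hQ hJQ q hq)) B (hB.trI add _ (isG_ginv add hq.1))
  -- the prime `Q`
  obtain ⟨Q0, B1, hQ0, hJQ0, hB1, hB1c⟩ := hγspec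
  have hJQ0' : ∀ f ∈ JJ add W Γ₁ T F P r, f ∈ Q0 := fun f hf =>
    hJQ0 f (JJ_mono add W Γ₁ T F P r hf)
  obtain ⟨q, hq⟩ := ZP_nonempty add hQ0
  set Q := trI add (ginv add q) Q0 with hQdef
  have hQ : GPrime add Q := hQ0.trI add _ (isG_ginv add hq.1)
  have hQH : ∀ z ∈ ZP add Q, z ∈ H := K3' Q0 hQ0 hJQ0' q hq
  have hJQ : ∀ f ∈ JJ add W Γ₁ T F P (r + 1), f ∈ Q := K2' Q hQ hQH
  have hQB1 : Indep Q (B1 : Set σ) := hB1.trI add _ (isG_ginv add hq.1)
  have hQone : gone add ∈ ZP add Q := by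
    rw [hQdef, mem_ZP_trI add (isG_ginv add hq.1) (isG_gone add), ginv_ginv, gone_gmul]
    exact hq
  have hins1 : ∀ Q', GPrime add Q' → (∀ f ∈ JJ add W Γ₁ T F P (r + 1), f ∈ Q') →
      ∀ j ∉ (B1 : Set σ), ¬ Indep Q' (insert j (B1 : Set σ)) := by
    intro Q' hQ' hSQ j hj hI
    have h1 := hγmax Q' hQ' hSQ (insert j B1) (by rw [Finset.coe_insert]; exact hI)
    rw [Finset.card_insert_of_notMem (by simpa using hj), hB1c] at h1
    omega
  have hstab : ∀ z ∈ ZP add Q, trI add z Q = Q := by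
    intro h hh
    have hQ'G : GPrime add (trI add (ginv add h) Q) := hQ.trI add _ (isG_ginv add hh.1)
    have hM := gprime_mulI add hQ hQ'G
    have hQ'H : ∀ z ∈ ZP add (trI add (ginv add h) Q), z ∈ H := by
      intro z hz
      rw [mem_ZP_trI add (isG_ginv add hh.1) hz.1, ginv_ginv] at hz
      have := hHmul _ (hQH _ hz) _ (hHinv _ (hQH h hh))
      rwa [gmul_assoc, gmul_ginv add hh.1, gmul_gone] at this
    have hJM : ∀ f ∈ JJ add W Γ₁ T F P (r + 1), f ∈ mulI add Q (trI add (ginv add h) Q) := by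
      intro f hf x hx y hy
      exact K2 _ (hHmul _ (hQH x hx) _ (hQ'H y hy)) f hf
    have hone' : gone add ∈ ZP add (trI add (ginv add h) Q) := by
      rw [mem_ZP_trI add (isG_ginv add hh.1) (isG_gone add), ginv_ginv, gone_gmul]
      exact hh
    have e1 : mulI add Q (trI add (ginv add h) Q) = Q := by
      refine eq_of_le hM.1 hQ.1 ?_ hQB1 (hins1 _ hM hJM)
      intro f hf
      apply mem_of_eval add hQ
      intro x hx
      have := hf x hx _ hone'
      rwa [gmul_gone] at this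
    have e2 : mulI add Q (trI add (ginv add h) Q) = trI add (ginv add h) Q := by
      refine eq_of_le hM.1 hQ'G.1 ?_ (hQB1.trI add _ (isG_ginv add hh.1)) (hins1 _ hM hJM)
      intro f hf
      apply mem_of_eval add hQ'G
      intro y hy
      have := hf _ hQone y hy
      rwa [gone_gmul] at this
    rw [e1] at e2
    conv_lhs => rw [e2]
    rw [trI_trI, gmul_ginv add hh.1, trI_gone]
  refine ⟨Q, γ, hQ, ?_, ?_, hQone, hstab, ⟨B1, hB1c, hQB1⟩, hγmax Q hQ hJQ, ?_⟩
  rotate_left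
  · obtain ⟨v, hv⟩ := ZP_nonempty add hP
    refine ⟨tr add v F, hJQ _ (by
      apply Submodule.subset_span
      refine ⟨F, ?_, v, hv, rfl⟩
      have : ∀ s, F ∈ SS add W Γ₁ T F s := by
        intro s
        induction s with
        | zero => exact F_mem_SS add W Γ₁ T F
        | succ s ih => exact SS_mono add W Γ₁ T F s ih
      exact this _), ?_, tr_mem_box add _ hF⟩
    intro h2
    have h3 := tr_ginv_tr add hv.1 F
    rw [h2, map_zero] at h3
    exact hF0 h3.symm
  rotate_left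
  · -- γ < d
    rw [← hB1c]
    refine lt_of_le_of_ne (Finset.card_le_univ B1) (fun h => hF0 ?_)
    have hB : B1 = Finset.univ := (Finset.card_eq_iff_eq_univ B1).mp h
    obtain ⟨v, hv⟩ := ZP_nonempty add hP
    have h1 : tr add v F ∈ Q := hJQ _ (by
      apply Submodule.subset_span
      refine ⟨F, ?_, v, hv, rfl⟩
      have : ∀ s, F ∈ SS add W Γ₁ T F s := by
        intro s
        induction s with
        | zero => exact F_mem_SS add W Γ₁ T F
        | succ s ih => exact SS_mono add W Γ₁ T F s ih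
      exact this _)
    have h2 := hQB1 (tr add v F) (by rw [hB, Finset.coe_univ, supported_univ]; trivial) h1
    have h3 := tr_ginv_tr add hv.1 F
    rw [h2, map_zero] at h3
    exact h3.symm
  · intro B hBc hB Δ hΔ hdist l' e f hf hf1 hf2
    have hcard1 : Fintype.card {j // j ∉ (B : Set σ)} = Fintype.card σ - γ := by
      rw [← hBc]
      have : Fintype.card {j // j ∉ (B : Set σ)} = Fintype.card {j // ¬ (j ∈ B)} :=
        Fintype.card_congr (Equiv.refl _)
      rw [this, Fintype.card_subtype_compl, Fintype.card_coe]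
    have hprod : ∏ j : {j // j ∉ (B : Set σ)}, L j.1 = ∏ j ∈ Finset.univ \ B, L j := by
      symm
      refine Finset.prod_subtype _ ?_ L
      intro x
      simp
    rw [← hcard1, ← hprod]
    have hmain := mult_bound (Γ := Δ) add (fun k => W (e k)) (B : Set σ) L hL
      (JJ add W Γ₁ T F P r) (JJ_le_box add W Γ₁ T F P hF r) (by
        intro Q' hQ' hSQ' hQB' j hj hjB
        have h1 := hγmax' Q' hQ' hSQ' (insert j B) (by rw [Finset.coe_insert]; exact hjB)
        rw [Finset.card_insert_of_notMem (by simpa using hj), hBc] at h1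
        omega)
      (fun g => trI add g.1 Q) (fun g => hQ.trI add g.1 (hΓ _ (hΔ g.2)))
      (fun g => hB.trI add g.1 (hΓ _ (hΔ g.2)))
      (by
        intro g g' h
        exact Subtype.ext (hdist g.1 g.2 g'.1 g'.2 h)) T
      (by
        intro g h hh
        apply mem_V_of_derIter
        intro ks hks
        rw [mem_trI, ← derIter_tr, derIter_map]
        exact hJQ _ (derIter_tr_mem_JJ add W Γ₁ T F P hh (hΔ g.2) (by simpa using hks)))
      (fun g k => tr add (ginv add g.1) (f k))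
      (by
        intro g k
        rw [mem_trI, tr_tr_ginv add (hΓ _ (hΔ g.2))]
        exact hf k)
      (by
        intro g k
        rw [mem_trI, ← der_tr, tr_tr_ginv add (hΓ _ (hΔ g.2))]
        exact hf1 k)
      (by
        intro g k k' hk
        rw [mem_trI, ← der_tr, tr_tr_ginv add (hΓ _ (hΔ g.2))]
        exact hf2 k k' hk)
    rw [Fintype.card_coe] at hmain
    exact hmain

end Pool.Agent.Y913.Nb
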